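import Pool.Agent.Lib.MP_b525bf_ag_SG.RG
import Pool.Agent.Lib.MP_b525bf_ag_R.TWT

/-!
# G04: the orbit of a weight vector under a product of root subgroups

Proof. `expansion_one`: `Pool.Agent.MP_b525bf_ag_R.exists_up (ρ.comp (D.φ γ)) (hρ.sl γ) c` gives
`ρ (x γ s) c = ∑ i ≤ N, s ^ i • c i`, each `c i` a combination of the `ρ (x γ s) c`; the weight of
`c i`: `ρ (T t) (ρ (x γ s) c) = ρ (x γ (χ s)) (ρ (T t) c) = chi l t • ∑ (χ s) ^ i • c i`, `χ = chi
(root γ) t` (`D.T_conj`), compare the coefficients of `s ^ i` (`exists_coeff_pow`,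
`sum_smul_eq_coeff` in SPN.lean of MP_b525bf_ag_R), `chi_add`, `chi (i • l) = (chi l) ^ i`.
`expansion`: induction on the list of the roots (write the product as `D.x (γ 0) (X 0) * ...`,
`List.ofFn_succ`, or do it for lists and MvPolynomial ℕ first): `ρ (x (γ 0) (X 0))` applied to
`eval X P' = ∑ m, X ^ m • coeff m` (finite sum over `P'.support`), where each `coeff m` is a weight
vector; expand each `ρ (x (γ 0) r) (coeff m)` by `expansion_one` as a polynomial in `r = X 0`. The
new coefficients are in the span of the `ρ g c` (it is stable under `G`), of the weight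
`l + m • root` plus `i • root (γ 0)`. Zero coefficients are weight vectors of every weight.
-/

set_option autoImplicit false

namespace Pool.Agent.MP_b525bf_ag_SG

open Pool.Agent.MP_b525bf_ag_R (up lo dg chi IsRat)
open scoped MatrixGroups

variable {k ι R G : Type} [Field k] [Infinite k] [Fintype ι] [Group G] (D : RG k ι R G) {A : Type}
  [CommRing A] [Algebra k A] (ρ : G →* (A ≃ₐ[k] A))

omit [Infinite k] in
private theorem isWt_zero (l : ι → ℤ) : D.IsWt ρ l (0 : A) := by
  intro t
  rw [map_zero, smul_zero]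

omit [Infinite k] in
private theorem isWt_sum {α : Type} (S : Finset α) (l : ι → ℤ) (f : α → A)
    (h : ∀ a ∈ S, D.IsWt ρ l (f a)) : D.IsWt ρ l (∑ a ∈ S, f a) := by
  intro t
  rw [map_sum, Finset.smul_sum]
  exact Finset.sum_congr rfl fun a ha => h a ha t

omit [Infinite k] in
private theorem chi_nsmul (i : ℕ) (l : ι → ℤ) (t : ι → kˣ) :
    chi ((i : ℤ) • l) t = chi l t ^ i := by
  unfold chi
  rw [← Finset.prod_pow]
  refine Finset.prod_congr rfl fun j _ => ?_
  rw [Pi.smul_apply, smul_eq_mul, mul_comm, zpow_mul, zpow_natCast]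

theorem expansion_one (hρ : D.Rat ρ) (γ : R) (c : A) (l : ι → ℤ) (hl : D.IsWt ρ l c) :
    ∃ P : Polynomial A, (∀ s : k, ρ (D.x γ s) c = P.eval (algebraMap k A s)) ∧
      (∀ i, P.coeff i ∈ Submodule.span k (Set.range fun s => ρ (D.x γ s) c)) ∧
      ∀ i : ℕ, D.IsWt ρ (l + (i : ℤ) • D.root γ) (P.coeff i) := by
  classical
  obtain ⟨N, d, b, hb, -, hd⟩ :=
    Pool.Agent.MP_b525bf_ag_R.exists_up (ρ.comp (D.φ γ)) (hρ.sl γ) c
  have hd' : ∀ s, ρ (D.x γ s) c = ∑ i ∈ Finset.range (N + 1), s ^ i • d i := hd
  have hb' : ∀ i, d i = (b i).sum fun s x => x • ρ (D.x γ s) c := hb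
  have hco : ∀ i, (∑ j ∈ Finset.range (N + 1), Polynomial.monomial j (d j)).coeff i =
      if i ∈ Finset.range (N + 1) then d i else 0 := by
    intro i
    rw [Polynomial.finsetSum_coeff]
    simp only [Polynomial.coeff_monomial]
    rw [Finset.sum_ite_eq']
  refine ⟨∑ j ∈ Finset.range (N + 1), Polynomial.monomial j (d j), ?_, ?_, ?_⟩
  · intro s
    rw [hd' s, Polynomial.eval_finsetSum]
    refine Finset.sum_congr rfl fun i _ => ?_
    rw [Polynomial.eval_monomial, Algebra.smul_def, map_pow, mul_comm]
  · intro i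
    rw [hco]
    split_ifs
    · rw [hb', Finsupp.sum]
      exact Submodule.sum_mem _ fun s _ => Submodule.smul_mem _ _ (Submodule.subset_span ⟨s, rfl⟩)
    · exact Submodule.zero_mem _
  · intro i
    rw [hco]
    split_ifs with hi
    · intro t
      obtain ⟨e, he⟩ := Pool.Agent.MP_b525bf_ag_R.exists_coeff_pow k N i
        (Nat.lt_succ_iff.1 (Finset.mem_range.1 hi))
      have he' : ∀ j ∈ Finset.range (N + 1), (e.sum fun s a => a * (fun (j : ℕ) (s : k) => s ^ j) j s)
          = if j = i then 1 else 0 := fun j hj => he j (Nat.lt_succ_iff.1 (Finset.mem_range.1 hj))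
      have h1 := Pool.Agent.MP_b525bf_ag_R.sum_smul_eq_coeff (fun (j : ℕ) (s : k) => s ^ j)
        (Finset.range (N + 1)) i hi e he' (fun s => ρ (D.T t) (ρ (D.x γ s) c))
        (fun j => ρ (D.T t) (d j)) (by
          intro s
          show ρ (D.T t) (ρ (D.x γ s) c) = _
          rw [hd' s, map_sum]
          exact Finset.sum_congr rfl fun j _ => map_smul _ _ _)
      have h2 := Pool.Agent.MP_b525bf_ag_R.sum_smul_eq_coeff (fun (j : ℕ) (s : k) => s ^ j)
        (Finset.range (N + 1)) i hi e he' (fun s => ρ (D.T t) (ρ (D.x γ s) c))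
        (fun j => (chi (l + (j : ℤ) • D.root γ) t : k) • d j) (by
          intro s
          show ρ (D.T t) (ρ (D.x γ s) c) = _
          have h3 : ρ (D.T t) (ρ (D.x γ s) c) = ρ (D.T t * D.x γ s) c := by
            rw [map_mul]
            rfl
          have h4 : D.T t * D.x γ s = D.x γ ((chi (D.root γ) t : k) * s) * D.T t := D.T_conj t γ s
          have h5 : ρ (D.x γ ((chi (D.root γ) t : k) * s) * D.T t) c =
              ρ (D.x γ ((chi (D.root γ) t : k) * s)) (ρ (D.T t) c) := by
            rw [map_mul]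
            rfl
          rw [h3, h4, h5, hl t, map_smul, hd', Finset.smul_sum]
          refine Finset.sum_congr rfl fun j _ => ?_
          show _ = s ^ j • _
          rw [smul_smul, smul_smul, Pool.Agent.MP_b525bf_ag_R.chi_add, chi_nsmul, Units.val_mul,
            Units.val_pow_eq_pow_val, mul_pow]
          congr 1
          ring)
      rw [← h1, h2]
    · exact isWt_zero D ρ _

omit [Infinite k] in
private theorem span_step (c : A) (g : G) (y : A)
    (hy : y ∈ Submodule.span k (Set.range fun g => ρ g c)) :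
    ρ g y ∈ Submodule.span k (Set.range fun g => ρ g c) := by
  refine Submodule.span_induction (p := fun y _ => ρ g y ∈
    Submodule.span k (Set.range fun g => ρ g c)) ?_ ?_ ?_ ?_ hy
  · rintro _ ⟨h, rfl⟩
    refine Submodule.subset_span ⟨g * h, ?_⟩
    show ρ (g * h) c = ρ g (ρ h c)
    rw [map_mul]
    rfl
  · rw [map_zero]
    exact Submodule.zero_mem _
  · intro x y _ _ hx hy
    rw [map_add]
    exact Submodule.add_mem _ hx hy
  · intro a x _ hx
    rw [map_smul]
    exact Submodule.smul_mem _ _ hx

theorem expansion (hρ : D.Rat ρ) {N : ℕ} (γ : Fin N → R) (c : A) (l : ι → ℤ)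
    (hl : D.IsWt ρ l c) :
    ∃ P : MvPolynomial (Fin N) A,
      (∀ X : Fin N → k, ρ (List.ofFn fun i => D.x (γ i) (X i)).prod c =
        MvPolynomial.eval (fun i => algebraMap k A (X i)) P) ∧
      (∀ m, P.coeff m ∈ Submodule.span k (Set.range fun g => ρ g c)) ∧
      ∀ m, D.IsWt ρ (l + ∑ i, (m i : ℤ) • D.root (γ i)) (P.coeff m) := by
  classical
  induction N with
  | zero =>
    refine ⟨MvPolynomial.C c, ?_, ?_, ?_⟩
    · intro X
      rw [List.ofFn_zero, List.prod_nil, map_one, MvPolynomial.eval_C]
      rfl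
    · intro m
      rw [MvPolynomial.coeff_C]
      split_ifs
      · refine Submodule.subset_span ⟨1, ?_⟩
        show ρ 1 c = c
        rw [map_one]
        rfl
      · exact Submodule.zero_mem _
    · intro m
      rw [MvPolynomial.coeff_C]
      split_ifs
      · rw [Finset.univ_eq_empty, Finset.sum_empty, add_zero]
        exact hl
      · exact isWt_zero D ρ _
  | succ N ih =>
    obtain ⟨P, hP, hPs, hPw⟩ := ih fun i => γ i.succ
    have hQ := fun m => expansion_one D ρ hρ (γ 0) (P.coeff m) _ (hPw m)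
    choose Q hQe hQs hQw using hQ
    have hlift : ∀ m i, (Q m).coeff i ∈ Submodule.span k (Set.range fun g => ρ g c) := by
      intro m i
      refine Submodule.span_le.2 ?_ (hQs m i)
      rintro _ ⟨s, rfl⟩
      exact span_step ρ c _ _ (hPs m)
    have hco : ∀ n, (∑ m ∈ P.support, ∑ j ∈ Finset.range ((Q m).natDegree + 1),
        MvPolynomial.monomial (Finsupp.cons j m) ((Q m).coeff j)).coeff n =
        ∑ m ∈ P.support, ∑ j ∈ Finset.range ((Q m).natDegree + 1),
          if Finsupp.cons j m = n then (Q m).coeff j else 0 := by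
      intro n
      rw [MvPolynomial.coeff_sum]
      refine Finset.sum_congr rfl fun m _ => ?_
      rw [MvPolynomial.coeff_sum]
      refine Finset.sum_congr rfl fun j _ => ?_
      rw [MvPolynomial.coeff_monomial]
    refine ⟨∑ m ∈ P.support, ∑ j ∈ Finset.range ((Q m).natDegree + 1),
      MvPolynomial.monomial (Finsupp.cons j m) ((Q m).coeff j), ?_, ?_, ?_⟩
    · intro X
      rw [List.ofFn_succ, List.prod_cons]
      have h1 : ρ (D.x (γ 0) (X 0) * (List.ofFn fun i : Fin N => D.x (γ i.succ) (X i.succ)).prod) c =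
          ρ (D.x (γ 0) (X 0)) (ρ (List.ofFn fun i : Fin N => D.x (γ i.succ) (X i.succ)).prod c) := by
        rw [map_mul]
        rfl
      rw [h1, hP fun i => X i.succ, MvPolynomial.eval_eq', map_sum, map_sum]
      refine Finset.sum_congr rfl fun m _ => ?_
      rw [map_sum, map_mul, hQe m (X 0), Polynomial.eval_eq_sum_range, Finset.sum_mul]
      refine Finset.sum_congr rfl fun j _ => ?_
      rw [MvPolynomial.eval_monomial, Finsupp.prod_fintype _ _ (fun i => pow_zero _),
        Fin.prod_univ_succ, Finsupp.cons_zero, map_prod, mul_assoc]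
      congr 2
      refine Finset.prod_congr rfl fun i _ => ?_
      rw [Finsupp.cons_succ, map_pow, AlgEquiv.commutes]
    · intro n
      rw [hco]
      refine Submodule.sum_mem _ fun m _ => Submodule.sum_mem _ fun j _ => ?_
      split_ifs
      · exact hlift m j
      · exact Submodule.zero_mem _
    · intro n
      rw [hco]
      refine isWt_sum D ρ _ _ _ fun m _ => isWt_sum D ρ _ _ _ fun j _ => ?_
      split_ifs with h
      · subst h
        have h1 := hQw m j
        have h2 : l + ∑ i, ((Finsupp.cons j m : Fin (N + 1) →₀ ℕ) i : ℤ) • D.root (γ i) =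
            l + ∑ i : Fin N, (m i : ℤ) • D.root (γ i.succ) + (j : ℤ) • D.root (γ 0) := by
          rw [Fin.sum_univ_succ, Finsupp.cons_zero]
          simp only [Finsupp.cons_succ]
          abel
        rw [h2]
        exact h1
      · exact isWt_zero D ρ _

end Pool.Agent.MP_b525bf_ag_SG
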