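import Pool.Agent.Lib.MP_b525bf_ag_SG.RG

/-!
# G06: the degree function

Proof. `‖·‖` = the norm of `WithLp.toLp 2 (fun i => (D.root α i : ℝ))` in `EuclideanSpace ℝ ι` (or
write `nrm α = Real.sqrt (∑ i, (D.root α i : ℝ) ^ 2)`). `Λ := 1 + ∑ j, n j * nrm (γ j)`,
`Δ m := ∑ i, (m i : ℝ) * (Λ * D.ht (γ i) - nrm (γ i))`; additive. Let `m ≠ single j (n j)` with
`κ := (n j) • root (γ j) - ∑ i, m i • root (γ i)` in the cone. The height functional
`f x = ∑ i, D.μ i * x i` is `≥ 0` on the cone, and `≥ 1` on its nonzero elements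
(`AddSubmonoid.closure_induction`: every element of the cone is `0` or has `0 < f`). Case `κ ≠ 0`:
`∑ i, m i * ht (γ i) ≤ n j * ht (γ j) - 1`, so `Δ m ≤ Λ (n j * ht (γ j) - 1) < Δ (single j (n j))`,
as `n j * nrm (γ j) < Λ`. Case `κ = 0`: `n j • root (γ j) = ∑ i, m i • root (γ i)`; the heights
agree, so it remains `n j * nrm (γ j) < ∑ i, m i * nrm (γ i)`. Scalar product with `root (γ j) =: β`:
`n j * nrm β ^ 2 = ∑ i, m i * ⟪γ i, β⟫ ≤ ∑ i, m i * nrm (γ i) * nrm β` (Cauchy-Schwarz), `0 < nrm β`;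
equality would imply `⟪γ i, β⟫ = nrm (γ i) * nrm β` for all `i` with `m i ≠ 0`
(`inner_eq_norm_mul_iff_real`: `nrm β • γ i = nrm (γ i) • β`): then `root (γ i)` and `root β` are
proportional over `ℝ` with a positive factor, so over `ℚ` (integral vectors, `β ≠ 0`: compare one
nonzero coordinate), `a • root (γ i) = b • root (γ j)` with `a, b > 0`; `D.red` gives
`γ i = γ j`, `i = j` (injectivity). So `m = single j (m j)` and `m j * β = n j * β`, `m j = n j`:
contradiction.
-/

set_option autoImplicit false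
set_option linter.unusedSectionVars false
set_option linter.unusedVariables false

namespace Pool.Agent.MP_b525bf_ag_SG

variable {k ι R G : Type} [Field k] [Fintype ι] [Group G] (D : RG k ι R G)

/-- The positive cone. -/
def RG.Cone : AddSubmonoid (ι → ℤ) := AddSubmonoid.closure {x | ∃ β, 0 < D.ht β ∧ x = D.root β}

/-- the height functional -/
private def fl (x : ι → ℤ) : ℤ := ∑ i, D.μ i * x i

private theorem fl_root (α : R) : fl D (D.root α) = D.ht α := rfl

private theorem fl_add (x y : ι → ℤ) : fl D (x + y) = fl D x + fl D y := by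
  unfold fl
  rw [← Finset.sum_add_distrib]
  exact Finset.sum_congr rfl fun i _ => by rw [Pi.add_apply, mul_add]

private theorem fl_zero : fl D 0 = 0 := by
  unfold fl
  exact Finset.sum_eq_zero fun i _ => by rw [Pi.zero_apply, mul_zero]

private theorem fl_smul (c : ℤ) (x : ι → ℤ) : fl D (c • x) = c * fl D x := by
  unfold fl
  rw [Finset.mul_sum]
  exact Finset.sum_congr rfl fun i _ => by rw [Pi.smul_apply, smul_eq_mul]; ring

private theorem fl_sum {N : ℕ} (x : Fin N → ι → ℤ) : fl D (∑ i, x i) = ∑ i, fl D (x i) := by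
  let g : (ι → ℤ) →+ ℤ := ⟨⟨fl D, fl_zero D⟩, fl_add D⟩
  exact map_sum g x Finset.univ

private theorem fl_sub (x y : ι → ℤ) : fl D (x - y) = fl D x - fl D y := by
  have h := fl_add D (x - y) y
  rw [sub_add_cancel] at h
  omega

private theorem cone_pos {x : ι → ℤ} (hx : x ∈ D.Cone) : x = 0 ∨ 0 < fl D x := by
  unfold RG.Cone at hx
  induction hx using AddSubmonoid.closure_induction with
  | mem x hx =>
    obtain ⟨β, hβ, rfl⟩ := hx
    exact Or.inr hβ
  | zero => exact Or.inl rfl
  | add x y _ _ hx hy =>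
    rcases hx with rfl | hx
    · rcases hy with rfl | hy
      · exact Or.inl (add_zero 0)
      · right
        rw [zero_add]
        exact hy
    · right
      rw [fl_add]
      rcases hy with rfl | hy
      · rw [fl_zero]
        omega
      · omega

/-- the real vector -/
private noncomputable def vc (x : ι → ℤ) : EuclideanSpace ℝ ι :=
  WithLp.toLp 2 (fun i => (x i : ℝ))

private theorem vc_apply (x : ι → ℤ) (i : ι) : vc x i = (x i : ℝ) := rfl

private theorem vc_add (x y : ι → ℤ) : vc (x + y) = vc x + vc y := by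
  ext i
  simp [vc_apply]

private theorem vc_zero : vc (0 : ι → ℤ) = 0 := by
  ext i
  simp [vc_apply]

private theorem vc_smul (c : ℤ) (x : ι → ℤ) : vc (c • x) = (c : ℝ) • vc x := by
  ext i
  simp [vc_apply]

private theorem vc_sum {N : ℕ} (x : Fin N → ι → ℤ) : vc (∑ i, x i) = ∑ i, vc (x i) := by
  let g : (ι → ℤ) →+ EuclideanSpace ℝ ι := ⟨⟨vc, vc_zero⟩, vc_add⟩
  exact map_sum g x Finset.univ

private theorem root_ne (α : R) : D.root α ≠ 0 := by
  intro h
  have h1 := D.ht_ne α
  rw [← fl_root, h, fl_zero] at h1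
  exact h1 rfl

private theorem vc_ne {x : ι → ℤ} (hx : x ≠ 0) : 0 < ‖vc x‖ := by
  rw [norm_pos_iff]
  intro h
  apply hx
  funext i
  have h1 : vc x i = 0 := by rw [h]; rfl
  rw [vc_apply] at h1
  exact Int.cast_eq_zero.1 h1

/-- proportional integral vectors -/
private theorem prop_of {x y : ι → ℤ} (hx : x ≠ 0) (hy : y ≠ 0)
    (h : ‖vc y‖ • vc x = ‖vc x‖ • vc y) :
    ∃ a b : ℕ, 0 < a ∧ 0 < b ∧ (a : ℤ) • x = (b : ℤ) • y := by
  have h1 : ∀ i, ‖vc y‖ * (x i : ℝ) = ‖vc x‖ * (y i : ℝ) := by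
    intro i
    have h2 := congrArg (fun z : EuclideanSpace ℝ ι => z i) h
    exact h2
  have hpx := vc_ne hx
  have hpy := vc_ne hy
  obtain ⟨i0, hi0⟩ := Function.ne_iff.1 hy
  have hi0 : y i0 ≠ 0 := hi0
  have hxi : x i0 ≠ 0 := by
    intro h2
    have h3 := h1 i0
    rw [h2, Int.cast_zero, mul_zero] at h3
    have h4 : ((y i0 : ℤ) : ℝ) ≠ 0 := by exact_mod_cast hi0
    exact (mul_ne_zero hpx.ne' h4) h3.symm
  refine ⟨(y i0).natAbs, (x i0).natAbs, Int.natAbs_pos.2 hi0, Int.natAbs_pos.2 hxi, ?_⟩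
  funext i
  rw [Pi.smul_apply, Pi.smul_apply, smul_eq_mul, smul_eq_mul, Int.natCast_natAbs,
    Int.natCast_natAbs]
  have h2 : ‖vc y‖ * |(x i0 : ℝ)| = ‖vc x‖ * |(y i0 : ℝ)| := by
    have h3 := congrArg abs (h1 i0)
    rwa [abs_mul, abs_mul, abs_of_pos hpx, abs_of_pos hpy] at h3
  have h3 : ‖vc y‖ * (|(y i0 : ℝ)| * (x i : ℝ)) = ‖vc y‖ * (|(x i0 : ℝ)| * (y i : ℝ)) := by
    calc ‖vc y‖ * (|(y i0 : ℝ)| * (x i : ℝ)) = |(y i0 : ℝ)| * (‖vc y‖ * (x i : ℝ)) := by ring
      _ = |(y i0 : ℝ)| * (‖vc x‖ * (y i : ℝ)) := by rw [h1 i]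
      _ = (‖vc x‖ * |(y i0 : ℝ)|) * (y i : ℝ) := by ring
      _ = (‖vc y‖ * |(x i0 : ℝ)|) * (y i : ℝ) := by rw [h2]
      _ = _ := by ring
  have h4 := mul_left_cancel₀ hpy.ne' h3
  exact_mod_cast h4

theorem exists_degree {N : ℕ} (γ : Fin N → R) (hγ : Function.Injective γ)
    (hpos : ∀ i, 0 < D.ht (γ i)) (n : Fin N → ℕ) (hn : ∀ j, 0 < n j) :
    ∃ Δ : (Fin N →₀ ℕ) → ℝ, (∀ m m', Δ (m + m') = Δ m + Δ m') ∧
      ∀ j, ∀ m : Fin N →₀ ℕ, m ≠ Finsupp.single j (n j) →
        ((n j : ℤ) • D.root (γ j) - ∑ i, (m i : ℤ) • D.root (γ i)) ∈ D.Cone →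
        Δ m < Δ (Finsupp.single j (n j)) := by
  set r : Fin N → ℝ := fun i => ‖vc (D.root (γ i))‖ with hr
  set Λ : ℝ := 1 + ∑ j, (n j : ℝ) * r j with hΛ
  have hr0 : ∀ i, 0 < r i := fun i => vc_ne (root_ne D (γ i))
  have hΛ1 : ∀ j, (n j : ℝ) * r j < Λ := by
    intro j
    have h1 : (n j : ℝ) * r j ≤ ∑ j, (n j : ℝ) * r j :=
      Finset.single_le_sum (f := fun j => (n j : ℝ) * r j)
        (fun i _ => mul_nonneg (Nat.cast_nonneg _) (hr0 i).le) (Finset.mem_univ j)
    rw [hΛ]
    linarith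
  have hΛ0 : 0 < Λ := by
    have h1 : 0 ≤ ∑ j, (n j : ℝ) * r j :=
      Finset.sum_nonneg (fun i _ => mul_nonneg (Nat.cast_nonneg _) (hr0 i).le)
    rw [hΛ]
    linarith
  refine ⟨fun m => ∑ i, (m i : ℝ) * (Λ * (D.ht (γ i) : ℝ) - r i), ?_, ?_⟩
  · intro m m'
    show ∑ i, (((m + m') i : ℕ) : ℝ) * (Λ * (D.ht (γ i) : ℝ) - r i) = _
    rw [← Finset.sum_add_distrib]
    refine Finset.sum_congr rfl fun i _ => ?_
    rw [Finsupp.add_apply]
    push_cast
    ring
  · intro j m hm hcone
    have hs : ∑ i, ((Finsupp.single j (n j) i : ℕ) : ℝ) * (Λ * (D.ht (γ i) : ℝ) - r i) =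
        (n j : ℝ) * (Λ * (D.ht (γ j) : ℝ) - r j) := by
      rw [Finset.sum_eq_single j]
      · rw [Finsupp.single_eq_same]
      · intro i _ hij
        rw [Finsupp.single_eq_of_ne hij, Nat.cast_zero, zero_mul]
      · intro h
        exact absurd (Finset.mem_univ j) h
    show ∑ i, (m i : ℝ) * (Λ * (D.ht (γ i) : ℝ) - r i) <
      ∑ i, ((Finsupp.single j (n j) i : ℕ) : ℝ) * (Λ * (D.ht (γ i) : ℝ) - r i)
    rw [hs]
    have hsum : ∑ i, (m i : ℝ) * (Λ * (D.ht (γ i) : ℝ) - r i) =
        Λ * ∑ i, (m i : ℝ) * (D.ht (γ i) : ℝ) - ∑ i, (m i : ℝ) * r i := by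
      rw [Finset.mul_sum, ← Finset.sum_sub_distrib]
      exact Finset.sum_congr rfl fun i _ => by ring
    rw [hsum]
    have hfl : fl D ((n j : ℤ) • D.root (γ j) - ∑ i, (m i : ℤ) • D.root (γ i)) =
        (n j : ℤ) * D.ht (γ j) - ∑ i, (m i : ℤ) * D.ht (γ i) := by
      rw [fl_sub, fl_smul, fl_sum, fl_root]
      congr 1
      exact Finset.sum_congr rfl fun i _ => by rw [fl_smul, fl_root]
    have hmr : 0 ≤ ∑ i, (m i : ℝ) * r i :=
      Finset.sum_nonneg (fun i _ => mul_nonneg (Nat.cast_nonneg _) (hr0 i).le)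
    rcases cone_pos D hcone with h0 | h0
    · -- equality case
      have h1 : (n j : ℤ) • D.root (γ j) = ∑ i, (m i : ℤ) • D.root (γ i) := sub_eq_zero.1 h0
      rw [h0, fl_zero] at hfl
      have hht : (n j : ℤ) * D.ht (γ j) = ∑ i, (m i : ℤ) * D.ht (γ i) := by omega
      have hhtR : (n j : ℝ) * (D.ht (γ j) : ℝ) = ∑ i, (m i : ℝ) * (D.ht (γ i) : ℝ) := by
        exact_mod_cast hht
      have key : (n j : ℝ) * r j < ∑ i, (m i : ℝ) * r i := by
        have hv : (n j : ℝ) • vc (D.root (γ j)) = ∑ i, (m i : ℝ) • vc (D.root (γ i)) := by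
          have h2 := congrArg vc h1
          rw [vc_smul, vc_sum] at h2
          rw [Int.cast_natCast] at h2
          rw [h2]
          exact Finset.sum_congr rfl fun i _ => by rw [vc_smul, Int.cast_natCast]
        have hin : (n j : ℝ) * (r j * r j) =
            ∑ i, (m i : ℝ) * inner ℝ (vc (D.root (γ i))) (vc (D.root (γ j))) := by
          have h2 : inner ℝ ((n j : ℝ) • vc (D.root (γ j))) (vc (D.root (γ j))) =
              inner ℝ (∑ i, (m i : ℝ) • vc (D.root (γ i))) (vc (D.root (γ j))) := by rw [hv]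
          rw [real_inner_smul_left, real_inner_self_eq_norm_mul_norm, sum_inner] at h2
          rw [hr]
          rw [h2]
          exact Finset.sum_congr rfl fun i _ => by rw [real_inner_smul_left]
        have hterm : ∀ i, 0 ≤ (m i : ℝ) *
            (r i * r j - inner ℝ (vc (D.root (γ i))) (vc (D.root (γ j)))) := by
          intro i
          apply mul_nonneg (Nat.cast_nonneg _)
          have := real_inner_le_norm (vc (D.root (γ i))) (vc (D.root (γ j)))
          rw [hr]
          show 0 ≤ ‖vc (D.root (γ i))‖ * ‖vc (D.root (γ j))‖ - _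
          linarith
        have htot : ∑ i, (m i : ℝ) *
            (r i * r j - inner ℝ (vc (D.root (γ i))) (vc (D.root (γ j)))) =
            r j * (∑ i, (m i : ℝ) * r i - (n j : ℝ) * r j) := by
          have h2 : ∑ i, (m i : ℝ) *
              (r i * r j - inner ℝ (vc (D.root (γ i))) (vc (D.root (γ j)))) =
              r j * ∑ i, (m i : ℝ) * r i -
                ∑ i, (m i : ℝ) * inner ℝ (vc (D.root (γ i))) (vc (D.root (γ j))) := by
            rw [Finset.mul_sum, ← Finset.sum_sub_distrib]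
            exact Finset.sum_congr rfl fun i _ => by ring
          rw [h2, ← hin]
          ring
        by_contra hcon
        push Not at hcon
        have h3 : ∑ i, (m i : ℝ) *
            (r i * r j - inner ℝ (vc (D.root (γ i))) (vc (D.root (γ j)))) ≤ 0 := by
          rw [htot]
          apply mul_nonpos_of_nonneg_of_nonpos (hr0 j).le
          linarith
        have h4 : ∑ i, (m i : ℝ) *
            (r i * r j - inner ℝ (vc (D.root (γ i))) (vc (D.root (γ j)))) = 0 :=
          le_antisymm h3 (Finset.sum_nonneg fun i _ => hterm i)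
        rw [Finset.sum_eq_zero_iff_of_nonneg (fun i _ => hterm i)] at h4
        have h5 : ∀ i, m i ≠ 0 → i = j := by
          intro i hi
          have h6 := h4 i (Finset.mem_univ i)
          have h7 : ((m i : ℕ) : ℝ) ≠ 0 := Nat.cast_ne_zero.2 hi
          have h8 : r i * r j - inner ℝ (vc (D.root (γ i))) (vc (D.root (γ j))) = 0 :=
            (mul_eq_zero.1 h6).resolve_left h7
          have h9 : inner ℝ (vc (D.root (γ i))) (vc (D.root (γ j))) =
              ‖vc (D.root (γ i))‖ * ‖vc (D.root (γ j))‖ := by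
            rw [hr] at h8
            have h8' : ‖vc (D.root (γ i))‖ * ‖vc (D.root (γ j))‖ -
              inner ℝ (vc (D.root (γ i))) (vc (D.root (γ j))) = 0 := h8
            linarith
          rw [inner_eq_norm_mul_iff_real] at h9
          obtain ⟨a, b, ha, hb, hab⟩ := prop_of (root_ne D (γ i)) (root_ne D (γ j)) h9
          exact hγ (D.red (γ i) (γ j) (hpos i) a b ha hb hab)
        apply hm
        have h10 : m j = n j := by
          have h11 : ∑ i, (m i : ℤ) * D.ht (γ i) = (m j : ℤ) * D.ht (γ j) := by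
            apply Finset.sum_eq_single j
            · intro i _ hij
              have : m i = 0 := by
                by_contra h12
                exact hij (h5 i h12)
              rw [this, Nat.cast_zero, zero_mul]
            · intro h
              exact absurd (Finset.mem_univ j) h
          rw [h11] at hht
          have h12 := mul_right_cancel₀ (hpos j).ne' hht
          exact_mod_cast h12.symm
        ext i
        by_cases hij : i = j
        · subst hij
          rw [Finsupp.single_eq_same, h10]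
        · rw [Finsupp.single_eq_of_ne hij]
          by_contra h12
          exact hij (h5 i h12)
      rw [← hhtR]
      linarith
    · -- strict case
      rw [hfl] at h0
      have h1 : ∑ i, (m i : ℤ) * D.ht (γ i) ≤ (n j : ℤ) * D.ht (γ j) - 1 := by omega
      have h2 : ∑ i, (m i : ℝ) * (D.ht (γ i) : ℝ) ≤ (n j : ℝ) * (D.ht (γ j) : ℝ) - 1 := by
        exact_mod_cast h1
      have h3 := mul_le_mul_of_nonneg_left h2 hΛ0.le
      have h4 := hΛ1 j
      linarith

end Pool.Agent.MP_b525bf_ag_SG
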