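import Pool.Agent.Lib.MP_b525bf_ag_SG.RG
import Pool.Agent.Lib.MP_b525bf_ag_R.TWT

/-!
# A05: lemmas on `SL_2(k)`
-/

set_option autoImplicit false

namespace Pool.Agent.MP_b525bf_ag_SG

open Pool.Agent.MP_b525bf_ag_R (up lo dg chi IsRat)
open scoped MatrixGroups

private theorem transvection01 {k : Type} [Field k] (s : k) :
    (Matrix.SpecialLinearGroup.transvection zero_ne_one s : SL(2, k)) = up s := by
  refine Pool.Agent.MP_b525bf_ag_R.ext4 ?_ ?_ ?_ ?_ <;>
    simp [Matrix.SpecialLinearGroup.transvection_coe]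

private theorem transvection10 {k : Type} [Field k] (s : k) :
    (Matrix.SpecialLinearGroup.transvection one_ne_zero s : SL(2, k)) = lo s := by
  refine Pool.Agent.MP_b525bf_ag_R.ext4 ?_ ?_ ?_ ?_ <;>
    simp [Matrix.SpecialLinearGroup.transvection_coe]

private theorem exists_pow_ne {k : Type} [Field k] [Infinite k] (N : ℕ) (hN : 0 < N) :
    ∃ t : k, t ≠ 0 ∧ t ^ N ≠ 1 := by
  by_contra hcon
  push Not at hcon
  have h1 : (Polynomial.X ^ (N + 1) - Polynomial.X : Polynomial k) = 0 := by
    refine Polynomial.funext fun t => ?_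
    rw [Polynomial.eval_sub, Polynomial.eval_pow, Polynomial.eval_X, Polynomial.eval_zero]
    by_cases ht : t = 0
    · subst ht
      simp
    · rw [pow_succ, hcon t ht, one_mul, sub_self]
  have h2 := congrArg (fun P => Polynomial.coeff P (N + 1)) h1
  simp only [Polynomial.coeff_sub, Polynomial.coeff_X_pow, Polynomial.coeff_X,
    Polynomial.coeff_zero] at h2
  rw [if_neg (show ¬ (1 = N + 1) by omega)] at h2
  simp at h2

theorem eq_top_of_up_lo {k : Type} [Field k] (H : Subgroup SL(2, k)) (hu : ∀ s, up s ∈ H)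
    (hl : ∀ s, lo s ∈ H) : H = ⊤ := by
  refine (Subgroup.eq_top_iff' H).2 fun g => ?_
  refine Matrix.SL2.transvection_induction (fun g => g ∈ H) ?_ (fun _ _ => mul_mem) g
  intro i j h c
  fin_cases i
  · obtain rfl : j = 1 := by fin_cases j <;> tauto
    have := hu c
    rw [← transvection01] at this
    exact this
  · obtain rfl : j = 0 := by fin_cases j <;> tauto
    have := hl c
    rw [← transvection10] at this
    exact this

theorem hom_add_eq_zero {k : Type} [Field k] [Infinite k] {A : Type} [AddCommGroup A]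
    (c : SL(2, k) → A) (hc : ∀ g g', c (g * g') = c g + c g') (g : SL(2, k)) : c g = 0 := by
  let f : SL(2, k) →* Multiplicative A :=
    { toFun := fun g => Multiplicative.ofAdd (c g)
      map_one' := by
        have h1 := hc 1 1
        rw [mul_one] at h1
        have h2 : c 1 = 0 := by
          have h3 : c 1 + 0 = c 1 + c 1 := by rw [add_zero, ← h1]
          exact (add_left_cancel h3).symm
        rw [h2, ofAdd_zero]
      map_mul' := by
        intro g h
        rw [hc, ofAdd_add] }
  obtain ⟨t, ht, ht2⟩ := exists_pow_ne (k := k) 2 (by norm_num)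
  have hcomm : commutator (SL(2, k)) = ⊤ := Matrix.SL2.commutator_eq_top ht ht2
  have hker : commutator (SL(2, k)) ≤ f.ker := Abelianization.commutator_subset_ker f
  rw [hcomm, top_le_iff] at hker
  have h1 : f g = 1 := by
    rw [← MonoidHom.mem_ker, hker]
    exact Subgroup.mem_top _
  have h2 := congrArg Multiplicative.toAdd h1
  exact h2

theorem up_fixed {k : Type} [Field k] [Infinite k] {A : Type} [CommRing A] [Algebra k A]
    (ρ : SL(2, k) →* (A ≃ₐ[k] A)) (hρ : IsRat ρ) (w : A) (n : ℤ) (hn0 : 0 ≤ n)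
    (hn : ∀ t : kˣ, ρ (dg t) w = ((t ^ n : kˣ) : k) • w)
    (h : ∀ s t, ρ (dg t) (ρ (up s) w - w) = ρ (up s) w - w) (s : k) : ρ (up s) w = w := by
  classical
  obtain ⟨n', rfl⟩ := Int.eq_ofNat_of_zero_le hn0
  have hwt : ∀ t : kˣ, ρ (dg t) w = ((t : k) ^ n') • w := by
    intro t
    rw [hn]
    simp
  have hρmul : ∀ (g g' : SL(2, k)) (a : A), ρ g (ρ g' a) = ρ (g * g') a := by
    intro g g' a
    rw [map_mul]
    rfl
  obtain ⟨N, d, -, -, hd0, hds⟩ := Pool.Agent.MP_b525bf_ag_R.exists_up ρ hρ w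
  have hdz : ∀ q ∈ Finset.range (N + 1), q ≠ 0 → d q = 0 := by
    intro q hq hq0
    have hqN : q ≤ N := by
      have := Finset.mem_range.mp hq
      omega
    obtain ⟨β, hβ⟩ := Pool.Agent.MP_b525bf_ag_R.exists_coeff_pow k N q hqN
    have hβ' : ∀ i ∈ Finset.range (N + 1),
        (β.sum fun x c => c * (fun (i : ℕ) (x : k) => x ^ i) i x) = if i = q then 1 else 0 :=
      fun i hi => hβ i (by have := Finset.mem_range.mp hi; omega)
    have h1 : (β.sum fun x a => a • ρ (up x) w) = d q :=
      Pool.Agent.MP_b525bf_ag_R.sum_smul_eq_coeff (fun (i : ℕ) (x : k) => x ^ i)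
        (Finset.range (N + 1)) q hq β hβ' (fun x => ρ (up x) w) d hds
    have h3 : d q = β.sum fun x a => a • (ρ (up x) w - w) := by
      rw [← h1]
      simp only [Finsupp.sum, smul_sub, Finset.sum_sub_distrib]
      rw [← Finset.sum_smul]
      have h2 : (β.sum fun x c => c * x ^ 0) = 0 := by
        rw [hβ 0 (Nat.zero_le _), if_neg (Ne.symm hq0)]
      have h4 : (∑ x ∈ β.support, β x) = 0 := by
        rw [← h2]
        simp [Finsupp.sum]
      rw [h4, zero_smul, sub_zero]
    have hfix : ∀ t : kˣ, ρ (dg t) (d q) = d q := by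
      intro t
      rw [h3, Finsupp.sum, map_sum]
      refine Finset.sum_congr rfl fun x _ => ?_
      rw [map_smul, h]
    have hwtq : ∀ t : kˣ, ρ (dg t) (d q) = ((t : k) ^ (n' + 2 * q)) • d q := by
      intro t
      have h5 : ∀ x : k, ρ (dg t) (ρ (up x) w) =
          ∑ i ∈ Finset.range (N + 1), x ^ i • ((((t : k) ^ n') * ((t : k) ^ 2) ^ i) • d i) := by
        intro x
        have h6 : ρ (dg t) (ρ (up x) w) = ρ (up ((t : k) ^ 2 * x)) (ρ (dg t) w) := by
          rw [hρmul, hρmul, Pool.Agent.MP_b525bf_ag_R.dg_mul_up]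
        rw [h6, hwt, map_smul, hds, Finset.smul_sum]
        refine Finset.sum_congr rfl fun i _ => ?_
        rw [smul_smul, smul_smul]
        congr 1
        ring
      have h7 := Pool.Agent.MP_b525bf_ag_R.sum_smul_eq_coeff (fun (i : ℕ) (x : k) => x ^ i)
        (Finset.range (N + 1)) q hq β hβ' (fun x => ρ (dg t) (ρ (up x) w))
        (fun i => (((t : k) ^ n') * ((t : k) ^ 2) ^ i) • d i) h5
      have h8 : (β.sum fun x a => a • ρ (dg t) (ρ (up x) w)) = ρ (dg t) (d q) := by
        rw [← h1]
        simp only [Finsupp.sum, map_sum, map_smul]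
      rw [← h8, h7]
      congr 1
      ring
    obtain ⟨t, ht, htN⟩ := exists_pow_ne (k := k) (n' + 2 * q) (by omega)
    have h9 := hwtq (Units.mk0 t ht)
    rw [hfix, Units.val_mk0] at h9
    have h10 : (t ^ (n' + 2 * q) - 1) • d q = 0 := by
      rw [sub_smul, one_smul, ← h9, sub_self]
    rcases smul_eq_zero.mp h10 with h11 | h11
    · exact absurd (sub_eq_zero.mp h11) htN
    · exact h11
  rw [hds s, Finset.sum_eq_single 0]
  · rw [pow_zero, one_smul, hd0]
  · intro q hq hq0
    rw [hdz q hq hq0, smul_zero]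
  · intro h
    exact absurd (Finset.mem_range.mpr (Nat.succ_pos N)) h

end Pool.Agent.MP_b525bf_ag_SG
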