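import Pool.Agent.Lib.MP_b525bf_ag_SG.DMA
import Pool.Agent.Lib.MP_b525bf_ag_SG.NRM
import Pool.Agent.Lib.MP_b525bf_ag_SG.EXP
import Pool.Agent.Lib.MP_b525bf_ag_SG.POS
import Pool.Agent.Lib.MP_b525bf_ag_SG.SL2

/-!
# G08: the weights of the module generated by an invariant weight vector

Proof. `N := span {ρ u h : u ∈ Um}`. `N` is stable under `Um` and under `T` (`T` normalizes `Um`:
`D.T_conj`, closure induction; `h` is a weight vector). `N` is stable under `x α s` for `α` simple:
let `u = x (neg α) t * n` (`mem_um`), `n ∈ Uma α`. If `1 + s t ≠ 0`: `up s * lo t = lo (t / (1 + s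
t)) * dg (1 + s t) * up (s / (1 + s t))`, so `x α s * u = x (neg α) t' * T _ * x α s' * n`, `x α s' * n
= n'' * x α s'` with `n'' ∈ Uma α` (`neg_conj`), and `x α s'` fixes `h` (`0 < ht α`, `D.sim_pos`): the
result is in `N`. For all `t`: `t ↦ ρ (x α s * x (neg α) t * n) h` is a polynomial in `t` with
coefficients in `A` (`exists_up` for `ρ.comp (D.φ (neg α))`, applied to `ρ n h`, then `ρ (x α s)`
is `k`-linear) with values in `N` for all `t` but one, so its coefficients are in `N`
(`exists_coeff_pow_on` of MP_b525bf_ag_R/SPN.lean with `T = {t | 1 + s t ≠ 0}`), so all its values.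
So `N` is stable under `φ α g` for `α` simple (generated by `up`, `lo`), so under `G` (`D.gen` for the
subgroup of the `g` with `ρ g N ≤ N` and `ρ g⁻¹ N ≤ N`). So `a ∈ N`.
`C := span {b : ∃ w, IsWt w b ∧ l - w ∈ Cone}` contains `h` and is stable under `x β r`, `ht β < 0`
(`expansion_one`: the coefficient `i` has the weight `w + i • root β = w - i • root (neg β)`). So
`N ≤ C`, `a ∈ C`. Finally `a ≠ 0` of weight `l'` in `C`: write `a` as a finite sum of weight vectors
`b_w` of distinct weights `w`, `l - w ∈ Cone` (group the terms); `exists_coeff_chi` of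
MP_b525bf_ag_R/SPN.lean (or the file WTC.lean) projects onto the weight `l'`: if `l'` is not among the
`w`, `a = 0`. So `l' = w` for some `w`.
-/

set_option autoImplicit false

namespace Pool.Agent.MP_b525bf_ag_SG

open Pool.Agent.MP_b525bf_ag_R (up lo dg chi IsRat)
open scoped MatrixGroups

variable {k ι R G : Type} [Field k] [Infinite k] [Fintype ι] [Group G] (D : RG k ι R G) {A : Type}
  [CommRing A] [Algebra k A] (ρ : G →* (A ≃ₐ[k] A))

private theorem dmb_mat {s t : k} (d : kˣ) (hd : (d : k) = 1 + s * t) :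
    up s * lo t = lo (t / d) * dg d * up (s / d) := by
  have hd0 : (d : k) ≠ 0 := d.ne_zero
  refine Pool.Agent.MP_b525bf_ag_R.ext4 ?_ ?_ ?_ ?_ <;>
    simp [Pool.Agent.MP_b525bf_ag_R.mul00, Pool.Agent.MP_b525bf_ag_R.mul01,
      Pool.Agent.MP_b525bf_ag_R.mul10, Pool.Agent.MP_b525bf_ag_R.mul11]
  · exact hd.symm
  all_goals field_simp
  all_goals rw [hd]
  all_goals ring

private theorem dmb_uma_le (α : R) : D.Uma α ≤ D.Um := by
  unfold RG.Uma RG.Um
  refine Subgroup.closure_mono ?_
  rintro _ ⟨β, r, h1, _, rfl⟩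
  exact ⟨β, r, h1, rfl⟩

private theorem dmb_x_mem (β : R) (hβ : D.ht β < 0) (r : k) : D.x β r ∈ D.Um :=
  Subgroup.subset_closure ⟨β, r, hβ, rfl⟩

private theorem dmb_T_conj (t : ι → kˣ) (u : G) (hu : u ∈ D.Um) :
    D.T t * u * (D.T t)⁻¹ ∈ D.Um := by
  unfold RG.Um at hu
  induction hu using Subgroup.closure_induction with
  | mem g hg =>
    obtain ⟨β, r, h1, rfl⟩ := hg
    obtain ⟨r', hr'⟩ := D.T_up t β r
    have h2 : D.T t * D.x β r * (D.T t)⁻¹ = D.x β r' := by
      unfold RG.x
      rw [hr', mul_inv_cancel_right]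
    rw [h2]
    exact dmb_x_mem D β h1 r'
  | one =>
    rw [mul_one, mul_inv_cancel]
    exact D.Um.one_mem
  | mul a b _ _ ha hb =>
    have : D.T t * (a * b) * (D.T t)⁻¹ = (D.T t * a * (D.T t)⁻¹) * (D.T t * b * (D.T t)⁻¹) := by
      group
    rw [this]
    exact D.Um.mul_mem ha hb
  | inv a _ ha =>
    have : D.T t * a⁻¹ * (D.T t)⁻¹ = (D.T t * a * (D.T t)⁻¹)⁻¹ := by
      group
    rw [this]
    exact D.Um.inv_mem ha

private theorem dmb_inf (s : k) : ({t : k | 1 + s * t ≠ 0}).Infinite := by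
  have h1 : ({t : k | 1 + s * t = 0}).Finite := by
    refine Set.Subsingleton.finite ?_
    intro t ht t' ht'
    have ht1 : 1 + s * t = 0 := ht
    have ht2 : 1 + s * t' = 0 := ht'
    have hs : s ≠ 0 := by
      rintro rfl
      rw [zero_mul, add_zero] at ht1
      exact one_ne_zero ht1
    have h3 : s * (t - t') = 0 := by linear_combination ht1 - ht2
    rcases mul_eq_zero.1 h3 with h4 | h4
    · exact absurd h4 hs
    · exact sub_eq_zero.1 h4
  exact h1.infinite_compl

theorem span_eq_um (hρ : D.Rat ρ) (h : A) (hU : D.IsU ρ h) (l : ι → ℤ) (hl : D.IsWt ρ l h) (g : G) :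
    ρ g h ∈ Submodule.span k {b | ∃ u ∈ D.Um, b = ρ u h} := by
  classical
  obtain ⟨N, hN⟩ : ∃ N : Submodule k A, N = Submodule.span k {b | ∃ u ∈ D.Um, b = ρ u h} := ⟨_, rfl⟩
  rw [← hN]
  have hmem : ∀ u ∈ D.Um, ρ u h ∈ N := fun u hu => by
    rw [hN]; exact Submodule.subset_span ⟨u, hu, rfl⟩
  -- stability on generators suffices
  have hst : ∀ g : G, (∀ u ∈ D.Um, ρ g (ρ u h) ∈ N) → ∀ a ∈ N, ρ g a ∈ N := by
    intro g hg a ha
    rw [hN] at ha
    induction ha using Submodule.span_induction with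
    | mem b hb =>
      obtain ⟨u, hu, rfl⟩ := hb
      exact hg u hu
    | zero => rw [map_zero]; exact N.zero_mem
    | add a b _ _ ha hb => rw [map_add]; exact N.add_mem ha hb
    | smul c a _ ha => rw [map_smul]; exact N.smul_mem c ha
  have hUm : ∀ v ∈ D.Um, ∀ a ∈ N, ρ v a ∈ N := by
    intro v hv
    refine hst v (fun u hu => ?_)
    rw [← AlgEquiv.mul_apply, ← map_mul]
    exact hmem _ (D.Um.mul_mem hv hu)
  have hT : ∀ t, ∀ a ∈ N, ρ (D.T t) a ∈ N := by
    intro t
    refine hst _ (fun u hu => ?_)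
    have h1 : D.T t * u = (D.T t * u * (D.T t)⁻¹) * D.T t := by group
    rw [← AlgEquiv.mul_apply, ← map_mul, h1, map_mul, AlgEquiv.mul_apply, hl t, map_smul]
    exact N.smul_mem _ (hmem _ (dmb_T_conj D t u hu))
  have hneg : ∀ α ∈ D.sim, ∀ s, D.x (D.neg α) s ∈ D.Um := by
    intro α hα s
    refine dmb_x_mem D _ ?_ s
    rw [D.ht_neg]
    have : 0 < D.ht α := D.sim_pos α hα
    omega
  have hx : ∀ α ∈ D.sim, ∀ s, ∀ a ∈ N, ρ (D.x α s) a ∈ N := by
    intro α hα s
    refine hst _ (fun u hu => ?_)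
    obtain ⟨t₀, n, hn, rfl⟩ := mem_um D α hα u hu
    obtain ⟨f, hf⟩ : ∃ f : k → A, f = fun t => ρ (D.x α s) (ρ (D.x (D.neg α) t * n) h) := ⟨_, rfl⟩
    have hf1 : ∀ t, 1 + s * t ≠ 0 → f t ∈ N := by
      intro t ht
      obtain ⟨d, hd⟩ : ∃ d : kˣ, (d : k) = 1 + s * t := ⟨Units.mk0 _ ht, rfl⟩
      have h1 : D.x α s * D.x (D.neg α) t
          = D.x (D.neg α) (t / d) * D.T (fun i => d ^ D.co α i) * D.x α (s / d) := by
        rw [← D.lo_eq, ← D.lo_eq, ← D.φ_dg]
        unfold RG.x
        rw [← map_mul, ← map_mul, ← map_mul, dmb_mat d hd]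
      have h2 : D.x α (s / d) * n = (D.x α (s / d) * n * (D.x α (s / d))⁻¹) * D.x α (s / d) := by
        group
      have h3 : D.x α (s / d) * n * (D.x α (s / d))⁻¹ ∈ D.Uma α := by
        have h4 := neg_conj D α hα (up (s / d))⁻¹ n hn
        rw [map_inv, inv_inv] at h4
        exact h4
      have h5 : ρ (D.x α (s / d)) h = h := hU α (D.sim_pos α hα) _
      rw [hf]
      show ρ (D.x α s) (ρ (D.x (D.neg α) t * n) h) ∈ N
      rw [← AlgEquiv.mul_apply, ← map_mul, ← mul_assoc, h1, mul_assoc, h2, ← mul_assoc, map_mul,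
        AlgEquiv.mul_apply, h5, mul_assoc, map_mul, AlgEquiv.mul_apply, map_mul,
        AlgEquiv.mul_apply]
      exact hUm _ (hneg α hα _) _ (hT _ _ (hmem _ (dmb_uma_le D α h3)))
    obtain ⟨M, c, b, -, -, hc⟩ := Pool.Agent.MP_b525bf_ag_R.exists_up (ρ.comp (D.φ (D.neg α)))
      (hρ.sl (D.neg α)) (ρ n h)
    have hf2 : ∀ t, f t = ∑ i ∈ Finset.range (M + 1), t ^ i • ρ (D.x α s) (c i) := by
      intro t
      rw [hf]
      show ρ (D.x α s) (ρ (D.x (D.neg α) t * n) h) = _
      have h1 : ρ (D.x (D.neg α) t * n) h = ∑ i ∈ Finset.range (M + 1), t ^ i • c i := by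
        rw [map_mul, AlgEquiv.mul_apply]
        exact hc t
      rw [h1, map_sum]
      exact Finset.sum_congr rfl fun i _ => by rw [map_smul]
    have hcN : ∀ i ∈ Finset.range (M + 1), ρ (D.x α s) (c i) ∈ N := by
      intro j hj
      obtain ⟨b', hb1, hb2⟩ := Pool.Agent.MP_b525bf_ag_R.exists_coeff_pow_on _ (dmb_inf s) M j
        (by rw [Finset.mem_range] at hj; omega)
      have h1 : ρ (D.x α s) (c j) = b'.sum fun t x => x • f t := by
        have h2 : (b'.sum fun t x => x • f t)
            = ∑ i ∈ Finset.range (M + 1), (b'.sum fun t x => x * t ^ i) • ρ (D.x α s) (c i) := by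
          unfold Finsupp.sum
          simp only [hf2, Finset.smul_sum, Finset.sum_smul, smul_smul]
          rw [Finset.sum_comm]
        rw [h2, Finset.sum_eq_single j]
        · rw [hb2 j (by rw [Finset.mem_range] at hj; omega), if_pos rfl, one_smul]
        · intro i hi hij
          rw [hb2 i (by rw [Finset.mem_range] at hi; omega), if_neg hij, zero_smul]
        · intro h3
          exact absurd hj h3
      rw [h1]
      unfold Finsupp.sum
      refine N.sum_mem fun t ht => N.smul_mem _ (hf1 t (hb1 ht))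
    have h6 : ρ (D.x α s) (ρ (D.x (D.neg α) t₀ * n) h) = f t₀ := by rw [hf]
    rw [h6, hf2]
    exact N.sum_mem fun i hi => N.smul_mem _ (hcN i hi)
  -- the stabilizer
  let H : Subgroup G :=
    { carrier := {g | (∀ a ∈ N, ρ g a ∈ N) ∧ ∀ a ∈ N, ρ g⁻¹ a ∈ N}
      mul_mem' := by
        rintro g g' ⟨h1, h2⟩ ⟨h3, h4⟩
        refine ⟨fun a ha => ?_, fun a ha => ?_⟩
        · rw [map_mul, AlgEquiv.mul_apply]
          exact h1 _ (h3 a ha)
        · rw [mul_inv_rev, map_mul, AlgEquiv.mul_apply]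
          exact h4 _ (h2 a ha)
      one_mem' := by
        refine ⟨fun a ha => ?_, fun a ha => ?_⟩
        · rw [map_one, AlgEquiv.one_apply]; exact ha
        · rw [inv_one, map_one, AlgEquiv.one_apply]; exact ha
      inv_mem' := by
        rintro g ⟨h1, h2⟩
        refine ⟨h2, fun a ha => ?_⟩
        rw [inv_inv]
        exact h1 a ha }
  have htop : H = ⊤ := by
    refine D.gen H (fun t => ⟨hT t, fun a ha => ?_⟩) (fun α hα g => ?_)
    · rw [← map_inv]
      exact hT _ a ha
    · have h1 : H.comap (D.φ α) = ⊤ := by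
        refine eq_top_of_up_lo _ (fun s => ?_) (fun s => ?_)
        · refine ⟨hx α hα s, fun a ha => ?_⟩
          have h2 : (D.φ α (up s))⁻¹ = D.x α (-s) := D.x_inv α s
          rw [h2]
          exact hx α hα _ a ha
        · have h2 : D.φ α (lo s) = D.x (D.neg α) s := D.lo_eq α s
          refine ⟨fun a ha => ?_, fun a ha => ?_⟩
          · rw [h2]
            exact hUm _ (hneg α hα s) a ha
          · rw [h2, D.x_inv]
            exact hUm _ (hneg α hα _) a ha
      have h2 : g ∈ H.comap (D.φ α) := by rw [h1]; exact Subgroup.mem_top g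
      exact h2
  have hg : g ∈ H := by rw [htop]; exact Subgroup.mem_top g
  refine hg.1 h ?_
  have := hmem 1 D.Um.one_mem
  rwa [map_one, AlgEquiv.one_apply] at this

theorem weights_le (hρ : D.Rat ρ) (h : A) (hU : D.IsU ρ h) (l : ι → ℤ) (hl : D.IsWt ρ l h) (a : A)
    (ha : a ∈ Submodule.span k (Set.range fun g => ρ g h)) (ha0 : a ≠ 0) (l' : ι → ℤ)
    (hl' : D.IsWt ρ l' a) : l - l' ∈ D.Cone := by
  classical
  obtain ⟨C, hC⟩ : ∃ C : Submodule k A, C = Submodule.span k {b | ∃ w, D.IsWt ρ w b ∧ l - w ∈ D.Cone} :=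
    ⟨_, rfl⟩
  have hxC : ∀ β, D.ht β < 0 → ∀ r, ∀ a ∈ C, ρ (D.x β r) a ∈ C := by
    intro β hβ r a ha
    rw [hC] at ha
    induction ha using Submodule.span_induction with
    | mem b hb =>
      obtain ⟨w, hw, hlw⟩ := hb
      obtain ⟨P, hP1, -, hP3⟩ := expansion_one D ρ hρ β b w hw
      rw [hP1, Polynomial.eval_eq_sum_range]
      refine C.sum_mem fun i _ => ?_
      have h1 : P.coeff i * algebraMap k A r ^ i = r ^ i • P.coeff i := by
        rw [Algebra.smul_def, map_pow, mul_comm]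
      rw [h1]
      refine C.smul_mem _ ?_
      rw [hC]
      refine Submodule.subset_span ⟨_, hP3 i, ?_⟩
      have h2 : l - (w + (i : ℤ) • D.root β) = (l - w) + i • D.root (D.neg β) := by
        rw [D.root_neg, smul_neg, natCast_zsmul]
        abel
      rw [h2]
      refine D.Cone.add_mem hlw (D.Cone.nsmul_mem ?_ i)
      refine AddSubmonoid.subset_closure ⟨D.neg β, ?_, rfl⟩
      rw [D.ht_neg]
      omega
    | zero => rw [map_zero]; exact C.zero_mem
    | add a b _ _ ha hb => rw [map_add]; exact C.add_mem ha hb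
    | smul c a _ ha => rw [map_smul]; exact C.smul_mem c ha
  have hUC : ∀ u ∈ D.Um, ∀ a ∈ C, ρ u a ∈ C := by
    intro u hu
    have h1 : ∀ u ∈ D.Um, (∀ a ∈ C, ρ u a ∈ C) ∧ ∀ a ∈ C, ρ u⁻¹ a ∈ C := by
      intro u hu
      unfold RG.Um at hu
      induction hu using Subgroup.closure_induction with
      | mem g hg =>
        obtain ⟨β, r, hβ, rfl⟩ := hg
        refine ⟨hxC β hβ r, fun a ha => ?_⟩
        rw [D.x_inv]
        exact hxC β hβ _ a ha
      | one =>
        refine ⟨fun a ha => ?_, fun a ha => ?_⟩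
        · rw [map_one, AlgEquiv.one_apply]; exact ha
        · rw [inv_one, map_one, AlgEquiv.one_apply]; exact ha
      | mul g g' _ _ hg hg' =>
        refine ⟨fun a ha => ?_, fun a ha => ?_⟩
        · rw [map_mul, AlgEquiv.mul_apply]
          exact hg.1 _ (hg'.1 a ha)
        · rw [mul_inv_rev, map_mul, AlgEquiv.mul_apply]
          exact hg'.2 _ (hg.2 a ha)
      | inv g _ hg =>
        refine ⟨hg.2, fun a ha => ?_⟩
        rw [inv_inv]
        exact hg.1 a ha
    exact (h1 u hu).1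
  have hhC : h ∈ C := by
    rw [hC]
    refine Submodule.subset_span ⟨l, hl, ?_⟩
    rw [sub_self]
    exact D.Cone.zero_mem
  have haC : a ∈ C := by
    refine (Submodule.span_le.2 ?_) ha
    rintro _ ⟨g, rfl⟩
    refine (Submodule.span_le.2 ?_) (span_eq_um D ρ hρ h hU l hl g)
    rintro _ ⟨u, hu, rfl⟩
    exact hUC u hu h hhC
  -- projections to the weights
  have hproj : ∀ a ∈ C, ∃ S : Finset (ι → ℤ), (∀ w ∈ S, l - w ∈ D.Cone) ∧
      ∀ b : (ι → kˣ) →₀ k, (∀ w ∈ S, (b.sum fun t c => c * (chi w t : k)) = 0) →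
        (b.sum fun t c => c • ρ (D.T t) a) = 0 := by
    intro a ha
    rw [hC] at ha
    induction ha using Submodule.span_induction with
    | mem b₀ hb =>
      obtain ⟨w, hw, hlw⟩ := hb
      refine ⟨{w}, fun w' hw' => by rw [Finset.mem_singleton.1 hw']; exact hlw, fun b hb => ?_⟩
      have h1 := hb w (Finset.mem_singleton_self w)
      have h2 : (b.sum fun t c => c • ρ (D.T t) b₀) = (b.sum fun t c => c * (chi w t : k)) • b₀ := by
        unfold Finsupp.sum
        rw [Finset.sum_smul]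
        refine Finset.sum_congr rfl fun t _ => ?_
        show b t • ρ (D.T t) b₀ = (b t * (chi w t : k)) • b₀
        rw [hw t, smul_smul]
      rw [h2, h1, zero_smul]
    | zero =>
      refine ⟨∅, by simp, fun b _ => ?_⟩
      unfold Finsupp.sum
      refine Finset.sum_eq_zero fun t _ => ?_
      show b t • ρ (D.T t) 0 = 0
      rw [map_zero, smul_zero]
    | add a a' _ _ ha ha' =>
      obtain ⟨S, hS1, hS2⟩ := ha
      obtain ⟨S', hS1', hS2'⟩ := ha'
      refine ⟨S ∪ S', fun w hw => ?_, fun b hb => ?_⟩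
      · rcases Finset.mem_union.1 hw with h1 | h1
        · exact hS1 w h1
        · exact hS1' w h1
      · have h1 := hS2 b (fun w hw => hb w (Finset.mem_union_left _ hw))
        have h2 := hS2' b (fun w hw => hb w (Finset.mem_union_right _ hw))
        unfold Finsupp.sum at h1 h2 ⊢
        simp only [map_add, smul_add, Finset.sum_add_distrib]
        rw [h1, h2, add_zero]
    | smul c a _ ha =>
      obtain ⟨S, hS1, hS2⟩ := ha
      refine ⟨S, hS1, fun b hb => ?_⟩
      have h1 := hS2 b hb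
      unfold Finsupp.sum at h1 ⊢
      have h2 : ∀ t ∈ b.support, b t • ρ (D.T t) (c • a) = c • (b t • ρ (D.T t) a) := by
        intro t _
        rw [map_smul, smul_comm]
      rw [Finset.sum_congr rfl h2, ← Finset.smul_sum, h1, smul_zero]
  obtain ⟨S, hS1, hS2⟩ := hproj a haC
  by_contra hcon
  obtain ⟨b, hb⟩ := Pool.Agent.MP_b525bf_ag_R.exists_coeff_chi k (insert l' S) l'
  have h1 := hS2 b (fun w hw => by
    rw [hb w (Finset.mem_insert_of_mem hw), if_neg]
    rintro rfl
    exact hcon (hS1 w hw))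
  have h2 : (b.sum fun t c => c • ρ (D.T t) a) = (b.sum fun t c => c * (chi l' t : k)) • a := by
    unfold Finsupp.sum
    rw [Finset.sum_smul]
    refine Finset.sum_congr rfl fun t _ => ?_
    show b t • ρ (D.T t) a = (b t * (chi l' t : k)) • a
    rw [hl' t, smul_smul]
  rw [h2, hb l' (Finset.mem_insert_self _ _), if_pos rfl, one_smul] at h1
  exact ha0 h1

end Pool.Agent.MP_b525bf_ag_SG
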