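import Pool.Agent.Lib.MP_b525bf_ag_SG.MGD
import Pool.Agent.Lib.MP_b525bf_ag_R.SPN

/-!
# G02: the Gauss property for several elements at the same time

Proof. Let `T = Θ` with `Θ ≠ 0` (otherwise trivial), `μ` = the greatest
`v (Θ.coeff m) * ∏ v (y j) ^ m j` over `m ∈ Θ.support` (`Finset.exists_max_image`), `M₀` = the
`m ∈ Θ.support` which attain it, `m₀ ∈ M₀` with `D (∑ j, m₀ j • single j (n j))` greatest.
`Q := MvPolynomial.bind₁ P Θ = ∑ m ∈ support, C (coeff m) * ∏ j, P j ^ m j` (for polynomials over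
`K`). Then `MvPolynomial.eval (algebraMap ∘ X) Q = MvPolynomial.eval (fun j => ψ X (y j)) Θ =
ψ X (MvPolynomial.eval y Θ)` as `ψ X` fixes the coefficients of `Θ`: so all values of `Q` at the
points of `k ^ J` have valuation `v (eval y Θ)`. The coefficients of `Q` are `k`-linear
combinations of these values (`exists_coeff_monomials` or interpolation: `k` is infinite; a
polynomial whose values at the points of `k ^ J` lie in the `k`-subspace
`{z | v z ≤ v (eval y Θ)}` has its coefficients there; see the file SPN.lean of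
MP_b525bf_ag_R or prove by induction on the number of variables / with `MvPolynomial.funext` for a
linear functional that vanishes on the subspace), so of value `≤ v (eval y Θ)`. By `lead_prod`,
`lead_pow`, `lead_C`, the term of `m` is `Lead` with value `v (coeff m) * ∏ v (y j) ^ m j` and
exponent `∑ j, m j • single j (n j)`; at the exponent `e₀` of `m₀` the terms with `m ≠ m₀` have value
`< μ`: if the value of the term is `μ` and the value of its coefficient at `e₀` is `μ`, then
`e₀ = e m` (so `m = m₀`, as `0 < n j`) or `D e₀ < D (e m)`, against the choice of `m₀`. So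
`v (Q.coeff e₀) = μ ≤ v (eval y Θ)`, and `v (Θ.coeff m * ∏ j, y j ^ m j) ≤ μ`.
-/

set_option autoImplicit false

namespace Pool.Agent.MP_b525bf_ag_SG

/-- the monomial functions are linearly independent -/
private theorem mga_indep {k J : Type} [Field k] [Infinite k] [Fintype J] [DecidableEq J]
    (S : Finset (J →₀ ℕ)) :
    LinearIndependent k (fun i : S => fun x : J → k => ∏ j, x j ^ (i : J →₀ ℕ) j) := by
  rw [Fintype.linearIndependent_iff]
  intro g hg
  set F : MvPolynomial J k := ∑ i : S, MvPolynomial.monomial (i : J →₀ ℕ) (g i) with hF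
  have hF0 : F = 0 := by
    apply MvPolynomial.funext
    intro x
    have h1 := congrFun hg x
    rw [Finset.sum_apply, Pi.zero_apply] at h1
    rw [hF, map_sum, map_zero, ← h1]
    refine Finset.sum_congr rfl fun i _ => ?_
    rw [MvPolynomial.eval_monomial, Pi.smul_apply, smul_eq_mul, Finsupp.prod_fintype]
    intro j
    rw [pow_zero]
  intro i
  have h2 := congrArg (fun G : MvPolynomial J k => G.coeff (i : J →₀ ℕ)) hF0
  simp only [hF, MvPolynomial.coeff_sum, MvPolynomial.coeff_monomial, MvPolynomial.coeff_zero] at h2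
  rw [Finset.sum_eq_single i] at h2
  · simpa using h2
  · intro b _ hb
    rw [if_neg]
    intro h3
    exact hb (Subtype.ext h3)
  · intro h3
    exact absurd (Finset.mem_univ i) h3

/-- the coefficients of a polynomial all of whose values at `k`-points have value at most `c` -/
private theorem mga_coeff {k K J : Type} [Field k] [Infinite k] [Field K] [Algebra k K] [Fintype J]
    [DecidableEq J] (V : ValuationSubring K) (hk : ∀ c : k, algebraMap k K c ∈ V)
    (Q : MvPolynomial J K) (c : V.ValueGroup)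
    (hQ : ∀ X : J → k, V.valuation (MvPolynomial.eval (fun i => algebraMap k K (X i)) Q) ≤ c)
    (e : J →₀ ℕ) : V.valuation (Q.coeff e) ≤ c := by
  classical
  by_cases he : e ∈ Q.support
  · obtain ⟨b, hb⟩ := Pool.Agent.MP_b525bf_ag_R.exists_coeff
      (fun (i : J →₀ ℕ) (x : J → k) => ∏ j, x j ^ i j) Q.support (mga_indep Q.support) e he
    have h1 := Pool.Agent.MP_b525bf_ag_R.sum_smul_eq_coeff (M := K)
      (fun (i : J →₀ ℕ) (x : J → k) => ∏ j, x j ^ i j) Q.support e he b hb
      (fun X => MvPolynomial.eval (fun i => algebraMap k K (X i)) Q) (fun i => Q.coeff i) (by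
        intro X
        rw [MvPolynomial.eval_eq']
        refine Finset.sum_congr rfl fun i _ => ?_
        rw [Algebra.smul_def, map_prod, mul_comm]
        congr 1
        refine Finset.prod_congr rfl fun j _ => ?_
        rw [map_pow])
    rw [← h1]
    unfold Finsupp.sum
    refine Valuation.map_sum_le _ fun X _ => ?_
    show V.valuation (b X • MvPolynomial.eval (fun i => algebraMap k K (X i)) Q) ≤ c
    rw [Algebra.smul_def, map_mul]
    calc V.valuation (algebraMap k K (b X)) *
          V.valuation (MvPolynomial.eval (fun i => algebraMap k K (X i)) Q)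
        ≤ 1 * c := mul_le_mul' ((V.valuation_le_one_iff _).2 (hk _)) (hQ X)
      _ = c := one_mul c
  · rw [MvPolynomial.notMem_support_iff.1 he, map_zero]
    exact zero_le

theorem gauss_multi {k K J : Type} [Field k] [Infinite k] [Field K] [Algebra k K] [Fintype J]
    [DecidableEq J] (V : ValuationSubring K) (hk : ∀ c : k, algebraMap k K c ∈ V)
    (S : IntermediateField k K) (y : J → K) (ψ : (J → k) → (K ≃ₐ[k] K))
    (hψ : ∀ X x, V.valuation (ψ X x) = V.valuation x) (hS : ∀ X, ∀ x ∈ S, ψ X x = x)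
    (P : J → MvPolynomial J K)
    (hP : ∀ j X, ψ X (y j) = MvPolynomial.eval (fun i => algebraMap k K (X i)) (P j))
    (n : J → ℕ) (hn : ∀ j, 0 < n j) (D : (J →₀ ℕ) → ℝ) (hD : ∀ m m', D (m + m') = D m + D m')
    (hlead : ∀ j, Lead V.valuation D (P j) (V.valuation (y j)) (Finsupp.single j (n j)))
    (Θ : MvPolynomial J K) (hΘ : ∀ m, Θ.coeff m ∈ S) (m : J →₀ ℕ) :
    V.valuation (Θ.coeff m * ∏ j, y j ^ m j) ≤ V.valuation (MvPolynomial.eval y Θ) := by
  classical
  by_cases hm : m ∈ Θ.support
  swap
  · rw [MvPolynomial.notMem_support_iff.1 hm, zero_mul, map_zero]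
    exact zero_le
  set v := V.valuation with hv
  -- values and exponents of the terms
  set val : (J →₀ ℕ) → V.ValueGroup := fun m => v (Θ.coeff m) * ∏ j, v (y j) ^ m j with hval
  set ex : (J →₀ ℕ) → (J →₀ ℕ) := fun m => ∑ j, m j • Finsupp.single j (n j) with hex
  set tm : (J →₀ ℕ) → MvPolynomial J K :=
    fun m => MvPolynomial.C (Θ.coeff m) * ∏ j, P j ^ m j with htm
  have hlead' : ∀ m ∈ Θ.support, Lead v D (tm m) (val m) (ex m) := by
    intro m hm
    have h1 := lead_prod hD (Finset.univ : Finset J) (fun j => P j ^ m j) (fun j => v (y j) ^ m j)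
      (fun j => m j • Finsupp.single j (n j)) (fun j _ => lead_pow hD (hlead j) (m j))
    have h2 := lead_mul hD (lead_C (v := v) hD (MvPolynomial.mem_support_iff.1 hm)) h1
    rw [zero_add] at h2
    exact h2
  obtain ⟨m₁, hm₁, hmax₁⟩ := Finset.exists_max_image Θ.support val ⟨m, hm⟩
  obtain ⟨m₀, hm₀, hmax₀⟩ := Finset.exists_max_image (Θ.support.filter fun m => val m = val m₁)
    (fun m => D (ex m)) ⟨m₁, Finset.mem_filter.2 ⟨hm₁, rfl⟩⟩
  obtain ⟨hm₀s, hm₀v⟩ := Finset.mem_filter.1 hm₀
  have hexj : ∀ (m : J →₀ ℕ) (j : J), ex m j = m j * n j := by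
    intro m j
    simp only [hex]
    rw [Finsupp.finsetSum_apply, Finset.sum_eq_single j]
    · rw [Finsupp.smul_apply, Finsupp.single_eq_same, smul_eq_mul]
    · intro i _ hij
      rw [Finsupp.smul_apply, Finsupp.single_eq_of_ne (Ne.symm hij), smul_zero]
    · intro h
      exact absurd (Finset.mem_univ j) h
  have hexinj : ∀ m m' : J →₀ ℕ, ex m = ex m' → m = m' := by
    intro m m' h
    ext j
    have h1 := DFunLike.congr_fun h j
    rw [hexj, hexj] at h1
    exact Nat.eq_of_mul_eq_mul_right (hn j) h1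
  set Q : MvPolynomial J K := ∑ m ∈ Θ.support, tm m with hQ
  have heval : ∀ X : J → k,
      MvPolynomial.eval (fun i => algebraMap k K (X i)) Q = ψ X (MvPolynomial.eval y Θ) := by
    intro X
    rw [hQ, map_sum, MvPolynomial.eval_eq', map_sum]
    refine Finset.sum_congr rfl fun m _ => ?_
    simp only [htm]
    rw [map_mul, MvPolynomial.eval_C, map_prod, map_mul, hS X _ (hΘ m), map_prod]
    congr 1
    refine Finset.prod_congr rfl fun j _ => ?_
    rw [map_pow, map_pow, hP j X]
  have hcoef : ∀ e, v (Q.coeff e) ≤ v (MvPolynomial.eval y Θ) := by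
    refine mga_coeff V hk Q _ fun X => ?_
    rw [heval X, hψ]
  have hlt : ∀ m ∈ Θ.support.erase m₀, v ((tm m).coeff (ex m₀)) < val m₀ := by
    intro m hm
    obtain ⟨hne, hms⟩ := Finset.mem_erase.1 hm
    obtain ⟨hc0, hle, heq, hdom⟩ := hlead' m hms
    have h1 : val m ≤ val m₀ := by rw [hm₀v]; exact hmax₁ m hms
    refine lt_of_le_of_ne ((hle _).trans h1) fun h2 => ?_
    have h3 : val m = val m₀ := le_antisymm h1 (h2 ▸ hle _)
    have h4 : m ∈ Θ.support.filter fun m => val m = val m₁ :=
      Finset.mem_filter.2 ⟨hms, h3.trans hm₀v⟩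
    by_cases h5 : ex m₀ = ex m
    · exact hne (hexinj _ _ h5).symm
    · have h6 := hdom (ex m₀) (h2.trans h3.symm) h5
      exact absurd h6 (not_lt.2 (hmax₀ m h4))
  have hc0 : val m₀ ≠ 0 := (hlead' m₀ hm₀s).1
  have hQc : v (Q.coeff (ex m₀)) = val m₀ := by
    rw [hQ, MvPolynomial.coeff_sum, ← Finset.add_sum_erase _ _ hm₀s]
    have h1 : v (∑ m ∈ Θ.support.erase m₀, (tm m).coeff (ex m₀)) < v ((tm m₀).coeff (ex m₀)) := by
      rw [(hlead' m₀ hm₀s).2.2.1]
      exact Valuation.map_sum_lt v hc0 hlt
    rw [Valuation.map_add_eq_of_lt_left v h1, (hlead' m₀ hm₀s).2.2.1]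
  have hfin : v (Θ.coeff m * ∏ j, y j ^ m j) = val m := by
    rw [map_mul, map_prod]
    simp only [hval, map_pow]
  rw [hfin]
  calc val m ≤ val m₀ := by rw [hm₀v]; exact hmax₁ m hm
    _ = v (Q.coeff (ex m₀)) := hQc.symm
    _ ≤ _ := hcoef _

end Pool.Agent.MP_b525bf_ag_SG
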