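import Pool.Agent.Lib.MP_b525bf_ag_R.CHN

/-!
# G03: the Abhyankar inequality from the Gauss property for several elements

Proof. Induction on `N`. For `N + 1`: `y 0` satisfies the Gauss property over `S` (apply `hG` to
`∑ i, C (P.coeff i) * X 0 ^ i`), so `ab_step` (file ABS.lean / CHN.lean of MP_b525bf_ag_R; see how
`ab_chain` in CHN.lean uses it) gives `Ab V (S ⊔ adjoin {y 0}) (ν + 1)`. Then the hypothesis `hG`
for `fun j => y j.succ` over `S ⊔ adjoin {y 0}`: the finitely many coefficients of `Θ'` are
fractions of elements of `S[y 0]` with a common denominator `d ≠ 0`, `d * coeff m = B m` evaluated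
at `y 0`, `B m` a polynomial with coefficients in `S`; `Θ := ∑ m, (B m)(X 0) * X' ^ m` has
`eval y Θ = d * eval y' Θ'`, its coefficients are those of the `B m`, and
`v (d * coeff m * y' ^ m) = v (B m (y 0) * y' ^ m) ≤ max over i of v (b_(m,i) * y 0 ^ i * y' ^ m) ≤
v (eval y Θ) = v (d) * v (eval y' Θ')`; cancel `v d`.
-/

set_option autoImplicit false

namespace Pool.Agent.MP_b525bf_ag_SG

open Pool.Agent.MP_b525bf_ag_ES Pool.Agent.MP_b525bf_ag_E Pool.Agent.LU2
open Pool.Agent.MP_b525bf_ag_R (Ab)

/-- The elements of `S(y)` are fractions of polynomials in `y` over `S`. -/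
private theorem mem_supG {k K : Type} [Field k] [Field K] [Algebra k K]
    (S : IntermediateField k K) (y : K) (x : K)
    (hx : x ∈ S ⊔ IntermediateField.adjoin k {y}) :
    ∃ r s : Polynomial S, Polynomial.aeval y s ≠ 0 ∧
      Polynomial.aeval y s * x = Polynomial.aeval y r := by
  rw [← IntermediateField.restrictScalars_adjoin_eq_sup, IntermediateField.mem_restrictScalars,
    IntermediateField.mem_adjoin_simple_iff] at hx
  obtain ⟨r, s, rfl⟩ := hx
  by_cases hs : Polynomial.aeval y s = 0
  · exact ⟨0, 1, by rw [map_one]; exact one_ne_zero, by rw [hs, div_zero, mul_zero, map_zero]⟩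
  · exact ⟨r, s, hs, mul_div_cancel₀ _ hs⟩

/-- A common denominator of finitely many elements of `S(y)`. -/
private theorem common_denG {k K : Type} [Field k] [Field K] [Algebra k K]
    (S : IntermediateField k K) (y : K) {ι : Type} [DecidableEq ι] (s : Finset ι) (c : ι → K)
    (hc : ∀ m, c m ∈ S ⊔ IntermediateField.adjoin k {y}) :
    ∃ d : K, d ≠ 0 ∧ ∀ m ∈ s, ∃ B : Polynomial S, d * c m = Polynomial.aeval y B := by
  choose r q hq0 hq using fun m => mem_supG S y (c m) (hc m)
  refine ⟨∏ m ∈ s, Polynomial.aeval y (q m), Finset.prod_ne_zero_iff.2 fun m _ => hq0 m, ?_⟩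
  intro m hm
  refine ⟨(∏ m' ∈ s.erase m, q m') * r m, ?_⟩
  rw [map_mul, map_prod, ← hq m, ← mul_assoc, Finset.prod_erase_mul _ _ hm]

/-- The coefficients and the values of the polynomial in one more variable. -/
private theorem exists_polyG {K : Type} [Field K] (N : ℕ)
    (s : Finset (Fin N →₀ ℕ)) (B : (Fin N →₀ ℕ) → Polynomial K) :
    ∃ Θ : MvPolynomial (Fin (N + 1)) K,
      (∀ m ∈ s, ∀ i, Θ.coeff (m.cons i) = (B m).coeff i) ∧
      (∀ m, m.tail ∉ s → Θ.coeff m = 0) ∧
      ∀ y : Fin (N + 1) → K, MvPolynomial.eval y Θ =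
        ∑ m ∈ s, (B m).eval (y 0) * ∏ j, y j.succ ^ m j := by
  classical
  set G : Polynomial (MvPolynomial (Fin N) K) :=
    ∑ m ∈ s, (B m).map (MvPolynomial.C (σ := Fin N)) *
      Polynomial.C (MvPolynomial.monomial m (1 : K)) with hG
  have hcoef : ∀ (m : Fin N →₀ ℕ) (i : ℕ),
      ((MvPolynomial.finSuccEquiv K N).symm G).coeff (m.cons i) =
        if m ∈ s then (B m).coeff i else 0 := by
    intro m i
    rw [← MvPolynomial.finSuccEquiv_coeff_coeff, AlgEquiv.apply_symm_apply, hG,
      Polynomial.finsetSum_coeff, MvPolynomial.coeff_sum]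
    simp only [Polynomial.coeff_mul_C, Polynomial.coeff_map, MvPolynomial.coeff_C_mul,
      MvPolynomial.coeff_monomial, mul_ite, mul_one, mul_zero]
    rw [Finset.sum_ite_eq' s m (fun x => (B x).coeff i)]
  refine ⟨(MvPolynomial.finSuccEquiv K N).symm G, ?_, ?_, ?_⟩
  · intro m hm i
    rw [hcoef, if_pos hm]
  · intro m hm
    rw [← Finsupp.cons_tail m, hcoef, if_neg hm]
  · intro y
    have hy : y = Fin.cons (y 0) (fun j => y j.succ) := by
      funext j
      refine Fin.cases ?_ (fun j => ?_) j
      · rw [Fin.cons_zero]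
      · rw [Fin.cons_succ]
    conv_lhs => rw [hy]
    rw [MvPolynomial.eval_eq_eval_mv_eval', AlgEquiv.apply_symm_apply, hG,
      Polynomial.map_sum, Polynomial.eval_finsetSum]
    refine Finset.sum_congr rfl fun m _ => ?_
    rw [Polynomial.map_mul, Polynomial.map_map, Polynomial.map_C, Polynomial.eval_mul,
      Polynomial.eval_C]
    congr 1
    · have h1 : (MvPolynomial.eval fun j => y j.succ).comp (MvPolynomial.C (σ := Fin N)) =
          RingHom.id K := by
        ext c
        simp
      rw [h1, Polynomial.map_id]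
    · rw [MvPolynomial.eval_monomial, one_mul, Finsupp.prod_fintype _ _ (fun i => pow_zero _)]

theorem ab_multi {k K : Type} [Field k] [Field K] [Algebra k K] (V : ValuationSubring K)
    (hk : ∀ c : k, algebraMap k K c ∈ V) (N : ℕ) : ∀ (S : IntermediateField k K) (ν : ℕ),
    Ab V S ν → ∀ y : Fin N → K, (∀ j, y j ≠ 0) →
    (∀ Θ : MvPolynomial (Fin N) K, (∀ m, Θ.coeff m ∈ S) → ∀ m,
      V.valuation (Θ.coeff m * ∏ j, y j ^ m j) ≤ V.valuation (MvPolynomial.eval y Θ)) →
    ∃ S' : IntermediateField k K, Ab V S' (ν + N) := by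
  classical
  induction N with
  | zero =>
    intro S ν hS y hy hG
    exact ⟨S, hS⟩
  | succ N ih =>
    intro S ν hS y hy hG
    have hprod : ∀ (m : Fin N →₀ ℕ) (i : ℕ),
        ∏ j, y j ^ (m.cons i) j = y 0 ^ i * ∏ j, y (Fin.succ j) ^ m j := by
      intro m i
      rw [Fin.prod_univ_succ, Finsupp.cons_zero]
      simp only [Finsupp.cons_succ]
    -- the one-variable Gauss property
    have hG1 : ∀ P : Polynomial K, (∀ i, P.coeff i ∈ S) → ∀ i,
        V.valuation (P.coeff i * y 0 ^ i) ≤ V.valuation (P.eval (y 0)) := by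
      intro P hP i
      obtain ⟨Θ, h1, h2, h3⟩ := exists_polyG N {0} (fun _ => P)
      have hΘ : ∀ m, Θ.coeff m ∈ S := by
        intro m
        by_cases hm : m.tail ∈ ({0} : Finset (Fin N →₀ ℕ))
        · rw [← Finsupp.cons_tail m, h1 _ hm]
          exact hP _
        · rw [h2 m hm]
          exact zero_mem _
      have h4 := hG Θ hΘ ((0 : Fin N →₀ ℕ).cons i)
      rw [h1 0 (Finset.mem_singleton_self _), hprod, h3, Finset.sum_singleton] at h4
      simpa using h4
    have hS1 := Pool.Agent.MP_b525bf_ag_R.ab_step V hk S ν hS (y 0) (hy 0) hG1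
    obtain ⟨S', hS'⟩ := ih (S ⊔ IntermediateField.adjoin k {y 0}) (ν + 1) hS1
      (fun j => y j.succ) (fun j => hy _) (by
        intro Θ' hΘ' m₀
        by_cases hm₀ : m₀ ∈ Θ'.support
        swap
        · rw [MvPolynomial.notMem_support_iff.1 hm₀, zero_mul, map_zero]
          exact zero_le
        obtain ⟨d, hd0, hd⟩ := common_denG S (y 0) Θ'.support (fun m => Θ'.coeff m) hΘ'
        have hd' : ∀ m, ∃ B : Polynomial S, m ∈ Θ'.support →
            d * Θ'.coeff m = Polynomial.aeval (y 0) B := by
          intro m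
          by_cases hm : m ∈ Θ'.support
          · obtain ⟨B, hB⟩ := hd m hm
            exact ⟨B, fun _ => hB⟩
          · exact ⟨0, fun h => absurd h hm⟩
        choose B hB using hd'
        obtain ⟨Θ, h1, h2, h3⟩ := exists_polyG N Θ'.support
          (fun m => (B m).map (algebraMap S K))
        have hΘ : ∀ m, Θ.coeff m ∈ S := by
          intro m
          by_cases hm : m.tail ∈ Θ'.support
          · rw [← Finsupp.cons_tail m, h1 _ hm, Polynomial.coeff_map]
            exact ((B m.tail).coeff (m 0)).2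
          · rw [h2 m hm]
            exact zero_mem _
        have hev : MvPolynomial.eval y Θ =
            d * MvPolynomial.eval (fun j => y (Fin.succ j)) Θ' := by
          rw [h3, MvPolynomial.eval_eq', Finset.mul_sum]
          refine Finset.sum_congr rfl fun m hm => ?_
          rw [Polynomial.eval_map_algebraMap, ← hB m hm]
          ring
        have hkey : V.valuation (d * (Θ'.coeff m₀ * ∏ j, y (Fin.succ j) ^ m₀ j)) ≤
            V.valuation (MvPolynomial.eval y Θ) := by
          rw [← mul_assoc, hB m₀ hm₀, Polynomial.aeval_eq_sum_range, Finset.sum_mul]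
          refine Valuation.map_sum_le _ fun i _ => ?_
          have h4 := hG Θ hΘ (m₀.cons i)
          rw [h1 _ hm₀, hprod, Polynomial.coeff_map] at h4
          rw [Algebra.smul_def]
          rwa [mul_assoc]
        rw [hev, map_mul, map_mul] at hkey
        have hdv : 0 < V.valuation d := (Valuation.pos_iff _).2 hd0
        exact le_of_mul_le_mul_left hkey hdv)
    refine ⟨S', ?_⟩
    rwa [add_assoc, add_comm 1 N] at hS'

end Pool.Agent.MP_b525bf_ag_SG
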