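import Pool.Agent.Lib.MP_b525bf_ag_SG.RG
import Pool.Agent.Lib.MP_b525bf_ag_R.TWT

/-!
# A12: eigenvectors and invariants of the Borel subgroup, in the field of fractions
-/

set_option autoImplicit false

namespace Pool.Agent.MP_b525bf_ag_SG

open Pool.Agent.MP_b525bf_ag_R (up lo dg chi IsRat)
open Pool.Agent.MP_b525bf_ag_ES
open scoped MatrixGroups

variable {k ι R G : Type} [Field k] [Group G] {A : Type} [CommRing A] [IsDomain A] [Algebra k A]

/-- The action on the field of fractions. -/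
noncomputable def onK (ρ : G →* (A ≃ₐ[k] A)) : G →* (FractionRing A ≃ₐ[k] FractionRing A) :=
  (IsFractionRing.fieldEquivOfAlgEquivHom k (FractionRing A)).comp ρ

theorem onK_algebraMap (ρ : G →* (A ≃ₐ[k] A)) (g : G) (a : A) :
    onK ρ g (algebraMap A (FractionRing A) a) = algebraMap A (FractionRing A) (ρ g a) := by
  unfold onK
  rw [MonoidHom.comp_apply, IsFractionRing.fieldEquivOfAlgEquivHom_apply]
  exact IsFractionRing.fieldEquivOfAlgEquiv_algebraMap _ _ _ _ _

theorem isEigen_iff (ρ : G →* (A ≃ₐ[k] A)) (B : Subgroup G) (f : FractionRing A) :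
    IsEigen (B.map ρ) f ↔ f ≠ 0 ∧ ∀ g ∈ B, ∃ c : k, onK ρ g f = c • f := by
  unfold IsEigen
  constructor
  · rintro ⟨h1, h2⟩
    exact ⟨h1, fun g hg => h2 (ρ g) (Subgroup.mem_map.2 ⟨g, hg, rfl⟩)⟩
  · rintro ⟨h1, h2⟩
    refine ⟨h1, fun x hx => ?_⟩
    obtain ⟨g, hg, rfl⟩ := Subgroup.mem_map.1 hx
    exact h2 g hg

theorem mem_invField_iff (ρ : G →* (A ≃ₐ[k] A)) (B : Subgroup G) (f : FractionRing A) :
    f ∈ invField (B.map ρ) ↔ ∀ g ∈ B, onK ρ g f = f := by
  unfold invField
  rw [IntermediateField.mem_fixedField_iff]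
  constructor
  · intro h g hg
    exact h _ (Subgroup.mem_map.2 ⟨ρ g, Subgroup.mem_map.2 ⟨g, hg, rfl⟩, rfl⟩)
  · intro h x hx
    obtain ⟨y, hy, rfl⟩ := Subgroup.mem_map.1 hx
    obtain ⟨g, hg, rfl⟩ := Subgroup.mem_map.1 hy
    exact h g hg

/-- It suffices to consider the torus and the positive root subgroups. -/
theorem mem_invField_of [Fintype ι] (D : RG k ι R G) (ρ : G →* (A ≃ₐ[k] A)) (f : FractionRing A)
    (ht : ∀ t, onK ρ (D.T t) f = f) (hu : ∀ α, 0 < D.ht α → ∀ s, onK ρ (D.x α s) f = f) :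
    f ∈ invField (D.B.map ρ) := by
  rw [mem_invField_iff]
  let H : Subgroup G :=
    { carrier := {g | onK ρ g f = f}
      mul_mem' := by
        intro a b ha hb
        change onK ρ (a * b) f = f
        rw [map_mul, AlgEquiv.mul_apply]
        change onK ρ a f = f at ha
        change onK ρ b f = f at hb
        rw [hb, ha]
      one_mem' := by
        change onK ρ 1 f = f
        rw [map_one]
        rfl
      inv_mem' := by
        intro a ha
        change onK ρ a f = f at ha
        change onK ρ a⁻¹ f = f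
        have h1 : onK ρ a⁻¹ (onK ρ a f) = f := by
          rw [← AlgEquiv.mul_apply, ← map_mul, inv_mul_cancel, map_one]
          rfl
        rw [ha] at h1
        exact h1 }
  have h : D.B ≤ H := D.B_le H ht hu
  intro g hg
  exact h hg

theorem isEigen_of [Fintype ι] (D : RG k ι R G) (ρ : G →* (A ≃ₐ[k] A)) (l : A) (hl : l ≠ 0)
    (hu : D.IsU ρ l) (e : ι → ℤ) (he : D.IsWt ρ e l) :
    IsEigen (D.B.map ρ) (algebraMap A (FractionRing A) l) := by
  rw [isEigen_iff]
  refine ⟨?_, ?_⟩
  · rw [Ne, IsFractionRing.to_map_eq_zero_iff]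
    exact hl
  have key : ∀ g ∈ D.B, ∃ c : kˣ, ρ g l = (c : k) • l := by
    let H : Subgroup G :=
      { carrier := {g | ∃ c : kˣ, ρ g l = (c : k) • l}
        mul_mem' := by
          rintro a b ⟨c, hc⟩ ⟨d, hd⟩
          refine ⟨d * c, ?_⟩
          rw [map_mul, AlgEquiv.mul_apply, hd, map_smul, hc, smul_smul, Units.val_mul]
        one_mem' := ⟨1, by rw [map_one]; simp⟩
        inv_mem' := by
          rintro a ⟨c, hc⟩
          refine ⟨c⁻¹, ?_⟩
          have h1 : ρ a⁻¹ (ρ a l) = l := by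
            rw [← AlgEquiv.mul_apply, ← map_mul, inv_mul_cancel, map_one]
            rfl
          rw [hc, map_smul] at h1
          have h2 : ((c⁻¹ : kˣ) : k) • ((c : k) • ρ a⁻¹ l) = ((c⁻¹ : kˣ) : k) • l := by rw [h1]
          rw [smul_smul, ← Units.val_mul, inv_mul_cancel, Units.val_one, one_smul] at h2
          exact h2 }
    have h : D.B ≤ H := D.B_le H (fun t => ⟨chi e t, he t⟩)
      (fun α hα s => ⟨1, by rw [hu α hα s]; simp⟩)
    intro g hg
    exact h hg
  intro g hg
  obtain ⟨c, hc⟩ := key g hg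
  refine ⟨c, ?_⟩
  rw [onK_algebraMap, hc, Algebra.smul_def, map_mul, Algebra.smul_def,
    ← IsScalarTower.algebraMap_apply]

/-- The invariance of a valuation ring under the image of the group. -/
theorem valuation_onK (ρ : G →* (A ≃ₐ[k] A)) (V : ValuationSubring (FractionRing A))
    (hV : Pool.Agent.MP_b525bf_ag_E.IsInvariant ρ.range V) (g : G) (f : FractionRing A) :
    V.valuation (onK ρ g f) = V.valuation f := by
  obtain ⟨a, b, hb, rfl⟩ := IsFractionRing.div_surjective (A := A) f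
  rw [map_div₀, map_div₀, map_div₀, onK_algebraMap, onK_algebraMap,
    hV.2 (ρ g) ⟨g, rfl⟩ a, hV.2 (ρ g) ⟨g, rfl⟩ b]

end Pool.Agent.MP_b525bf_ag_SG
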