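import Pool.Agent.Lib.MP_b525bf_ag_SG.POS

/-!
# G05: the reflection of an invariant vector
-/

set_option autoImplicit false

namespace Pool.Agent.MP_b525bf_ag_SG

open Pool.Agent.MP_b525bf_ag_R (up lo dg chi IsRat)
open scoped MatrixGroups

/-- The matrix `(0, -1; 1, 0)`. -/
def wel (k : Type) [Field k] : SL(2, k) := ⟨!![0, -1; 1, 0], by simp [Matrix.det_fin_two_of]⟩

variable {k ι R G : Type} [Field k] [Infinite k] [Fintype ι] [Group G] (D : RG k ι R G) {A : Type}
  [CommRing A] [Algebra k A] (ρ : G →* (A ≃ₐ[k] A))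

omit [Infinite k] in
private theorem wel00 : (wel k).1 0 0 = 0 := rfl

omit [Infinite k] in
private theorem wel01 : (wel k).1 0 1 = -1 := rfl

omit [Infinite k] in
private theorem wel10 : (wel k).1 1 0 = 1 := rfl

omit [Infinite k] in
private theorem wel11 : (wel k).1 1 1 = 0 := rfl

omit [Infinite k] in
private theorem wel_one : wel k = up (-1) * lo 1 * up (-1) := by
  refine Pool.Agent.MP_b525bf_ag_R.ext4 ?_ ?_ ?_ ?_ <;>
    simp [wel00, wel01, wel10, wel11, Pool.Agent.MP_b525bf_ag_R.mul00,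
      Pool.Agent.MP_b525bf_ag_R.mul01,
      Pool.Agent.MP_b525bf_ag_R.mul10, Pool.Agent.MP_b525bf_ag_R.mul11]

omit [Infinite k] in
private theorem wel_two (c : kˣ) :
    up (-(c : k)) * lo ((c⁻¹ : kˣ) : k) * up (-(c : k)) = wel k * dg c⁻¹ := by
  refine Pool.Agent.MP_b525bf_ag_R.ext4 ?_ ?_ ?_ ?_ <;>
    simp [wel00, wel01, wel10, wel11, Pool.Agent.MP_b525bf_ag_R.mul00,
      Pool.Agent.MP_b525bf_ag_R.mul01,
      Pool.Agent.MP_b525bf_ag_R.mul10, Pool.Agent.MP_b525bf_ag_R.mul11]

omit [Infinite k] in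
private theorem wel_chi_smul (m : ℤ) (l : ι → ℤ) (t : ι → kˣ) :
    chi (m • l) t = chi l t ^ m := by
  unfold chi
  rw [← Finset.prod_zpow]
  refine Finset.prod_congr rfl (fun i _ => ?_)
  rw [Pi.smul_apply, smul_eq_mul, mul_comm, zpow_mul]

omit [Infinite k] in
private theorem wel_T (α : R) (t : ι → kˣ) :
    D.T t * D.φ α (wel k) = D.φ α (wel k * dg (chi (D.root α) t)⁻¹) * D.T t := by
  set c : kˣ := chi (D.root α) t with hc
  have h1 : ∀ s : k, D.T t * D.φ α (up s) = D.φ α (up ((c : k) * s)) * D.T t :=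
    fun s => D.T_conj t α s
  have h2 : ∀ s : k, D.T t * D.φ α (lo s) = D.φ α (lo (((c⁻¹ : kˣ) : k) * s)) * D.T t := by
    intro s
    rw [← D.neg_up, D.T_conj, D.root_neg, Pool.Agent.MP_b525bf_ag_R.chi_neg, D.neg_up]
  rw [← wel_two, wel_one, map_mul, map_mul, ← mul_assoc, ← mul_assoc, h1, mul_assoc _ (D.T t), h2,
    ← mul_assoc, mul_assoc _ (D.T t), h1, ← mul_assoc, ← map_mul, ← map_mul]
  simp only [mul_neg, mul_one]

theorem wel_wt (α : R) (h : A) (l : ι → ℤ) (hl : D.IsWt ρ l h) :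
    D.IsWt ρ (l - D.pr l α • D.root α) (ρ (D.φ α (wel k)) h) := by
  intro t
  set c : kˣ := chi (D.root α) t with hc
  have e1 : ρ (D.T t) (ρ (D.φ α (wel k)) h) = ρ (D.T t * D.φ α (wel k)) h := by
    rw [map_mul]; rfl
  rw [e1, wel_T, map_mul, map_mul, map_mul]
  show ρ (D.φ α (wel k)) (ρ (D.φ α (dg c⁻¹)) (ρ (D.T t) h)) = _
  rw [hl t, map_smul, dg_wt D ρ α l h hl, map_smul, map_smul, smul_smul]
  congr 1
  rw [sub_eq_add_neg, ← neg_smul, Pool.Agent.MP_b525bf_ag_R.chi_add, wel_chi_smul, ← hc,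
    inv_zpow, zpow_neg]
  push_cast
  rfl

private theorem wel_ofFn {M : Type} [Monoid M] : ∀ (N : ℕ) (f : Fin N → M) (j : Fin N),
    (∀ i, i ≠ j → f i = 1) → (List.ofFn f).prod = f j := by
  intro N
  induction N with
  | zero => intro f j; exact j.elim0
  | succ N ih =>
    intro f j hf
    rw [List.ofFn_succ, List.prod_cons]
    refine Fin.cases (motive := fun j => (∀ i, i ≠ j → f i = 1) →
      f 0 * (List.ofFn fun i : Fin N => f i.succ).prod = f j) ?_ ?_ j hf
    · intro hf
      have : (List.ofFn fun i : Fin N => f i.succ).prod = 1 := by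
        refine List.prod_eq_one (fun x hx => ?_)
        rw [List.mem_ofFn] at hx
        obtain ⟨i, rfl⟩ := hx
        exact hf _ (Fin.succ_ne_zero i)
      rw [this, mul_one]
    · intro j hf
      rw [hf 0 (Fin.succ_ne_zero j).symm, one_mul]
      exact ih (fun i => f i.succ) j (fun i hi => hf _ (fun e => hi (Fin.succ_injective _ e)))

omit [Infinite k] in
private theorem wel_eval {N : ℕ} (j : Fin N) (P : MvPolynomial (Fin N) A) (S : Finset ℕ)
    (hS : ∀ d ∈ P.support, d j ∈ S) (r : k) :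
    MvPolynomial.eval (fun i => algebraMap k A ((Pi.single j r : Fin N → k) i)) P =
      ∑ e ∈ S, r ^ e • P.coeff (Finsupp.single j e) := by
  classical
  rw [MvPolynomial.eval_eq, ← Finset.sum_fiberwise_of_maps_to (g := fun d => d j) (t := S) hS]
  refine Finset.sum_congr rfl (fun e _ => ?_)
  rw [Finset.sum_eq_single (Finsupp.single j e)]
  · have : ∏ i ∈ (Finsupp.single j e).support,
        algebraMap k A ((Pi.single j r : Fin N → k) i) ^ (Finsupp.single j e) i
        = (Finsupp.single j e).prod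
          (fun i m => algebraMap k A ((Pi.single j r : Fin N → k) i) ^ m) := rfl
    rw [this, Finsupp.prod_single_index (h := fun i m =>
      algebraMap k A ((Pi.single j r : Fin N → k) i) ^ m) (pow_zero _), Pi.single_eq_same,
      Algebra.smul_def, map_pow, mul_comm]
  · intro d hd hne
    rw [Finset.mem_filter] at hd
    have h1 : ∃ i, i ≠ j ∧ d i ≠ 0 := by
      by_contra hcon
      push Not at hcon
      apply hne
      ext i
      by_cases hi : i = j
      · subst hi; simp [hd.2]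
      · rw [hcon i hi, Finsupp.single_apply, if_neg (fun h => hi h.symm)]
    obtain ⟨i, hi, hdi⟩ := h1
    have h2 : ∏ i ∈ d.support, algebraMap k A ((Pi.single j r : Fin N → k) i) ^ d i = 0 := by
      refine Finset.prod_eq_zero (Finsupp.mem_support_iff.2 hdi) ?_
      rw [Pi.single_eq_of_ne hi, map_zero, zero_pow hdi]
    rw [h2, mul_zero]
  · intro hnot
    have : P.coeff (Finsupp.single j e) = 0 := by
      by_contra hne
      apply hnot
      rw [Finset.mem_filter]
      exact ⟨MvPolynomial.mem_support_iff.2 hne, by simp⟩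
    rw [this, zero_mul]

private theorem wel_orbit (hρ : D.Rat ρ) (h : A) (hU : D.IsU ρ h) (l : ι → ℤ)
    (hl : D.IsWt ρ l h) (β : R) (hβ : 0 < D.ht β) (n : ℕ) (hn : D.pr l β = n) :
    ∃ c : ℕ → A, c 0 = h ∧ ∀ g, ρ (D.φ β g) h =
      ∑ i ∈ Finset.range (n + 1), (g.1 0 0 ^ (n - i) * g.1 1 0 ^ i) • c i := by
  by_cases hh : h = 0
  · refine ⟨fun _ => 0, hh.symm, fun g => ?_⟩
    simp [hh]
  · obtain ⟨n', M, c, b, h1, -, -, h3, -, h4⟩ :=
      Pool.Agent.MP_b525bf_ag_R.exists_orbit_formula (ρ.comp (D.φ β)) (hρ.sl β) ⊥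
        (fun g e he => by
          rw [Submodule.mem_bot] at he ⊢
          rw [he, map_zero]) h (fun h1 => hh ((Submodule.mem_bot k).1 h1))
        (D.pr l β) (fun t => dg_wt D ρ β l h hl t)
        (fun s => by
          rw [Submodule.mem_bot, sub_eq_zero]
          exact hU β hβ s)
    have hnn : n' = n := by
      rw [h1] at hn
      exact_mod_cast hn
    subst hnn
    refine ⟨c, h3, fun g => ?_⟩
    have := h4 g
    rw [Submodule.mem_bot, sub_eq_zero] at this
    exact this

theorem pure_coeff (hρ : D.Rat ρ) (h : A) (hU : D.IsU ρ h) (l : ι → ℤ) (hl : D.IsWt ρ l h)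
    {N : ℕ} (γ : Fin N → R) (j : Fin N) (hj : 0 < D.ht (γ j)) (n : ℕ) (hn : D.pr l (γ j) = n)
    (P : MvPolynomial (Fin N) A)
    (hP : ∀ X : Fin N → k, ρ (List.ofFn fun i => D.x (γ i) (X i)).prod (ρ (D.φ (γ j) (wel k)) h) =
      MvPolynomial.eval (fun i => algebraMap k A (X i)) P) :
    P.coeff (Finsupp.single j n) = h := by
  classical
  obtain ⟨c, hc0, hc⟩ := wel_orbit D ρ hρ h hU l hl (γ j) hj n hn
  -- the values
  have hval : ∀ r : k, MvPolynomial.eval
      (fun i => algebraMap k A ((Pi.single j r : Fin N → k) i)) P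
      = ∑ i ∈ Finset.range (n + 1), r ^ (n - i) • c i := by
    intro r
    rw [← hP (Pi.single j r)]
    have h1 : (List.ofFn fun i => D.x (γ i) ((Pi.single j r : Fin N → k) i)).prod
        = D.x (γ j) r := by
      rw [wel_ofFn N _ j]
      · rw [Pi.single_eq_same]
      · intro i hi
        rw [Pi.single_eq_of_ne hi, D.x_zero]
    rw [h1]
    have h2 : ρ (D.x (γ j) r) (ρ (D.φ (γ j) (wel k)) h)
        = ρ (D.φ (γ j) (up r * wel k)) h := by
      rw [map_mul, map_mul]; rfl
    rw [h2, hc]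
    refine Finset.sum_congr rfl (fun i _ => ?_)
    congr 1
    rw [Pool.Agent.MP_b525bf_ag_R.mul00, Pool.Agent.MP_b525bf_ag_R.mul10]
    simp [wel, up]
  set S : Finset ℕ := P.support.image (fun d => d j) ∪ Finset.range (n + 1) with hSdef
  have hS1 : ∀ d ∈ P.support, d j ∈ S := fun d hd =>
    Finset.mem_union_left _ (Finset.mem_image_of_mem _ hd)
  have hS2 : ∀ i ∈ Finset.range (n + 1), i ∈ S := fun i hi => Finset.mem_union_right _ hi
  have hnS : n ∈ S := hS2 n (Finset.mem_range.2 (Nat.lt_succ_self n))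
  obtain ⟨b, hb⟩ := Pool.Agent.MP_b525bf_ag_R.exists_coeff_pow k (S.sup id) n
    (Finset.le_sup (f := id) hnS)
  have hb' : ∀ i ∈ S, (b.sum fun x c => c * x ^ i) = if i = n then 1 else 0 :=
    fun i hi => hb i (Finset.le_sup (f := id) hi)
  have e1 := Pool.Agent.MP_b525bf_ag_R.sum_smul_eq_coeff (fun (i : ℕ) (x : k) => x ^ i) S n hnS b
    hb' (fun r => MvPolynomial.eval
      (fun i => algebraMap k A ((Pi.single j r : Fin N → k) i)) P)
    (fun e => P.coeff (Finsupp.single j e)) (fun r => wel_eval j P S hS1 r)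
  have e2 := Pool.Agent.MP_b525bf_ag_R.sum_smul_eq_coeff (fun (i : ℕ) (x : k) => x ^ i) S n hnS b
    hb' (fun r => MvPolynomial.eval
      (fun i => algebraMap k A ((Pi.single j r : Fin N → k) i)) P)
    (fun e => if e ∈ Finset.range (n + 1) then c (n - e) else 0) (fun r => by
      rw [hval r]
      have h5 : ∑ i ∈ S, r ^ i • (if i ∈ Finset.range (n + 1) then c (n - i) else 0)
          = ∑ i ∈ Finset.range (n + 1), r ^ i • c (n - i) := by
        rw [← Finset.sum_subset (show Finset.range (n + 1) ⊆ S from hS2)]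
        · exact Finset.sum_congr rfl (fun i hi => by rw [if_pos hi])
        · intro i _ hi
          rw [if_neg hi, smul_zero]
      rw [h5, ← Finset.sum_range_reflect]
      refine Finset.sum_congr rfl (fun i hi => ?_)
      rw [Finset.mem_range] at hi
      have h6 : n + 1 - 1 - i = n - i := by omega
      have h7 : n - (n - i) = i := by omega
      rw [h6, h7])
  rw [← e1, e2]
  rw [if_pos (Finset.mem_range.2 (Nat.lt_succ_self n)), Nat.sub_self, hc0]

end Pool.Agent.MP_b525bf_ag_SG
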