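import Pool.Agent.Lib.MP_b525bf_ag_SG.UPB
import Pool.Agent.Lib.MP_b525bf_ag_SG.TRD
import Pool.Agent.Lib.MP_b525bf_ag_SG.OnK
import Pool.Agent.Lib.MP_b525bf_ag_SG.MGA
import Pool.Agent.Lib.MP_b525bf_ag_SG.MGB
import Pool.Agent.Lib.MP_b525bf_ag_SG.WEL
import Pool.Agent.Lib.MP_b525bf_ag_SG.DMB
import Pool.Agent.Lib.MP_b525bf_ag_SA.CHS

/-!
# The defect of the invariant valuations

Proof. To a base field (a subfield of the field of the invariants of the Borel subgroup) the weight
vectors are added (`ab_chain_ord` of MP_b525bf_ag_SA/CHS.lean). For each root `γ j` in `D.Pos ρ` let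
`h j` be an invariant weight vector whose weight pairs to `nn j > 0` with the coroot,
`y j = ρ (D.φ (γ j) (wel k)) (h j)`. The expansion of `ρ (∏ x_(γ i)(X i)) (y j)` is a polynomial in
`X` with coefficients of value at most `v (y j)`; the coefficient at `X j ^ nn j` is `h j`; the others
of this value have smaller degree for the degree of `exists_degree`, by `weights_le`. So the `y j` have
the Gauss property over the field (`gauss_multi`), and `ab_multi` applies.
-/

set_option autoImplicit false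

namespace Pool.Agent.MP_b525bf_ag_SG

open Pool.Agent.MP_b525bf_ag_R (up lo dg chi IsRat)
open scoped MatrixGroups

open Pool.Agent.MP_b525bf_ag_ES Pool.Agent.MP_b525bf_ag_E Pool.Agent.LU2
open Pool.Agent.MP_b525bf_ag_R (Ab)
open Pool.Agent.MP_b525bf_ag_R (ab_bot exists_ab_one exists_dual chi_zpow exists_units_zpow)

/-- The elements invariant under the positive root subgroups. -/
private def uInv {k ι R G : Type} [Field k] [Fintype ι] [Group G] (D : RG k ι R G) {A : Type}
    [CommRing A] [Algebra k A] (ρ : G →* (A ≃ₐ[k] A)) : Subalgebra k A where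
  carrier := {a | D.IsU ρ a}
  mul_mem' := by
    intro a b ha hb α hα s
    rw [map_mul, ha α hα s, hb α hα s]
  add_mem' := by
    intro a b ha hb α hα s
    rw [map_add, ha α hα s, hb α hα s]
  algebraMap_mem' := by
    intro c α hα s
    exact AlgEquiv.commutes _ _

/-- If the complexity is at most `c + 1`, then the defect of an invariant valuation is at most `c`. -/
theorem defLE_of_complexity {k ι R G : Type} [Field k] [Infinite k] [Fintype ι] [Finite R] [Group G]
    (D : RG k ι R G) {A : Type} [CommRing A] [IsDomain A] [Algebra k A] (ρ : G →* (A ≃ₐ[k] A))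
    (hρ : D.Rat ρ) (c : ℕ) (hc : Algebra.trdeg k (invField (D.B.map ρ)) ≤ c + 1)
    (V : ValuationSubring (FractionRing A)) (hV : IsInvariant ρ.range V) : DefLE k V c := by
  classical
  set K := FractionRing A
  set M := invField (D.B.map ρ) with hM
  have hk : ∀ c : k, algebraMap k K c ∈ V := by
    intro c
    rw [IsScalarTower.algebraMap_apply k A K]
    exact hV.1 _
  -- the valuation on `A`
  set v := V.valuation.comap (algebraMap A K) with hv
  have hvk : ∀ c : k, v (algebraMap k A c) ≤ 1 := by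
    intro c
    rw [hv, Valuation.comap_apply, ← IsScalarTower.algebraMap_apply k A K]
    exact (V.valuation_le_one_iff _).2 (hk c)
  have hvinv : ∀ g a, v (ρ g a) = v a := fun g a => hV.2 _ ⟨g, rfl⟩ a
  have hinj := IsFractionRing.injective A K
  -- the weight vectors
  have hC : ∀ a, a ∈ uInv D ρ ↔ D.IsU ρ a := fun a => Iff.rfl
  obtain ⟨n, e, l, hl, he, htr⟩ := exists_weights_trdeg D ρ hρ (uInv D ρ) hC
  have htr' := trdeg_le_pos D ρ hρ (uInv D ρ) hC
  -- the base
  obtain ⟨S₀, ν, hS₀, hS₀M, hν⟩ : ∃ (S₀ : IntermediateField k K) (ν : ℕ), Ab V S₀ ν ∧ S₀ ≤ M ∧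
      Algebra.trdeg k M ≤ ((ν + c : ℕ) : Cardinal) := by
    by_cases halg : Algebra.IsAlgebraic k M
    · exact ⟨⊥, 0, ab_bot V hk, bot_le, by rw [_root_.trdeg_eq_zero]; simp⟩
    · obtain ⟨z, hz, hz'⟩ := exists_ab_one V hk M halg
      refine ⟨_, 1, hz', (IntermediateField.adjoin_simple_le_iff).2 hz, ?_⟩
      rw [Nat.cast_add, Nat.cast_one, add_comm]
      exact hc
  have hM0 : ∀ x ∈ S₀, ∀ g ∈ D.B, onK ρ g x = x := fun x hx =>
    (mem_invField_iff ρ D.B x).1 (hS₀M hx)
  -- the weight vectors are added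
  choose μ hμ hμ' using fun j => exists_dual l hl j
  obtain ⟨S₁, hS₁, hfix₁⟩ := Pool.Agent.MP_b525bf_ag_SA.ab_chain_ord V hk n S₀ ν hS₀
    (fun j => algebraMap A K (e j))
    (fun j => (map_ne_zero_iff _ hinj).2 (he j).1)
    (fun j => Set.range fun t : kˣ => onK ρ (D.T fun i => t ^ μ j i))
    (by
      rintro j _ ⟨t, rfl⟩ x
      exact valuation_onK ρ V hV _ x)
    (by
      rintro j _ ⟨t, rfl⟩ x hx
      exact hM0 x hx _ (D.T_mem _))
    (by
      rintro j j' hj _ ⟨t, rfl⟩
      change onK ρ _ _ = _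
      rw [onK_algebraMap, (he j').2.2, chi_zpow, hμ j j' hj.ne, zpow_zero, Units.val_one, one_smul])
    (by
      intro j n'
      obtain ⟨t, ht⟩ := exists_units_zpow (k := k) (∑ i, μ j i * l j i) (hμ' j) n'
      refine ⟨fun i => onK ρ (D.T fun i' => t i ^ μ j i'), fun i => ⟨t i, rfl⟩, ?_⟩
      intro i i' hii
      rw [onK_algebraMap, onK_algebraMap, (he j).2.2, (he j).2.2, chi_zpow, chi_zpow,
        ← map_sub, ← sub_smul, Algebra.smul_def, map_mul, map_mul,
        ← IsScalarTower.algebraMap_apply k A K]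
      have h1 : ((t i ^ (∑ i, μ j i * l j i) : kˣ) : k) - ((t i' ^ (∑ i, μ j i * l j i) : kˣ) : k)
          ≠ 0 := by
        rw [sub_ne_zero]
        exact fun h => ht i i' hii (Units.ext h)
      have h2 : V.valuation (algebraMap k K (((t i ^ (∑ i, μ j i * l j i) : kˣ) : k) -
          ((t i' ^ (∑ i, μ j i * l j i) : kˣ) : k))) = 1 := by
        refine le_antisymm ((V.valuation_le_one_iff _).2 (hk _)) ?_
        have h3 := (V.valuation_le_one_iff _).2 (hk (((t i ^ (∑ i, μ j i * l j i) : kˣ) : k) -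
          ((t i' ^ (∑ i, μ j i * l j i) : kˣ) : k))⁻¹)
        rw [map_inv₀, map_inv₀] at h3
        rwa [inv_le_one₀ (by
          rw [Valuation.pos_iff]
          exact (map_ne_zero _).2 h1)] at h3
      rw [h2, one_mul])
  -- the roots in `Pos`
  have : Fintype (D.Pos ρ) := Fintype.ofFinite _
  set N := Fintype.card (D.Pos ρ) with hN
  set E := Fintype.equivFin (D.Pos ρ) with hE
  set γ : Fin N → R := fun j => (E.symm j).1 with hγ
  have hγinj : Function.Injective γ := by
    intro j j' h
    exact E.symm.injective (Subtype.ext h)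
  have hγmem : ∀ j, γ j ∈ D.Pos ρ := fun j => (E.symm j).2
  have hpos : ∀ j, 0 < D.ht (γ j) := fun j => (hγmem j).1
  choose w h h0 hU hw hpr using fun j => (hγmem j).2
  obtain ⟨nn, hnn⟩ : ∃ nn : Fin N → ℕ, ∀ j, D.pr (w j) (γ j) = nn j :=
    ⟨fun j => (D.pr (w j) (γ j)).toNat, fun j => (Int.toNat_of_nonneg (hpr j).le).symm⟩
  have hnn0 : ∀ j, 0 < nn j := by
    intro j
    have h1 := hpr j
    rw [hnn j] at h1
    exact_mod_cast h1
  obtain ⟨Δ, hΔ, hΔ'⟩ := exists_degree D γ hγinj hpos nn hnn0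
  -- the expansions
  choose P hP hPs hPw using fun j => expansion D ρ hρ γ (ρ (D.φ (γ j) (wel k)) (h j)) _
    (wel_wt D ρ (γ j) (h j) (w j) (hw j))
  set y : Fin N → K := fun j => algebraMap A K (ρ (D.φ (γ j) (wel k)) (h j)) with hy
  have hvy : ∀ j, V.valuation (y j) = v (h j) := fun j => hvinv _ _
  have hvh : ∀ j, v (h j) ≠ 0 := by
    intro j
    rw [hv, Valuation.comap_apply]
    exact (Valuation.ne_zero_iff _).2 ((map_ne_zero_iff _ hinj).2 (h0 j))
  have hy0 : ∀ j, y j ≠ 0 := by
    intro j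
    rw [← V.valuation.ne_zero_iff, hvy]
    exact hvh j
  have hspan : ∀ j, ∀ a ∈ Submodule.span k (Set.range fun g => ρ g (ρ (D.φ (γ j) (wel k)) (h j))),
      v a ≤ v (h j) ∧ a ∈ Submodule.span k (Set.range fun g => ρ g (h j)) := by
    intro j a ha
    induction ha using Submodule.span_induction with
    | mem x hx =>
      obtain ⟨g, rfl⟩ := hx
      refine ⟨?_, ?_⟩
      · change v (ρ g _) ≤ _
        rw [hvinv, hvinv]
      · change ρ g (ρ _ _) ∈ _
        rw [← AlgEquiv.mul_apply, ← map_mul]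
        exact Submodule.subset_span ⟨_, rfl⟩
    | zero => exact ⟨by rw [map_zero]; exact zero_le, Submodule.zero_mem _⟩
    | add x y _ _ hx hy =>
      exact ⟨(v.map_add _ _).trans (max_le hx.1 hy.1), Submodule.add_mem _ hx.2 hy.2⟩
    | smul c x _ hx =>
      refine ⟨?_, Submodule.smul_mem _ _ hx.2⟩
      rw [Algebra.smul_def, map_mul]
      exact (mul_le_mul' (hvk c) hx.1).trans (one_mul _).le
  have hlead : ∀ j, Lead V.valuation Δ (MvPolynomial.map (algebraMap A K) (P j))
      (V.valuation (y j)) (Finsupp.single j (nn j)) := by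
    intro j
    have hc1 : ∀ m, V.valuation ((MvPolynomial.map (algebraMap A K) (P j)).coeff m) =
        v ((P j).coeff m) := by
      intro m
      rw [MvPolynomial.coeff_map]
      rfl
    refine ⟨?_, fun m => ?_, ?_, fun m hm hne => ?_⟩
    · rw [hvy]
      exact hvh j
    · rw [hc1, hvy]
      exact (hspan j _ (hPs j m)).1
    · rw [hc1, hvy, pure_coeff D ρ hρ (h j) (hU j) (w j) (hw j) γ j (hpos j) (nn j) (hnn j) (P j)
        (hP j)]
    · refine hΔ' j m hne ?_
      rw [hc1, hvy] at hm
      have hc0 : (P j).coeff m ≠ 0 := by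
        intro h1
        rw [h1, map_zero] at hm
        exact hvh j hm.symm
      have h2 := weights_le D ρ hρ (h j) (hU j) (w j) (hw j) _ (hspan j _ (hPs j m)).2 hc0 _
        (hPw j m)
      rw [hnn j] at h2
      have h3 : w j - (w j - (nn j : ℤ) • D.root (γ j) + ∑ i, (m i : ℤ) • D.root (γ i)) =
          (nn j : ℤ) • D.root (γ j) - ∑ i, (m i : ℤ) • D.root (γ i) := by
        abel
      rwa [h3] at h2
  have hB : ∀ X : Fin N → k, (List.ofFn fun i => D.x (γ i) (X i)).prod ∈ D.B := by
    intro X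
    refine D.B.list_prod_mem fun x hx => ?_
    rw [List.mem_ofFn] at hx
    obtain ⟨i, rfl⟩ := hx
    exact D.x_mem _ (hpos i) _
  have hUB : ∀ j, ∀ X : Fin N → k,
      onK ρ (List.ofFn fun i => D.x (γ i) (X i)).prod (algebraMap A K (e j)) =
        algebraMap A K (e j) := by
    intro j X
    rw [onK_algebraMap]
    congr 1
    have h1 : ∀ L : List G, (∀ x ∈ L, ρ x (e j) = e j) → ρ L.prod (e j) = e j := by
      intro L
      induction L with
      | nil =>
        intro _
        rw [List.prod_nil, map_one]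
        rfl
      | cons a L ih =>
        intro hL
        rw [List.prod_cons, map_mul, AlgEquiv.mul_apply, ih fun x hx => hL x (List.mem_cons_of_mem _ hx)]
        exact hL a List.mem_cons_self
    refine h1 _ fun x hx => ?_
    rw [List.mem_ofFn] at hx
    obtain ⟨i, rfl⟩ := hx
    exact (he j).2.1 _ (hpos i) _
  obtain ⟨S₂, hS₂⟩ := ab_multi V hk N S₁ (ν + n) hS₁ y hy0 (fun Θ hΘ m =>
    gauss_multi V hk S₁ y
      (fun X => onK ρ (List.ofFn fun i => D.x (γ i) (X i)).prod)
      (fun X x => valuation_onK ρ V hV _ x)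
      (fun X x hx => hfix₁ _ (fun x hx => hM0 x hx _ (hB X)) (fun j' => hUB j' X) x hx)
      (fun j => MvPolynomial.map (algebraMap A K) (P j))
      (fun j X => by
        change onK ρ _ (algebraMap A K _) = _
        rw [onK_algebraMap, hP j X, MvPolynomial.eval_map]
        have h1 := MvPolynomial.eval₂_comp_left (algebraMap A K) (RingHom.id A)
          (fun i => algebraMap k A (X i)) (P j)
        rw [RingHom.comp_id] at h1
        exact h1)
      nn hnn0 Δ hΔ hlead Θ hΘ m)
  obtain ⟨a, d, had, ⟨x, -, hx⟩, z, -, hz⟩ := hS₂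
  refine ⟨a, d, ?_, ⟨x, hx⟩, z, hz⟩
  rw [Pool.Agent.MP_b525bf_ag_R.trdeg_fractionRing]
  refine htr'.trans ?_
  refine (add_le_add_left htr _).trans ?_
  refine (add_le_add_left (add_le_add_left hν _) _).trans ?_
  have h1 : a + d + c = ν + c + n + (D.Pos ρ).ncard := by
    rw [had, hN, Set.ncard_eq_toFinset_card', Set.toFinset_card]
    ring
  rw [h1]
  push_cast
  exact le_rfl

end Pool.Agent.MP_b525bf_ag_SG
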