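import Mathlib

/-!
# G16: root data: opposite roots, coroots of combinations

Proof. `exists_neg`: `neg α := P.reflectionPerm α α` (`P.indexNeg`, `root_reflectionPerm`,
`coroot_reflectionPerm`, `reflection_apply_self` ...); `neg (neg α) = α` since `P.root` is injective.
`co_comb`: with `Fintype R` (`Fintype.ofFinite`), the lemma `RootPairing.rootForm_self_smul_coroot`
(file Mathlib/LinearAlgebra/RootSystem/Finite/CanonicalBilinear.lean) says `(P.RootForm (P.root i)
(P.root i)) • P.coroot i = 2 • P.Polarization (P.root i)`; `P.Polarization` is linear, and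
`0 < P.RootForm (P.root i) (P.root i)` (`RootPairing.rootForm_self_pos` or `rootForm_root_self`: a sum
of squares with the term `4`). So `c := RootForm β β`, `a := i * RootForm γ γ`, `b := j * RootForm δ δ`
(as natural numbers) satisfy `c • coroot β = a • coroot γ + b • coroot δ`.
-/

set_option autoImplicit false

namespace Pool.Agent.MP_b525bf_ag_SG

variable {n : ℕ} {R : Type} [Finite R] (P : RootDatum R (Fin n → ℤ) (Fin n → ℤ))

omit [Finite R] in
private theorem form_pos [Fintype R] (i : R) : 0 < P.RootForm (P.root i) (P.root i) := by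
  rw [P.rootForm_root_self]
  refine lt_of_lt_of_le ?_ (Finset.single_le_sum (f := fun j => P.pairing i j * P.pairing i j)
    (fun j _ => mul_self_nonneg _) (Finset.mem_univ i))
  simp only [RootPairing.pairing_same]
  norm_num

omit [Finite R] in
theorem exists_neg : ∃ neg : R → R, (∀ α, neg (neg α) = α) ∧ (∀ α, P.root (neg α) = -P.root α) ∧
    ∀ α, P.coroot (neg α) = -P.coroot α := by
  have h1 : ∀ α, P.root (P.reflectionPerm α α) = -P.root α := by
    intro α
    rw [RootPairing.root_reflectionPerm, RootPairing.reflection_apply_self]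
  have h2 : ∀ α, P.coroot (P.reflectionPerm α α) = -P.coroot α := by
    intro α
    rw [RootPairing.coroot_reflectionPerm, RootPairing.coreflection_apply_self]
  refine ⟨fun α => P.reflectionPerm α α, fun α => ?_, h1, h2⟩
  apply P.root.injective
  show P.root (P.reflectionPerm (P.reflectionPerm α α) (P.reflectionPerm α α)) = P.root α
  rw [h1, h1, neg_neg]

theorem co_comb (γ δ β : R) (i j : ℕ) (hi : 0 < i) (hj : 0 < j)
    (h : P.root β = (i : ℤ) • P.root γ + (j : ℤ) • P.root δ) :
    ∃ a b c : ℕ, 0 < a ∧ 0 < b ∧ 0 < c ∧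
      (c : ℤ) • P.coroot β = (a : ℤ) • P.coroot γ + (b : ℤ) • P.coroot δ := by
  have := Fintype.ofFinite R
  obtain ⟨x, hx⟩ := Int.eq_ofNat_of_zero_le (form_pos P γ).le
  obtain ⟨y, hy⟩ := Int.eq_ofNat_of_zero_le (form_pos P δ).le
  obtain ⟨z, hz⟩ := Int.eq_ofNat_of_zero_le (form_pos P β).le
  have hx0 : 0 < x := by
    have h1 := form_pos P γ
    rw [hx] at h1
    exact_mod_cast h1
  have hy0 : 0 < y := by
    have h1 := form_pos P δ
    rw [hy] at h1
    exact_mod_cast h1
  have hz0 : 0 < z := by
    have h1 := form_pos P β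
    rw [hz] at h1
    exact_mod_cast h1
  refine ⟨i * x, j * y, z, Nat.mul_pos hi hx0, Nat.mul_pos hj hy0, hz0, ?_⟩
  have e1 := P.rootForm_self_smul_coroot γ
  have e2 := P.rootForm_self_smul_coroot δ
  have e3 := P.rootForm_self_smul_coroot β
  rw [hx] at e1
  rw [hy] at e2
  rw [hz, h, map_add, map_smul, map_smul, smul_add, smul_comm (2 : ℕ) (i : ℤ),
    smul_comm (2 : ℕ) (j : ℤ), ← e1, ← e2] at e3
  rw [e3]
  push_cast
  rw [mul_smul, mul_smul]

end Pool.Agent.MP_b525bf_ag_SG
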