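import Pool.Agent.Lib.MP_b525bf_ag_R.Basic
import Pool.Agent.Lib.MP_b525bf_ag_ES.StmtDefs

/-!
# Geometrically reductive matrix groups, root group data, rational actions: definitions
-/

set_option autoImplicit false

namespace Pool.Agent.MP_b525bf_ag_SG

open Pool.Agent.MP_b525bf_ag_R (up lo dg)
open scoped MatrixGroups commutatorElement

section Defs

variable {k : Type} [Field k] {N : ℕ}

/-- The coordinates of `g` in `GL_N(k)`: the entries of the matrix, and the inverse of its
determinant. -/
def coord (g : GL (Fin N) k) : Option (Fin N × Fin N) → k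
  | none => ((Matrix.GeneralLinearGroup.det g)⁻¹ : kˣ)
  | some c => (g : Matrix (Fin N) (Fin N) k) c.1 c.2

/-- The action `ρ` of the matrix group `G` on `A` is rational: for each `a` in `A`, `g a` is a
polynomial in the coordinates of `g`, with coefficients in `A`. -/
def IsRational {G : Subgroup (GL (Fin N) k)} {A : Type} [CommRing A] [Algebra k A]
    (ρ : G →* (A ≃ₐ[k] A)) : Prop :=
  ∀ a : A, ∃ P : MvPolynomial (Option (Fin N × Fin N)) A,
    ∀ g : G, ρ g a = MvPolynomial.eval (fun c => algebraMap k A (coord g.1 c)) P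

/-- The matrix group `G` is geometrically reductive (Mumford): for every rational representation `σ`
of `G` and every vector `v ≠ 0` fixed by `G` there is a form `F` of positive degree, invariant under
`G`, with `F(v) ≠ 0`. -/
def GeomReductive (G : Subgroup (GL (Fin N) k)) : Prop :=
  ∀ (n : ℕ) (σ : G →* GL (Fin n) k),
    (∀ i j, ∃ P : MvPolynomial (Option (Fin N × Fin N)) k,
      ∀ g : G, (σ g : Matrix (Fin n) (Fin n) k) i j = MvPolynomial.eval (coord g.1) P) →
    ∀ v : Fin n → k, v ≠ 0 → (∀ g, (σ g : Matrix (Fin n) (Fin n) k).mulVec v = v) →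
    ∃ d : ℕ, 0 < d ∧ ∃ F : MvPolynomial (Fin n) k, F.IsHomogeneous d ∧
      (∀ g x, MvPolynomial.eval ((σ g : Matrix (Fin n) (Fin n) k).mulVec x) F =
        MvPolynomial.eval x F) ∧ MvPolynomial.eval v F ≠ 0

/-- Root group data on the matrix group `G`, for a root datum `P` (the roots are characters, the
coroots cocharacters of the torus `(k^*)^n`) with a base `b`: a torus, for each root `α` a
homomorphism `sl2 α` from `SL_2(k)` to `G`, whose restriction to the diagonal matrices is the coroot,
and with root subgroups `x_α(s) = sl2 α (1, s; 0, 1)`, `x_(-α)(s) = sl2 α (1, 0; s, 1)`, such that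
the torus acts on the root subgroups through the roots, and the commutator of two root subgroups
for roots `α`, `β` with `α + β ≠ 0` is contained in the group generated by the root subgroups of
the roots `i α + j β`, `i, j > 0`; the torus and the `sl2 α` for the simple roots `α` generate `G`. -/
structure RootGroupData {n : ℕ} {R : Type} (P : RootDatum R (Fin n → ℤ) (Fin n → ℤ)) (b : P.Base)
    (G : Subgroup (GL (Fin N) k)) where
  pairing_eq : ∀ x y, P.toLinearMap x y = ∑ i, x i * y i
  torus : (Fin n → kˣ) →* G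
  torus_rational : ∀ c, ∃ (S : Finset (Fin n → ℤ)) (a : (Fin n → ℤ) → k),
    ∀ t, coord (torus t).1 c = ∑ l ∈ S, a l * ∏ i, (t i : k) ^ l i
  sl2 : R → SL(2, k) →* G
  sl2_rational : ∀ α c, ∃ Q : MvPolynomial (Fin 2 × Fin 2) k,
    ∀ g : SL(2, k), coord (sl2 α g).1 c = MvPolynomial.eval (fun e => g.1 e.1 e.2) Q
  sl2_diag : ∀ α (t : kˣ), sl2 α (dg t) = torus (fun i => t ^ P.coroot α i)
  sl2_neg : ∀ α β, P.root β = -P.root α → ∀ s, sl2 β (up s) = sl2 α (lo s)
  torus_conj : ∀ t α s, torus t * sl2 α (up s) * (torus t)⁻¹ =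
    sl2 α (up ((∏ i, (t i : k) ^ P.root α i) * s))
  commutator : ∀ α β, P.root α + P.root β ≠ 0 → ∀ s t, ⁅sl2 α (up s), sl2 β (up t)⁆ ∈
    Subgroup.closure {g | ∃ γ r, ∃ i j : ℕ, 0 < i ∧ 0 < j ∧
      P.root γ = i • P.root α + j • P.root β ∧ g = sl2 γ (up r)}
  generates : ∀ H : Subgroup G, (∀ t, torus t ∈ H) → (∀ α ∈ b.support, ∀ g, sl2 α g ∈ H) → H = ⊤

/-- The Borel subgroup: the group generated by the torus and the root subgroups of the positive
roots. -/
def RootGroupData.borel {n : ℕ} {R : Type} {P : RootDatum R (Fin n → ℤ) (Fin n → ℤ)} {b : P.Base}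
    {G : Subgroup (GL (Fin N) k)} (D : RootGroupData P b G) : Subgroup G :=
  Subgroup.closure (Set.range D.torus ∪ {g | ∃ α s, b.IsPos α ∧ g = D.sl2 α (up s)})

end Defs

end Pool.Agent.MP_b525bf_ag_SG
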