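import Pool.Agent.Lib.MP_b525bf_ag_R.Basic

/-!
# Root group data (arbitrary root systems) and rational actions
-/

set_option autoImplicit false

namespace Pool.Agent.MP_b525bf_ag_SG

open Pool.Agent.MP_b525bf_ag_R (up lo dg chi IsRat)
open scoped MatrixGroups

/-- Root group data: a torus `T`, for each root `α` a homomorphism `φ α` of `SL_2(k)` with root
subgroup `φ α (up s)`, the opposite root `neg α`, the character `root α`, the coroot `co α`, a
height function given by `μ`, simple roots `sim`, and the commutator relations. -/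
structure RG (k ι R G : Type) [Field k] [Fintype ι] [Group G] where
  T : (ι → kˣ) →* G
  φ : R → (SL(2, k) →* G)
  neg : R → R
  root : R → ι → ℤ
  co : R → ι → ℤ
  μ : ι → ℤ
  sim : Set R
  neg_neg : ∀ α, neg (neg α) = α
  neg_up : ∀ α s, φ (neg α) (up s) = φ α (lo s)
  root_neg : ∀ α, root (neg α) = -root α
  co_neg : ∀ α, co (neg α) = -co α
  μ_ne : ∀ α, ∑ i, μ i * root α i ≠ 0
  red : ∀ α β, 0 < ∑ i, μ i * root α i → ∀ a b : ℕ, 0 < a → 0 < b →
    (a : ℤ) • root α = (b : ℤ) • root β → α = β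
  co_btw : ∀ γ δ β, ∀ i j : ℕ, 0 < i → 0 < j →
    root β = (i : ℤ) • root γ + (j : ℤ) • root δ →
    ∃ a b c : ℕ, 0 < a ∧ 0 < b ∧ 0 < c ∧ (c : ℤ) • co β = (a : ℤ) • co γ + (b : ℤ) • co δ
  φ_dg : ∀ α t, φ α (dg t) = T (fun i => t ^ co α i)
  T_conj : ∀ t α s, T t * φ α (up s) = φ α (up ((chi (root α) t : k) * s)) * T t
  comm : ∀ γ δ s t, γ ≠ neg δ →
    ∃ h ∈ Subgroup.closure {g | ∃ β r, ∃ i j : ℕ, 0 < i ∧ 0 < j ∧
      root β = (i : ℤ) • root γ + (j : ℤ) • root δ ∧ g = φ β (up r)},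
      φ δ (up (-t)) * φ γ (up s) * φ δ (up t) = φ γ (up s) * h
  sim_pos : ∀ α ∈ sim, 0 < ∑ i, μ i * root α i
  sim_sub : ∀ α ∈ sim, ∀ γ, 0 < ∑ i, μ i * root γ i → γ ≠ α → ∀ β, ∀ i j : ℕ, 0 < i → 0 < j →
    root β = (i : ℤ) • root γ - (j : ℤ) • root α → 0 < ∑ i, μ i * root β i
  gen : ∀ H : Subgroup G, (∀ t, T t ∈ H) → (∀ α ∈ sim, ∀ g, φ α g ∈ H) → H = ⊤

namespace RG

variable {k ι R G : Type} [Field k] [Fintype ι] [Group G] (D : RG k ι R G)

/-- The root subgroups. -/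
def x (α : R) (s : k) : G := D.φ α (up s)

/-- The height. -/
def ht (α : R) : ℤ := ∑ i, D.μ i * D.root α i

/-- The pairing of a weight with a coroot. -/
def pr (l : ι → ℤ) (α : R) : ℤ := ∑ i, D.co α i * l i

/-- `β` is a positive combination of `γ` and `δ`. -/
def Btw (γ δ β : R) : Prop :=
  ∃ i j : ℕ, 0 < i ∧ 0 < j ∧ D.root β = (i : ℤ) • D.root γ + (j : ℤ) • D.root δ

/-- The Borel subgroup. -/
def B : Subgroup G :=
  Subgroup.closure ({g | ∃ t, g = D.T t} ∪ {g | ∃ α s, 0 < D.ht α ∧ g = D.x α s})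

variable {A : Type} [CommRing A] [Algebra k A]

/-- Rational actions. -/
structure Rat (ρ : G →* (A ≃ₐ[k] A)) : Prop where
  sl : ∀ α, IsRat (ρ.comp (D.φ α))
  tor : ∀ a : A, ∃ (S : Finset (ι → ℤ)) (c : (ι → ℤ) → A),
    ∀ t, ρ (D.T t) a = ∑ l ∈ S, (chi l t : k) • c l

/-- `a` is a weight vector of weight `l`. -/
def IsWt (ρ : G →* (A ≃ₐ[k] A)) (l : ι → ℤ) (a : A) : Prop :=
  ∀ t, ρ (D.T t) a = (chi l t : k) • a

/-- `a` is invariant under the positive root subgroups. -/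
def IsU (ρ : G →* (A ≃ₐ[k] A)) (a : A) : Prop :=
  ∀ α, 0 < D.ht α → ∀ s, ρ (D.x α s) a = a

/-- The elements which are fixed modulo `E` by the root subgroups of the roots in `Γ`. -/
def Fx (ρ : G →* (A ≃ₐ[k] A)) (E : Submodule k A) (Γ : Set R) : Submodule k A where
  carrier := {a | ∀ γ ∈ Γ, ∀ s, ρ (D.x γ s) a - a ∈ E}
  zero_mem' := by
    intro γ _ s
    rw [map_zero, sub_zero]
    exact E.zero_mem
  add_mem' := by
    intro a b ha hb γ hγ s
    rw [map_add, add_sub_add_comm]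
    exact E.add_mem (ha γ hγ s) (hb γ hγ s)
  smul_mem' := by
    intro c a ha γ hγ s
    rw [map_smul, ← smul_sub]
    exact E.smul_mem c (ha γ hγ s)

/-- The positive roots which pair positively with the weight of some invariant weight vector. -/
def Pos (ρ : G →* (A ≃ₐ[k] A)) : Set R :=
  {α | 0 < D.ht α ∧ ∃ l h, h ≠ 0 ∧ D.IsU ρ h ∧ D.IsWt ρ l h ∧ 0 < D.pr l α}

/-- The property proved with the geometric reductivity. -/
def EV (ρ : G →* (A ≃ₐ[k] A)) : Prop :=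
  ∀ (Γ : Type) [LinearOrderedCommGroupWithZero Γ] (v : Valuation A Γ),
    (∀ c : k, v (algebraMap k A c) ≤ 1) → (∀ g a, v (ρ g a) = v a) → ∀ a : A, v a ≠ 0 →
    ∃ (N : ℕ) (l : A), l ∈ Submodule.span k (Set.range fun g => ρ g a) ^ (N + 1) ∧
      v l = v a ^ (N + 1) ∧ D.IsU ρ l ∧ ∃ e, D.IsWt ρ e l

theorem mem_Fx (ρ : G →* (A ≃ₐ[k] A)) (E : Submodule k A) (Γ : Set R) (a : A) :
    a ∈ D.Fx ρ E Γ ↔ ∀ γ ∈ Γ, ∀ s, ρ (D.x γ s) a - a ∈ E := Iff.rfl

theorem ht_ne (α : R) : D.ht α ≠ 0 := D.μ_ne α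

theorem ht_neg (α : R) : D.ht (D.neg α) = -D.ht α := by
  simp [ht, D.root_neg]

theorem ht_btw {γ δ β : R} {i j : ℕ}
    (h : D.root β = (i : ℤ) • D.root γ + (j : ℤ) • D.root δ) :
    D.ht β = i * D.ht γ + j * D.ht δ := by
  unfold ht
  rw [h, Finset.mul_sum, Finset.mul_sum, ← Finset.sum_add_distrib]
  refine Finset.sum_congr rfl fun _ _ => ?_
  simp only [Pi.add_apply, Pi.smul_apply, smul_eq_mul]
  ring

theorem pr_neg (l : ι → ℤ) (α : R) : D.pr l (D.neg α) = -D.pr l α := by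
  simp [pr, D.co_neg]

theorem pr_btw (l : ι → ℤ) {γ δ β : R} (h : D.Btw γ δ β) :
    ∃ a b c : ℕ, 0 < a ∧ 0 < b ∧ 0 < c ∧ (c : ℤ) * D.pr l β = a * D.pr l γ + b * D.pr l δ := by
  obtain ⟨i, j, hi, hj, hr⟩ := h
  obtain ⟨a, b, c, ha, hb, hc, h1⟩ := D.co_btw γ δ β i j hi hj hr
  refine ⟨a, b, c, ha, hb, hc, ?_⟩
  unfold pr
  rw [Finset.mul_sum, Finset.mul_sum, Finset.mul_sum, ← Finset.sum_add_distrib]
  refine Finset.sum_congr rfl fun e _ => ?_
  have h2 := congrFun h1 e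
  simp only [Pi.add_apply, Pi.smul_apply, smul_eq_mul] at h2
  rw [← mul_assoc, h2]
  ring

theorem x_zero (α : R) : D.x α 0 = 1 := by
  rw [x, Pool.Agent.MP_b525bf_ag_R.up_zero, map_one]

theorem x_add (α : R) (s s' : k) : D.x α (s + s') = D.x α s * D.x α s' := by
  rw [x, Pool.Agent.MP_b525bf_ag_R.up_add, map_mul]
  rfl

theorem x_inv (α : R) (s : k) : (D.x α s)⁻¹ = D.x α (-s) := by
  rw [inv_eq_iff_mul_eq_one, ← x_add, add_neg_cancel, x_zero]

theorem lo_eq (α : R) (s : k) : D.φ α (lo s) = D.x (D.neg α) s := (D.neg_up α s).symm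

theorem T_up (t : ι → kˣ) (α : R) (s : k) : ∃ s' : k, D.T t * D.φ α (up s) =
    D.φ α (up s') * D.T t := ⟨_, D.T_conj t α s⟩

theorem comm' (γ δ : R) (s t : k) (hne : γ ≠ D.neg δ) :
    ∃ h ∈ Subgroup.closure {g | ∃ β r, D.Btw γ δ β ∧ g = D.x β r},
      (D.x δ t)⁻¹ * D.x γ s * D.x δ t = D.x γ s * h := by
  obtain ⟨h, hh, h1⟩ := D.comm γ δ s t hne
  refine ⟨h, ?_, ?_⟩
  · have h2 : {g | ∃ β r, ∃ i j : ℕ, 0 < i ∧ 0 < j ∧
        D.root β = (i : ℤ) • D.root γ + (j : ℤ) • D.root δ ∧ g = D.φ β (up r)} =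
        {g | ∃ β r, D.Btw γ δ β ∧ g = D.x β r} := by
      ext g
      constructor
      · rintro ⟨β, r, i, j, hi, hj, hr, rfl⟩
        exact ⟨β, r, ⟨i, j, hi, hj, hr⟩, rfl⟩
      · rintro ⟨β, r, ⟨i, j, hi, hj, hr⟩, rfl⟩
        exact ⟨β, r, i, j, hi, hj, hr, rfl⟩
    rwa [← h2]
  · rw [x_inv]
    exact h1

theorem T_mem (t : ι → kˣ) : D.T t ∈ D.B := Subgroup.subset_closure (Or.inl ⟨t, rfl⟩)

theorem x_mem (α : R) (hα : 0 < D.ht α) (s : k) : D.x α s ∈ D.B :=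
  Subgroup.subset_closure (Or.inr ⟨α, s, hα, rfl⟩)

theorem B_le (H : Subgroup G) (hT : ∀ t, D.T t ∈ H) (hx : ∀ α, 0 < D.ht α → ∀ s, D.x α s ∈ H) :
    D.B ≤ H := by
  rw [B, Subgroup.closure_le]
  rintro _ (⟨t, rfl⟩ | ⟨α, s, hα, rfl⟩)
  · exact hT t
  · exact hx α hα s

private theorem transvection01 (s : k) :
    (Matrix.SpecialLinearGroup.transvection zero_ne_one s : SL(2, k)) = up s := by
  refine Pool.Agent.MP_b525bf_ag_R.ext4 ?_ ?_ ?_ ?_ <;>
    simp [Matrix.SpecialLinearGroup.transvection_coe]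

private theorem transvection10 (s : k) :
    (Matrix.SpecialLinearGroup.transvection one_ne_zero s : SL(2, k)) = lo s := by
  refine Pool.Agent.MP_b525bf_ag_R.ext4 ?_ ?_ ?_ ?_ <;>
    simp [Matrix.SpecialLinearGroup.transvection_coe]

/-- Generation by the torus and the root subgroups. -/
theorem gen' (H : Subgroup G) (hT : ∀ t, D.T t ∈ H) (hx : ∀ α s, D.φ α (up s) ∈ H) : H = ⊤ := by
  refine D.gen H hT fun α _ g => ?_
  refine Matrix.SL2.transvection_induction (fun g => D.φ α g ∈ H) ?_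
    (fun a b ha hb => by rw [map_mul]; exact H.mul_mem ha hb) g
  intro i j h c
  fin_cases i <;> fin_cases j
  · exact absurd rfl h
  · have h1 := hx α c
    rw [← transvection01] at h1
    exact h1
  · have h1 := hx (D.neg α) c
    rw [D.neg_up, ← transvection10] at h1
    exact h1
  · exact absurd rfl h

end RG

end Pool.Agent.MP_b525bf_ag_SG
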