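import Pool.Agent.Lib.MP_b525bf_ag_SG.CNA
import Pool.Agent.Lib.MP_b525bf_ag_SG.CNB
import Pool.Agent.Lib.MP_b525bf_ag_SG.Defs
import Pool.Agent.Lib.MP_b525bf_ag_SG.RG

/-!
# G17: from the root group data of the statement to those of the proof

`exists_rg`: a datum `RG` with the same torus, the same homomorphisms of `SL_2(k)` and the same
Borel subgroup. `rat_of`: a rational action in the sense of the coordinates is rational in the sense
of `RG.Rat`; for the torus the values of a polynomial at Laurent polynomials are computed in the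
monoid algebra of the weights.
-/

set_option autoImplicit false

namespace Pool.Agent.MP_b525bf_ag_SG

open Pool.Agent.MP_b525bf_ag_R (up lo dg chi IsRat)
open scoped MatrixGroups commutatorElement

variable {k : Type} [Field k] {N n : ℕ} {R : Type} {P : RootDatum R (Fin n → ℤ) (Fin n → ℤ)}
  {b : P.Base} {G : Subgroup (GL (Fin N) k)}

private theorem chi_coe (l : Fin n → ℤ) (t : Fin n → kˣ) :
    ((chi l t : kˣ) : k) = ∏ i, (t i : k) ^ l i := by
  simp [chi]

private theorem comm_aux {H : Type*} [Group H] (a a' c c' : H) (ha : a' = a⁻¹) (hc : c' = c⁻¹) :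
    c' * a * c = a * ⁅a', c'⁆ := by
  rw [commutatorElement_def, ha, hc, inv_inv, inv_inv]
  group

private theorem up_neg' (s : k) : up (-s) = (up s)⁻¹ := by
  rw [eq_inv_iff_mul_eq_one, ← Pool.Agent.MP_b525bf_ag_R.up_add, neg_add_cancel,
    Pool.Agent.MP_b525bf_ag_R.up_zero]

theorem exists_rg [Finite R] [P.IsReduced] (D : RootGroupData P b G) :
    ∃ D' : RG k (Fin n) R G, D'.T = D.torus ∧ D'.φ = D.sl2 ∧ D'.B = D.borel := by
  obtain ⟨neg, hn1, hn2, hn3⟩ := exists_neg P
  obtain ⟨μ, hμ1, hμ2⟩ := exists_mu P b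
  refine ⟨{ T := D.torus, φ := D.sl2, neg := neg, root := P.root, co := P.coroot, μ := μ,
            sim := {α | α ∈ b.support}, neg_neg := hn1,
            neg_up := fun α s => D.sl2_neg α (neg α) (hn2 α) s,
            root_neg := hn2, co_neg := hn3, μ_ne := hμ1,
            red := fun α β _ a b' ha hb h => red_of P α β a b' ha hb h,
            co_btw := fun γ δ β i j hi hj h => co_comb P γ δ β i j hi hj h,
            φ_dg := D.sl2_diag, T_conj := ?_, comm := ?_, sim_pos := ?_,
            sim_sub := ?_, gen := fun H h1 h2 => D.generates H h1 h2 }, rfl, rfl, ?_⟩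
  · intro t α s
    rw [chi_coe]
    exact mul_inv_eq_iff_eq_mul.mp (D.torus_conj t α s)
  · intro γ δ s t hne
    refine ⟨⁅D.sl2 γ (up (-s)), D.sl2 δ (up (-t))⁆, ?_, ?_⟩
    · have h0 : P.root γ + P.root δ ≠ 0 := by
        intro h
        apply hne
        apply P.root.injective
        rw [hn2]
        exact eq_neg_of_add_eq_zero_left h
      refine Subgroup.closure_mono ?_ (D.commutator γ δ h0 (-s) (-t))
      rintro g ⟨β, r, i, j, hi, hj, hr, rfl⟩
      refine ⟨β, r, i, j, hi, hj, ?_, rfl⟩
      rw [hr, natCast_zsmul, natCast_zsmul]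
    · exact comm_aux _ _ _ _ (by rw [up_neg', map_inv]) (by rw [up_neg', map_inv])
  · intro α hα
    exact (hμ2 α).1 (b.isPos_of_mem_support hα)
  · intro α hα γ hγ hne β i j hi hj h
    exact (hμ2 β).1 (sub_simple P b α hα γ ((hμ2 γ).2 hγ) hne β i j hi hj h)
  · unfold RG.B RootGroupData.borel
    congr 1
    ext g
    simp only [Set.mem_union, Set.mem_setOf_eq, Set.mem_range]
    constructor
    · rintro (⟨t, rfl⟩ | ⟨α, s, hα, rfl⟩)
      · exact Or.inl ⟨t, rfl⟩
      · exact Or.inr ⟨α, s, (hμ2 α).2 hα, rfl⟩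
    · rintro (⟨t, rfl⟩ | ⟨α, s, hα, rfl⟩)
      · exact Or.inl ⟨t, rfl⟩
      · exact Or.inr ⟨α, s, (hμ2 α).1 hα, rfl⟩

section

variable {A : Type} [CommRing A] [Algebra k A]

/-- The evaluation of the Laurent polynomials at a point of the torus. -/
private noncomputable def evT (t : Fin n → kˣ) : AddMonoidAlgebra A (Fin n → ℤ) →ₐ[A] A :=
  AddMonoidAlgebra.lift A A (Fin n → ℤ)
    { toFun := fun l => algebraMap k A (chi l.toAdd t : k)
      map_one' := by
        rw [toAdd_one, Pool.Agent.MP_b525bf_ag_R.chi_zero, Units.val_one, map_one]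
      map_mul' := fun l l' => by
        rw [toAdd_mul, Pool.Agent.MP_b525bf_ag_R.chi_add, Units.val_mul, map_mul] }

private theorem evT_single (t : Fin n → kˣ) (l : Fin n → ℤ) (a : A) :
    evT t (AddMonoidAlgebra.single l a) = (chi l t : k) • a := by
  rw [evT, AddMonoidAlgebra.lift_single, smul_eq_mul, mul_comm]
  exact (Algebra.smul_def _ _).symm

private theorem evT_eq (t : Fin n → kˣ) (f : AddMonoidAlgebra A (Fin n → ℤ)) :
    evT t f = ∑ l ∈ f.coeff.support, (chi l t : k) • f.coeff l := by
  rw [evT, AddMonoidAlgebra.lift_apply, Finsupp.sum]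
  refine Finset.sum_congr rfl fun l _ => ?_
  rw [smul_eq_mul, mul_comm]
  exact (Algebra.smul_def _ _).symm

end

theorem rat_of (D : RootGroupData P b G) (D' : RG k (Fin n) R G) (hT : D'.T = D.torus)
    (hφ : D'.φ = D.sl2) {A : Type} [CommRing A] [Algebra k A] (ρ : G →* (A ≃ₐ[k] A))
    (hρ : IsRational ρ) : D'.Rat ρ := by
  constructor
  · intro α a
    obtain ⟨Q, hQ⟩ := hρ a
    choose q hq using D.sl2_rational
    refine ⟨MvPolynomial.bind₁ (fun c => MvPolynomial.map (algebraMap k A) (q α c)) Q, fun g => ?_⟩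
    rw [MonoidHom.comp_apply, hφ, hQ, Pool.Agent.MP_b525bf_ag_R.ev]
    have h1 := MvPolynomial.eval₂Hom_bind₁ (RingHom.id A)
      (fun c : Fin 2 × Fin 2 => algebraMap k A (g.1 c.1 c.2))
      (fun c => MvPolynomial.map (algebraMap k A) (q α c)) Q
    change _ = MvPolynomial.eval₂Hom (RingHom.id A) _ _
    rw [h1]
    change MvPolynomial.eval₂Hom (RingHom.id A) _ _ = _
    congr 2
    funext c
    rw [hq α c]
    change algebraMap k A (MvPolynomial.eval _ _) = MvPolynomial.eval _ _
    rw [MvPolynomial.eval_map]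
    exact MvPolynomial.hom_eval₂ _ _ _ _
  · intro a
    obtain ⟨Q, hQ⟩ := hρ a
    choose S q hq using D.torus_rational
    set F : AddMonoidAlgebra A (Fin n → ℤ) := MvPolynomial.aeval (fun c => ∑ l ∈ S c,
      AddMonoidAlgebra.single l (algebraMap k A (q c l))) Q with hF
    refine ⟨F.coeff.support, F.coeff, fun t => ?_⟩
    rw [← evT_eq, hT, hQ, hF]
    have h1 : evT t (MvPolynomial.aeval (fun c => ∑ l ∈ S c,
        AddMonoidAlgebra.single l (algebraMap k A (q c l))) Q) =
        MvPolynomial.aeval (fun c => evT t (∑ l ∈ S c,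
        AddMonoidAlgebra.single l (algebraMap k A (q c l)))) Q := by
      rw [← AlgHom.comp_apply, MvPolynomial.comp_aeval]
    rw [h1]
    change _ = MvPolynomial.eval _ Q
    congr 2
    funext c
    rw [hq c t, map_sum, map_sum]
    refine Finset.sum_congr rfl fun l _ => ?_
    rw [evT_single, Algebra.smul_def, ← map_mul, chi_coe, mul_comm]

end Pool.Agent.MP_b525bf_ag_SG
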