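import Pool.Agent.Lib.MP_b525bf_ag_SG.Defs

/-!
# G10: polynomial functions on a matrix group

Proof. `Pol G` is closed under the operations of the algebra (polynomials). `pol_inv`: it suffices
to treat the coordinates (a polynomial in functions of `Pol G` is in `Pol G`: `pol_eval`); the
entries of `g⁻¹` are `det⁻¹ * adjugate` (`Matrix.GeneralLinearGroup`, `Matrix.inv_def`,
`Matrix.adjugate` entries are determinants, so polynomials in the entries: `Matrix.det_apply`), the
inverse of the determinant of `g⁻¹` is `det g`.
-/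

set_option autoImplicit false

namespace Pool.Agent.MP_b525bf_ag_SG

open scoped MatrixGroups

variable {k : Type} [Field k] {N : ℕ}

/-- The polynomial functions on a matrix group. -/
def Pol (G : Subgroup (GL (Fin N) k)) : Subalgebra k (G → k) where
  carrier := {f | ∃ P : MvPolynomial (Option (Fin N × Fin N)) k,
    ∀ g : G, f g = MvPolynomial.eval (coord g.1) P}
  mul_mem' := by
    rintro f f' ⟨P, hP⟩ ⟨P', hP'⟩
    exact ⟨P * P', fun g => by rw [Pi.mul_apply, hP, hP', map_mul]⟩
  add_mem' := by
    rintro f f' ⟨P, hP⟩ ⟨P', hP'⟩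
    exact ⟨P + P', fun g => by rw [Pi.add_apply, hP, hP', map_add]⟩
  algebraMap_mem' := by
    intro c
    exact ⟨MvPolynomial.C c, fun g => by simp⟩

variable (G : Subgroup (GL (Fin N) k))

theorem mem_pol (f : G → k) : f ∈ Pol G ↔ ∃ P : MvPolynomial (Option (Fin N × Fin N)) k,
    ∀ g : G, f g = MvPolynomial.eval (coord g.1) P := Iff.rfl

theorem pol_coord (c : Option (Fin N × Fin N)) : (fun g : G => coord g.1 c) ∈ Pol G :=
  ⟨MvPolynomial.X c, fun g => by simp⟩

/-- The generic matrix. -/
private noncomputable def gen (k : Type) [Field k] (N : ℕ) :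
    Matrix (Fin N) (Fin N) (MvPolynomial (Option (Fin N × Fin N)) k) :=
  fun i j => MvPolynomial.X (some (i, j))

private theorem gen_map (g : GL (Fin N) k) :
    (gen k N).map (MvPolynomial.eval (coord g)) = (g : Matrix (Fin N) (Fin N) k) := by
  ext i j
  simp [gen, coord]

/-- The coordinates of `g⁻¹` as polynomials in those of `g`. -/
private noncomputable def invPol (k : Type) [Field k] (N : ℕ) :
    Option (Fin N × Fin N) → MvPolynomial (Option (Fin N × Fin N)) k
  | none => (gen k N).det
  | some c => MvPolynomial.X none * (gen k N).adjugate c.1 c.2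

private theorem coord_inv (g : GL (Fin N) k) (c : Option (Fin N × Fin N)) :
    coord g⁻¹ c = MvPolynomial.eval (coord g) (invPol k N c) := by
  cases c with
  | none =>
    have h := RingHom.map_det (MvPolynomial.eval (coord g)) (gen k N)
    rw [RingHom.mapMatrix_apply, gen_map] at h
    simp only [invPol, h, coord, map_inv, inv_inv]
    rfl
  | some c =>
    have h := RingHom.map_adjugate (MvPolynomial.eval (coord g)) (gen k N)
    rw [RingHom.mapMatrix_apply, RingHom.mapMatrix_apply, gen_map] at h
    have h2 := congrFun (congrFun h c.1) c.2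
    rw [Matrix.map_apply] at h2
    simp only [invPol, map_mul, MvPolynomial.eval_X, h2, coord]
    rw [Matrix.coe_units_inv, Matrix.inv_def, Matrix.smul_apply, Ring.inverse_eq_inv',
      smul_eq_mul]
    simp

theorem pol_inv (f : G → k) (hf : f ∈ Pol G) : (fun g : G => f g⁻¹) ∈ Pol G := by
  obtain ⟨P, hP⟩ := hf
  refine ⟨MvPolynomial.bind₁ (invPol k N) P, fun g => ?_⟩
  have h : coord (g⁻¹ : G).1 = fun c => MvPolynomial.eval (coord g.1) (invPol k N c) :=
    funext fun c => coord_inv g.1 c
  dsimp only
  rw [hP, h]
  have h2 := MvPolynomial.aeval_bind₁ (R := k) (coord g.1) (invPol k N) P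
  simp only [MvPolynomial.aeval_eq_eval] at h2
  rw [h2]

private theorem eval_expand {σ : Type} {A : Type} [CommRing A] [Algebra k A]
    (P : MvPolynomial σ A) (x : σ → k) :
    MvPolynomial.eval (fun c => algebraMap k A (x c)) P =
      ∑ m ∈ P.support, (∏ c ∈ m.support, x c ^ m c) • P.coeff m := by
  rw [MvPolynomial.eval_eq]
  refine Finset.sum_congr rfl fun m _ => ?_
  rw [Algebra.smul_def, map_prod, mul_comm]
  simp only [map_pow]

/-- The matrix coefficients of a rational action. -/
theorem pol_of_rational {A : Type} [CommRing A] [Algebra k A] (ρ : G →* (A ≃ₐ[k] A))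
    (hρ : IsRational ρ) (a : A) (ξ : A →ₗ[k] k) : (fun g : G => ξ (ρ g a)) ∈ Pol G := by
  obtain ⟨P, hP⟩ := hρ a
  refine ⟨∑ m ∈ P.support, MvPolynomial.monomial m (ξ (P.coeff m)), fun g => ?_⟩
  dsimp only
  rw [hP, eval_expand, map_sum, map_sum]
  refine Finset.sum_congr rfl fun m _ => ?_
  rw [map_smul, MvPolynomial.eval_monomial, smul_eq_mul, mul_comm, Finsupp.prod]

/-- The orbit of an element under a rational action spans a finite-dimensional space. -/
theorem finite_span {A : Type} [CommRing A] [Algebra k A] (ρ : G →* (A ≃ₐ[k] A))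
    (hρ : IsRational ρ) (a : A) :
    Module.Finite k (Submodule.span k (Set.range fun g : G => ρ g a)) := by
  obtain ⟨P, hP⟩ := hρ a
  have hfin : Module.Finite k (Submodule.span k (P.coeff '' (P.support : Set _))) :=
    Module.Finite.span_of_finite k (P.support.finite_toSet.image _)
  refine Submodule.finiteDimensional_of_le (S₂ := Submodule.span k (P.coeff '' (P.support : Set _)))
    (Submodule.span_le.2 ?_)
  rintro _ ⟨g, rfl⟩
  simp only [SetLike.mem_coe]
  rw [hP, eval_expand]
  exact Submodule.sum_mem _ fun m hm => Submodule.smul_mem _ _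
    (Submodule.subset_span ⟨m, hm, rfl⟩)

end Pool.Agent.MP_b525bf_ag_SG
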