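import Pool.Agent.Lib.MP_b525bf_ag_SG.CHD

/-!
# G09: the invariant valuations are Abhyankar valuations
-/

set_option autoImplicit false

namespace Pool.Agent.MP_b525bf_ag_SG

open scoped MatrixGroups

open Pool.Agent.MP_b525bf_ag_ES Pool.Agent.MP_b525bf_ag_E Pool.Agent.LU2

theorem defLE_of_rat {k ι R G : Type} [Field k] [Infinite k] [Fintype ι] [Finite R] [Group G]
    (D : RG k ι R G) {A : Type} [CommRing A] [IsDomain A] [Algebra k A] (ρ : G →* (A ≃ₐ[k] A))
    (hρ : D.Rat ρ) (hc : Algebra.trdeg k (invField (D.B.map ρ)) ≤ 1)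
    (V : ValuationSubring (FractionRing A)) (hV : IsInvariant ρ.range V) : DefLE k V 0 :=
  defLE_of_complexity D ρ hρ 0 (by simpa using hc) V hV

end Pool.Agent.MP_b525bf_ag_SG
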