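import Mathlib
import Pool.Agent.Lib.MP_b525bf_ag_R.DUA

/-!
# G15: root data: a height functional, simple roots

Proof. `exists_mu`: `b.linearIndepOn_root` is a linearly independent family of vectors in
`Fin n → ℤ`; `Pool.Agent.MP_b525bf_ag_R.exists_dual` (file DUA.lean) gives for each simple root `j` an
integral vector `μ j` with `∑ μ j i * root j' i = 0` for `j' ≠ j` and `≠ 0` for `j' = j`; take the sum
of the `± μ j`. It is positive on the simple roots; every root is a nonnegative or nonpositive
combination of the simple roots (`b.exists_root_eq_sum_nat_or_neg` or `b.root_mem_or_neg_mem`), not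
`0` (`P.ne_zero`), and `b.IsPos α` iff the sign is plus (`b.height_eq_sum`).
`sub_simple`: `root γ = ∑ f j • root j` with all `f j ≥ 0` (as `γ` is positive) and some `j' ≠ α` with
`f j' > 0`: otherwise `root γ = f α • root α`, so `γ = α` by `P.IsReduced` (`red_of`). `root β = i • root γ -
j • root α` has the positive coefficient `i * f j'` at `j'`, so all its coefficients are nonnegative
(linear independence). `red_of`: if `α ≠ β`, the roots are linearly dependent, so `root α = - root β` by
`P.IsReduced`, then `(a + b) • root β = 0`, impossible (`Fin n → ℤ` has no torsion).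
-/

set_option autoImplicit false

namespace Pool.Agent.MP_b525bf_ag_SG

variable {n : ℕ} {R : Type} [Finite R] (P : RootDatum R (Fin n → ℤ) (Fin n → ℤ)) (b : P.Base)

private theorem cna_pos {R : Type} (s : Finset R) (f c : R → ℤ) (hf : 0 < f)
    (hs : Function.support f ⊆ s) (hc : ∀ j ∈ s, 0 < c j) : 0 < ∑ j ∈ s, f j * c j := by
  classical
  have h0 : ∀ j, 0 ≤ f j := fun j => hf.le j
  obtain ⟨j, hj⟩ : ∃ j, f j ≠ 0 := by
    by_contra h
    push Not at h
    exact hf.ne (funext fun j => (h j).symm)
  have hjs : j ∈ s := by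
    have h1 : j ∈ Function.support f := hj
    exact_mod_cast hs h1
  refine Finset.sum_pos' (fun i hi => mul_nonneg (h0 i) (hc i hi).le) ⟨j, hjs, ?_⟩
  exact mul_pos (lt_of_le_of_ne (h0 j) (Ne.symm hj)) (hc j hjs)

private theorem cna_height {R : Type} {n : ℕ} [Finite R]
    (P : RootDatum R (Fin n → ℤ) (Fin n → ℤ)) (b : P.Base) (α : R) (f : R → ℤ)
    (hs : Function.support f ⊆ b.support) (hf : P.root α = ∑ j ∈ b.support, f j • P.root j)
    (hpos : 0 < f) : b.IsPos α := by
  classical
  have h1 := cna_pos b.support f (fun _ => 1) hpos hs (fun _ _ => one_pos)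
  rw [RootPairing.Base.isPos_iff, RootPairing.Base.height_eq_sum hf]
  simpa using h1

private theorem cna_not_height {R : Type} {n : ℕ} [Finite R]
    (P : RootDatum R (Fin n → ℤ) (Fin n → ℤ)) (b : P.Base) (α : R) (f : R → ℤ)
    (hs : Function.support f ⊆ b.support) (hf : P.root α = ∑ j ∈ b.support, f j • P.root j)
    (hneg : f < 0) : ¬ b.IsPos α := by
  classical
  have h1 := cna_pos b.support (-f) (fun _ => 1) (by simpa using hneg)
    (by simpa using hs) (fun _ _ => one_pos)
  rw [RootPairing.Base.isPos_iff, RootPairing.Base.height_eq_sum hf]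
  have h2 : ∑ j ∈ b.support, (-f) j * 1 = - ∑ j ∈ b.support, f j := by
    simp
  rw [h2] at h1
  omega

theorem exists_mu : ∃ μ : Fin n → ℤ, (∀ α, ∑ i, μ i * P.root α i ≠ 0) ∧
    ∀ α, b.IsPos α ↔ 0 < ∑ i, μ i * P.root α i := by
  classical
  obtain ⟨e⟩ : Nonempty (Fin b.support.card ≃ b.support) := ⟨b.support.equivFin.symm⟩
  have hli : LinearIndependent ℤ (fun a : Fin b.support.card => P.root (e a : R)) :=
    b.linearIndepOn_root.comp (fun a => (e a : (b.support : Set R))) (fun a a' h => e.injective h)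
  have hd := fun j => Pool.Agent.MP_b525bf_ag_R.exists_dual
    (fun a : Fin b.support.card => P.root (e a : R)) hli j
  choose ν h0 h1 using hd
  obtain ⟨μ, hμ⟩ : ∃ μ : Fin n → ℤ, μ = fun i => ∑ j : Fin b.support.card,
    Int.sign (∑ i, ν j i * P.root (e j : R) i) * ν j i := ⟨_, rfl⟩
  have hsimple : ∀ a : Fin b.support.card, 0 < ∑ i, μ i * P.root (e a : R) i := by
    intro a
    have h2 : ∑ i, μ i * P.root (e a : R) i = ∑ j : Fin b.support.card,
        Int.sign (∑ i, ν j i * P.root (e j : R) i) * ∑ i, ν j i * P.root (e a : R) i := by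
      rw [hμ]
      simp only [Finset.sum_mul, Finset.mul_sum]
      rw [Finset.sum_comm]
      refine Finset.sum_congr rfl fun j _ => Finset.sum_congr rfl fun i _ => ?_
      ring
    rw [h2, Finset.sum_eq_single a]
    · rw [Int.sign_mul_self_eq_abs]
      exact abs_pos.mpr (h1 a)
    · intro j _ hj
      rw [h0 j a (Ne.symm hj), mul_zero]
    · intro h
      exact absurd (Finset.mem_univ a) h
  have hpos : ∀ j ∈ b.support, 0 < ∑ i, μ i * P.root j i := by
    intro j hj
    have h2 := hsimple (e.symm ⟨j, hj⟩)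
    rw [Equiv.apply_symm_apply] at h2
    exact h2
  have hlin : ∀ (α : R) (f : R → ℤ), P.root α = ∑ j ∈ b.support, f j • P.root j →
      ∑ i, μ i * P.root α i = ∑ j ∈ b.support, f j * ∑ i, μ i * P.root j i := by
    intro α f hf
    rw [hf]
    simp only [Finset.sum_apply, Pi.smul_apply, smul_eq_mul, Finset.mul_sum]
    rw [Finset.sum_comm]
    refine Finset.sum_congr rfl fun j _ => Finset.sum_congr rfl fun i _ => ?_
    ring
  have hkey : ∀ α, (b.IsPos α ∧ 0 < ∑ i, μ i * P.root α i) ∨
      (¬ b.IsPos α ∧ ∑ i, μ i * P.root α i < 0) := by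
    intro α
    obtain ⟨f, hf0, hf1, hf2⟩ := b.exists_root_eq_sum_int α
    rcases hf1 with hf1 | hf1
    · left
      refine ⟨cna_height P b α f hf0 hf2 hf1, ?_⟩
      rw [hlin α f hf2]
      exact cna_pos b.support f _ hf1 hf0 hpos
    · right
      refine ⟨cna_not_height P b α f hf0 hf2 hf1, ?_⟩
      rw [hlin α f hf2]
      have h2 := cna_pos b.support (-f) (fun j => ∑ i, μ i * P.root j i) (by simpa using hf1)
        (by simpa using hf0) hpos
      have h3 : ∑ j ∈ b.support, (-f) j * ∑ i, μ i * P.root j i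
          = - ∑ j ∈ b.support, f j * ∑ i, μ i * P.root j i := by
        rw [← Finset.sum_neg_distrib]
        refine Finset.sum_congr rfl fun j _ => ?_
        rw [Pi.neg_apply, neg_mul]
      rw [h3] at h2
      omega
  refine ⟨μ, fun α => ?_, fun α => ?_⟩
  · rcases hkey α with h | h
    · exact h.2.ne'
    · exact h.2.ne
  · rcases hkey α with h | h
    · exact ⟨fun _ => h.2, fun _ => h.1⟩
    · exact ⟨fun h' => absurd h' h.1, fun h' => absurd h' h.2.not_gt⟩

theorem red_of [P.IsReduced] (α β : R) (i j : ℕ) (hi : 0 < i) (hj : 0 < j)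
    (h : (i : ℤ) • P.root α = (j : ℤ) • P.root β) : α = β := by
  by_contra hne
  by_cases h' : P.root α = -P.root β
  · have h2 : ((i : ℤ) + j) • P.root β = 0 := by
      rw [h'] at h
      rw [add_smul, ← h]
      simp
    rcases smul_eq_zero.mp h2 with h3 | h3
    · omega
    · exact P.ne_zero β h3
  · have h2 := RootPairing.IsReduced.linearIndependent P hne h'
    rw [LinearIndependent.pair_iff] at h2
    have h3 := h2 (i : ℤ) (-(j : ℤ)) (by rw [h, neg_smul, add_neg_cancel])
    omega

theorem sub_simple [P.IsReduced] (α : R) (hα : α ∈ b.support) (γ : R) (hγ : b.IsPos γ)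
    (hne : γ ≠ α) (β : R) (i j : ℕ) (hi : 0 < i) (hj : 0 < j)
    (h : P.root β = (i : ℤ) • P.root γ - (j : ℤ) • P.root α) : b.IsPos β := by
  classical
  obtain ⟨f, hf0, hf1, hf2⟩ := b.exists_root_eq_sum_int γ
  have hfpos : 0 < f := by
    rcases hf1 with h1 | h1
    · exact h1
    · exact absurd hγ (cna_not_height P b γ f hf0 hf2 h1)
  obtain ⟨k, hk, hkα, hfk⟩ : ∃ k ∈ b.support, k ≠ α ∧ 0 < f k := by
    by_contra hcon
    push Not at hcon
    have h1 : P.root γ = f α • P.root α := by
      rw [hf2]
      refine Finset.sum_eq_single_of_mem α hα fun k hk hkα => ?_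
      have h2 : f k = 0 := le_antisymm (hcon k hk hkα) (hfpos.le k)
      rw [h2, zero_smul]
    have h3 : 0 < f α := by
      rcases lt_or_eq_of_le (show (0 : ℤ) ≤ f α from hfpos.le α) with h4 | h4
      · exact h4
      · exfalso
        rw [← h4, zero_smul] at h1
        exact P.ne_zero γ h1
    refine hne (red_of P γ α 1 (f α).toNat one_pos (by omega) ?_)
    rw [Int.toNat_of_nonneg h3.le, ← h1]
    simp
  obtain ⟨g, hg⟩ : ∃ g : R → ℤ, g = (i : ℤ) • f - (j : ℤ) • Pi.single α 1 := ⟨_, rfl⟩
  have hgs : Function.support g ⊆ b.support := by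
    intro l hl
    by_contra hlb
    have h1 : f l = 0 := by
      by_contra h2
      exact hlb (hf0 h2)
    have h2 : l ≠ α := by
      rintro rfl
      exact hlb hα
    refine hl ?_
    rw [hg]
    simp [h1, h2]
  have hgsum : P.root β = ∑ l ∈ b.support, g l • P.root l := by
    have h1 : ∑ l ∈ b.support, (Pi.single α 1 : R → ℤ) l • P.root l = P.root α := by
      rw [Finset.sum_eq_single_of_mem α hα]
      · simp
      · intro l _ hl
        simp [hl]
    rw [h, hg, hf2]
    conv_lhs => rw [← h1]
    rw [Finset.smul_sum, Finset.smul_sum, ← Finset.sum_sub_distrib]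
    refine Finset.sum_congr rfl fun l _ => ?_
    rw [Pi.sub_apply, Pi.smul_apply, Pi.smul_apply, sub_smul, smul_assoc, smul_assoc]
  rcases b.pos_or_neg_of_sum_smul_root_mem g ⟨β, hgsum⟩ hgs with h1 | h1
  · exact cna_height P b β g hgs hgsum h1
  · exfalso
    have h2 : g k ≤ 0 := h1.le k
    have h3 : g k = (i : ℤ) * f k := by
      rw [hg]
      simp [hkα]
    have h4 : 0 < (i : ℤ) * f k := mul_pos (by exact_mod_cast hi) hfk
    omega

end Pool.Agent.MP_b525bf_ag_SG
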