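import Pool.Agent.Lib.MP_b525bf_ag_SG.RG

/-!
# G07: the negative root subgroups and the simple roots
-/

set_option autoImplicit false

namespace Pool.Agent.MP_b525bf_ag_SG

open Pool.Agent.MP_b525bf_ag_R (up lo dg chi IsRat)
open scoped MatrixGroups

variable {k ι R G : Type} [Field k] [Fintype ι] [Group G] (D : RG k ι R G)

/-- The group generated by the negative root subgroups. -/
def RG.Um : Subgroup G := Subgroup.closure {g | ∃ β r, D.ht β < 0 ∧ g = D.x β r}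

/-- The group generated by the root subgroups of the negative roots different from `neg α`. -/
def RG.Uma (α : R) : Subgroup G :=
  Subgroup.closure {g | ∃ β r, D.ht β < 0 ∧ β ≠ D.neg α ∧ g = D.x β r}

private theorem dma_tv01 (s : k) :
    (Matrix.SpecialLinearGroup.transvection zero_ne_one s : SL(2, k)) = up s := by
  refine Pool.Agent.MP_b525bf_ag_R.ext4 ?_ ?_ ?_ ?_ <;>
    simp [Matrix.SpecialLinearGroup.transvection_coe]

private theorem dma_tv10 (s : k) :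
    (Matrix.SpecialLinearGroup.transvection one_ne_zero s : SL(2, k)) = lo s := by
  refine Pool.Agent.MP_b525bf_ag_R.ext4 ?_ ?_ ?_ ?_ <;>
    simp [Matrix.SpecialLinearGroup.transvection_coe]

private theorem dma_neg_pos (α γ : R) (hα : α ∈ D.sim) (hγ : D.ht γ < 0) (hne : γ ≠ D.neg α)
    (β : R) (h : D.Btw γ α β) : D.ht β < 0 ∧ β ≠ D.neg α := by
  obtain ⟨i, j, hi, hj, hr⟩ := h
  have hγ' : 0 < D.ht (D.neg γ) := by rw [D.ht_neg]; linarith
  have hne' : D.neg γ ≠ α := by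
    intro h0
    apply hne
    rw [← h0, D.neg_neg]
  constructor
  · have h1 : D.root (D.neg β) = (i : ℤ) • D.root (D.neg γ) - (j : ℤ) • D.root α := by
      rw [D.root_neg, D.root_neg, hr, smul_neg]
      abel
    have h2 := D.sim_sub α hα (D.neg γ) hγ' hne' (D.neg β) i j hi hj h1
    have h3 : 0 < D.ht (D.neg β) := h2
    rw [D.ht_neg] at h3
    linarith
  · intro h0
    apply hne'
    refine D.red (D.neg γ) α hγ' i (j + 1) hi (Nat.succ_pos j) ?_
    rw [h0, D.root_neg] at hr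
    rw [D.root_neg]
    push_cast
    rw [add_smul, one_smul, smul_neg]
    have h1 : (i : ℤ) • D.root γ = -D.root α - (j : ℤ) • D.root α := by
      rw [hr]; abel
    rw [h1]
    abel

private theorem dma_neg_neg (α γ : R) (hα : 0 < D.ht α) (hγ : D.ht γ < 0)
    (β : R) (h : D.Btw γ (D.neg α) β) : D.ht β < 0 ∧ β ≠ D.neg α := by
  obtain ⟨i, j, hi, hj, hr⟩ := h
  have h1 := D.ht_btw hr
  rw [D.ht_neg] at h1
  have hi' : (1 : ℤ) ≤ i := by exact_mod_cast hi
  have hj' : (1 : ℤ) ≤ j := by exact_mod_cast hj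
  have h2 : (i : ℤ) * D.ht γ ≤ D.ht γ := by nlinarith
  have h3 : (j : ℤ) * -D.ht α ≤ -D.ht α := by nlinarith
  constructor
  · linarith
  · intro h0
    rw [h0, D.ht_neg] at h1
    linarith

private theorem dma_gen (α : R) (γ δ : R) (s t : k) (hγ : D.ht γ < 0) (hne : γ ≠ D.neg α)
    (hd : γ ≠ D.neg δ) (h : ∀ β, D.Btw γ δ β → D.ht β < 0 ∧ β ≠ D.neg α) :
    (D.x δ t)⁻¹ * D.x γ s * D.x δ t ∈ D.Uma α := by
  obtain ⟨w, hw, h1⟩ := D.comm' γ δ s t hd
  rw [h1]
  refine (D.Uma α).mul_mem (Subgroup.subset_closure ⟨γ, s, hγ, hne, rfl⟩) ?_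
  have h2 : Subgroup.closure {g | ∃ β r, D.Btw γ δ β ∧ g = D.x β r} ≤ D.Uma α := by
    rw [Subgroup.closure_le]
    rintro _ ⟨β, r, hβ, rfl⟩
    obtain ⟨h3, h4⟩ := h β hβ
    exact Subgroup.subset_closure ⟨β, r, h3, h4, rfl⟩
  exact h2 hw

private theorem dma_conj (α : R) (y : G)
    (h : ∀ γ s, D.ht γ < 0 → γ ≠ D.neg α → y⁻¹ * D.x γ s * y ∈ D.Uma α)
    (n : G) (hn : n ∈ D.Uma α) : y⁻¹ * n * y ∈ D.Uma α := by
  unfold RG.Uma at hn
  induction hn using Subgroup.closure_induction with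
  | mem g hg =>
    obtain ⟨β, r, h1, h2, rfl⟩ := hg
    exact h β r h1 h2
  | one => simp
  | mul a b _ _ ha hb =>
    have e : y⁻¹ * (a * b) * y = (y⁻¹ * a * y) * (y⁻¹ * b * y) := by group
    rw [e]
    exact (D.Uma α).mul_mem ha hb
  | inv a _ ha =>
    have e : y⁻¹ * a⁻¹ * y = (y⁻¹ * a * y)⁻¹ := by group
    rw [e]
    exact (D.Uma α).inv_mem ha

theorem neg_conj (α : R) (hα : α ∈ D.sim) (g : SL(2, k)) (n : G) (hn : n ∈ D.Uma α) :
    (D.φ α g)⁻¹ * n * D.φ α g ∈ D.Uma α := by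
  have hα0 : 0 < D.ht α := D.sim_pos α hα
  refine Matrix.SL2.transvection_induction
    (fun g => ∀ n ∈ D.Uma α, (D.φ α g)⁻¹ * n * D.φ α g ∈ D.Uma α) ?_ ?_ g n hn
  · intro i j h c
    have hup : ∀ n ∈ D.Uma α, (D.φ α (up c))⁻¹ * n * D.φ α (up c) ∈ D.Uma α := by
      intro n hn
      exact dma_conj D α (D.x α c) (fun γ s h1 h2 => dma_gen D α γ α s c h1 h2 h2
        (fun β hβ => dma_neg_pos D α γ hα h1 h2 β hβ)) n hn
    have hlo : ∀ n ∈ D.Uma α, (D.φ α (lo c))⁻¹ * n * D.φ α (lo c) ∈ D.Uma α := by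
      intro n hn
      rw [D.lo_eq]
      exact dma_conj D α (D.x (D.neg α) c) (fun γ s h1 h2 => dma_gen D α γ (D.neg α) s c h1 h2
        (by
          intro h3
          rw [D.neg_neg] at h3
          rw [h3] at h1
          linarith)
        (fun β hβ => dma_neg_neg D α γ hα0 h1 β hβ)) n hn
    fin_cases i <;> fin_cases j
    · exact absurd rfl h
    · rw [← dma_tv01] at hup
      exact hup
    · rw [← dma_tv10] at hlo
      exact hlo
    · exact absurd rfl h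
  · intro a b ha hb n hn
    have h1 := hb _ (ha n hn)
    rw [map_mul]
    have e : (D.φ α a * D.φ α b)⁻¹ * n * (D.φ α a * D.φ α b) =
        (D.φ α b)⁻¹ * ((D.φ α a)⁻¹ * n * D.φ α a) * D.φ α b := by group
    rw [e]
    exact h1

theorem mem_um (α : R) (hα : α ∈ D.sim) (u : G) (hu : u ∈ D.Um) :
    ∃ t, ∃ n ∈ D.Uma α, u = D.x (D.neg α) t * n := by
  have hc : ∀ (t : k) (n : G), n ∈ D.Uma α →
      (D.x (D.neg α) t)⁻¹ * n * D.x (D.neg α) t ∈ D.Uma α := by
    intro t n hn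
    rw [← D.lo_eq]
    exact neg_conj D α hα (lo t) n hn
  unfold RG.Um at hu
  induction hu using Subgroup.closure_induction with
  | mem g hg =>
    obtain ⟨β, r, h1, rfl⟩ := hg
    by_cases h2 : β = D.neg α
    · exact ⟨r, 1, (D.Uma α).one_mem, by rw [h2, mul_one]⟩
    · exact ⟨0, D.x β r, Subgroup.subset_closure ⟨β, r, h1, h2, rfl⟩, by
        rw [D.x_zero, one_mul]⟩
  | one => exact ⟨0, 1, (D.Uma α).one_mem, by rw [D.x_zero, one_mul]⟩
  | mul a b _ _ ha hb =>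
    obtain ⟨t, n, hn, rfl⟩ := ha
    obtain ⟨t', n', hn', rfl⟩ := hb
    refine ⟨t + t', (D.x (D.neg α) t')⁻¹ * n * D.x (D.neg α) t' * n',
      (D.Uma α).mul_mem (hc t' n hn) hn', ?_⟩
    rw [D.x_add]
    group
  | inv a _ ha =>
    obtain ⟨t, n, hn, rfl⟩ := ha
    refine ⟨-t, (D.x (D.neg α) (-t))⁻¹ * n⁻¹ * D.x (D.neg α) (-t),
      hc (-t) n⁻¹ ((D.Uma α).inv_mem hn), ?_⟩
    rw [← D.x_inv]
    group

end Pool.Agent.MP_b525bf_ag_SG
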