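import Pool.Agent.Lib.MP_b525bf_ag_SG.FXS
import Pool.Agent.Lib.MP_b525bf_ag_R.FIX

/-!
# A02: a vector fixed modulo a subspace by a closed set of positive root subgroups
-/

set_option autoImplicit false

namespace Pool.Agent.MP_b525bf_ag_SG

open Pool.Agent.MP_b525bf_ag_R (up lo dg chi IsRat)
open scoped MatrixGroups

theorem exists_fx {k ι R G : Type} [Field k] [Infinite k] [Fintype ι] [DecidableEq R] [Group G]
    (D : RG k ι R G) {A : Type} [CommRing A] [Algebra k A] (ρ : G →* (A ≃ₐ[k] A))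
    (hρ : D.Rat ρ) (W E : Submodule k A) (Γ : Finset R) (hpos : ∀ γ ∈ Γ, 0 < D.ht γ)
    (hΓ : ∀ γ ∈ Γ, ∀ δ ∈ Γ, ∀ β, D.Btw γ δ β → β ∈ Γ)
    (hW : ∀ γ ∈ Γ, ∀ s, ∀ a ∈ W, ρ (D.x γ s) a ∈ W)
    (hE : ∀ γ ∈ Γ, ∀ s, ∀ a ∈ E, ρ (D.x γ s) a ∈ E) (a : A) (haW : a ∈ W) (haE : a ∉ E) :
    ∃ w ∈ W, w ∉ E ∧ w ∈ D.Fx ρ E (Γ : Set R) := by
  have main : ∀ (n : ℕ) (Γ' : Finset R), Γ' ⊆ Γ → Γ'.card = n →
      (∀ β ∈ Γ', ∀ γ ∈ Γ, D.ht β < D.ht γ → γ ∈ Γ') →
      ∃ w ∈ W, w ∉ E ∧ w ∈ D.Fx ρ E (Γ' : Set R) := by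
    intro n
    induction n with
    | zero =>
      intro Γ' _ hc _
      have h0 : Γ' = ∅ := Finset.card_eq_zero.1 hc
      subst h0
      refine ⟨a, haW, haE, ?_⟩
      rw [RG.mem_Fx]
      intro γ hγ
      simp at hγ
    | succ n ih =>
      intro Γ' hsub hc hcl
      have hne : Γ'.Nonempty := Finset.card_pos.1 (by omega)
      obtain ⟨β, hβ, hmin⟩ := Finset.exists_min_image Γ' D.ht hne
      have hcl' : ∀ β' ∈ Γ'.erase β, ∀ γ ∈ Γ, D.ht β' < D.ht γ → γ ∈ Γ'.erase β := by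
        intro β' hβ' γ hγ hlt
        have h1 := Finset.mem_of_mem_erase hβ'
        refine Finset.mem_erase.2 ⟨?_, hcl β' h1 γ hγ hlt⟩
        rintro rfl
        exact absurd (hmin β' h1) (not_le.2 hlt)
      obtain ⟨x, hxW, hxE, hxF⟩ := ih (Γ'.erase β) ((Finset.erase_subset β Γ').trans hsub)
        (by rw [Finset.card_erase_of_mem hβ, hc]; rfl) hcl'
      obtain ⟨b, hb1, hb2⟩ := Pool.Agent.MP_b525bf_ag_R.exists_fixed_mod_one (ρ.comp (D.φ β))
        (hρ.sl β) E x hxE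
      have hmem : ∀ V : Submodule k A, (∀ s, ρ (D.x β s) x ∈ V) →
          (b.sum fun s c => c • (ρ.comp (D.φ β)) (up s) x) ∈ V := by
        intro V hV
        rw [Finsupp.sum]
        exact Submodule.sum_mem _ fun s _ => V.smul_mem _ (hV s)
      refine ⟨b.sum fun s c => c • (ρ.comp (D.φ β)) (up s) x,
        hmem W fun s => hW β (hsub hβ) s x hxW, hb1, ?_⟩
      have hF : (b.sum fun s c => c • (ρ.comp (D.φ β)) (up s) x) ∈
          D.Fx ρ E ((Γ'.erase β : Finset R) : Set R) := by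
        refine hmem _ fun s => ?_
        refine fx_x D ρ E _ β ?_ (hE β (hsub hβ)) ?_ ?_ s x hxF
        · intro γ hγ
          exact hE γ (hsub (Finset.mem_of_mem_erase hγ))
        · rintro γ hγ rfl
          have h1 := hpos _ (hsub (Finset.mem_of_mem_erase hγ))
          have h2 := hpos β (hsub hβ)
          rw [D.ht_neg] at h1
          omega
        · intro γ hγ β' hbtw
          have h1 := hsub (Finset.mem_of_mem_erase hγ)
          have h2 := hpos γ h1
          have h3 : β' ∈ Γ := hΓ γ h1 β (hsub hβ) β' hbtw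
          have h4 : D.ht β < D.ht β' := by
            obtain ⟨i, j, hi, hj, hr⟩ := hbtw
            have h7 := D.ht_btw hr
            have h8 : 0 < (i : ℤ) * D.ht γ := mul_pos (by exact_mod_cast hi) h2
            have h9 : D.ht β ≤ (j : ℤ) * D.ht β :=
              le_mul_of_one_le_left (hpos β (hsub hβ)).le (by exact_mod_cast hj)
            omega
          refine Finset.mem_erase.2 ⟨?_, hcl β hβ β' h3 h4⟩
          rintro rfl
          exact lt_irrefl _ h4
      rw [RG.mem_Fx] at hF ⊢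
      intro γ hγ s
      by_cases h : γ = β
      · subst h
        exact hb2 s
      · exact hF γ (Finset.mem_erase.2 ⟨h, hγ⟩) s
  exact main Γ.card Γ (Finset.Subset.refl Γ) rfl fun _ _ γ hγ _ => hγ

end Pool.Agent.MP_b525bf_ag_SG
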