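import Pool.Agent.Lib.MP_b525bf_ag_SG.RG

/-!
# A01: vectors fixed modulo a subspace by root subgroups

-/

set_option autoImplicit false

namespace Pool.Agent.MP_b525bf_ag_SG

open Pool.Agent.MP_b525bf_ag_R (up lo dg chi IsRat)
open scoped MatrixGroups

variable {k ι R G : Type} [Field k] [Fintype ι] [Group G] (D : RG k ι R G) {A : Type} [CommRing A]
  [Algebra k A] (ρ : G →* (A ≃ₐ[k] A)) (E : Submodule k A) (Γ : Set R)

/-- An element of the subgroup generated by root subgroups of roots in `Γ` fixes modulo `E` the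
elements of `Fx`, and preserves `E`. -/
theorem fx_closure (hE : ∀ γ ∈ Γ, ∀ s, ∀ e ∈ E, ρ (D.x γ s) e ∈ E) (a : A) (ha : a ∈ D.Fx ρ E Γ)
    (h : G) (hh : h ∈ Subgroup.closure {g | ∃ β ∈ Γ, ∃ r, g = D.x β r}) :
    ρ h a - a ∈ E ∧ (∀ e ∈ E, ρ h e ∈ E) ∧ ∀ e ∈ E, ρ h⁻¹ e ∈ E := by
  have hmul : ∀ (g h : G) (b : A), ρ (g * h) b = ρ g (ρ h b) := by
    intro g h b
    rw [map_mul]
    rfl
  induction hh using Subgroup.closure_induction with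
  | mem g hg =>
    obtain ⟨β, hβ, r, rfl⟩ := hg
    refine ⟨ha β hβ r, hE β hβ r, ?_⟩
    rw [D.x_inv]
    exact hE β hβ (-r)
  | one =>
    rw [inv_one, map_one]
    refine ⟨?_, fun e he => he, fun e he => he⟩
    rw [AlgEquiv.one_apply, sub_self]
    exact E.zero_mem
  | mul g g' _ _ hg hg' =>
    refine ⟨?_, fun e he => ?_, fun e he => ?_⟩
    · have h1 : ρ (g * g') a - a = ρ g (ρ g' a - a) + (ρ g a - a) := by
        rw [hmul, map_sub, sub_add_sub_cancel]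
      rw [h1]
      exact E.add_mem (hg.2.1 _ hg'.1) hg.1
    · rw [hmul]
      exact hg.2.1 _ (hg'.2.1 e he)
    · rw [mul_inv_rev, hmul]
      exact hg'.2.2 _ (hg.2.2 e he)
  | inv g _ hg =>
    refine ⟨?_, hg.2.2, by rw [inv_inv]; exact hg.2.1⟩
    have h1 : ρ g⁻¹ a - a = -ρ g⁻¹ (ρ g a - a) := by
      rw [map_sub, ← hmul, inv_mul_cancel, map_one, AlgEquiv.one_apply, neg_sub]
    rw [h1]
    exact E.neg_mem (hg.2.2 _ hg.1)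

theorem fx_x (δ : R) (hE : ∀ γ ∈ Γ, ∀ s, ∀ e ∈ E, ρ (D.x γ s) e ∈ E)
    (hδ : ∀ s, ∀ e ∈ E, ρ (D.x δ s) e ∈ E) (hne : ∀ γ ∈ Γ, γ ≠ D.neg δ)
    (hΓ : ∀ γ ∈ Γ, ∀ β, D.Btw γ δ β → β ∈ Γ) (t : k)
    (a : A) (ha : a ∈ D.Fx ρ E Γ) : ρ (D.x δ t) a ∈ D.Fx ρ E Γ := by
  have hmul : ∀ (g h : G) (b : A), ρ (g * h) b = ρ g (ρ h b) := by
    intro g h b
    rw [map_mul]
    rfl
  rw [RG.mem_Fx]
  intro γ hγ s
  obtain ⟨h, hh, h1⟩ := D.comm' γ δ s t (hne γ hγ)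
  have hh' : h ∈ Subgroup.closure {g | ∃ β ∈ Γ, ∃ r, g = D.x β r} := by
    refine Subgroup.closure_mono ?_ hh
    rintro _ ⟨β, r, hβ, rfl⟩
    exact ⟨β, hΓ γ hγ β hβ, r, rfl⟩
  have h2 := fx_closure D ρ E Γ hE a ha h hh'
  have h3 : D.x γ s * D.x δ t = D.x δ t * (D.x γ s * h) := by
    rw [← h1]
    group
  have h4 : ρ (D.x γ s) (ρ (D.x δ t) a) - ρ (D.x δ t) a =
      ρ (D.x δ t) (ρ (D.x γ s) (ρ h a - a) + (ρ (D.x γ s) a - a)) := by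
    rw [← hmul, h3, hmul, hmul, map_sub, map_add, map_sub, map_sub, sub_add_sub_cancel]
  rw [h4]
  exact hδ t _ (E.add_mem (hE γ hγ s _ h2.1) (ha γ hγ s))

theorem fx_T (hT : ∀ t, ∀ e ∈ E, ρ (D.T t) e ∈ E) (t : ι → kˣ) (a : A) (ha : a ∈ D.Fx ρ E Γ) :
    ρ (D.T t) a ∈ D.Fx ρ E Γ := by
  have hmul : ∀ (g h : G) (b : A), ρ (g * h) b = ρ g (ρ h b) := by
    intro g h b
    rw [map_mul]
    rfl
  rw [RG.mem_Fx]
  intro γ hγ s
  obtain ⟨s', hs'⟩ := D.T_up t⁻¹ γ s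
  have h1 : D.x γ s * D.T t = D.T t * D.x γ s' := by
    have h0 : D.T t⁻¹ * D.x γ s = D.x γ s' * D.T t⁻¹ := hs'
    rw [map_inv] at h0
    calc D.x γ s * D.T t = D.T t * ((D.T t)⁻¹ * D.x γ s) * D.T t := by group
      _ = D.T t * (D.x γ s' * (D.T t)⁻¹) * D.T t := by rw [h0]
      _ = D.T t * D.x γ s' := by group
  have h2 : ρ (D.x γ s) (ρ (D.T t) a) - ρ (D.T t) a = ρ (D.T t) (ρ (D.x γ s') a - a) := by
    rw [← hmul, h1, hmul, map_sub]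
  rw [h2]
  exact hT t _ (ha γ hγ s')

theorem le_fx (hE : ∀ γ ∈ Γ, ∀ s, ∀ e ∈ E, ρ (D.x γ s) e ∈ E) : E ≤ D.Fx ρ E Γ := by
  intro e he γ hγ s
  exact E.sub_mem (hE γ hγ s e he) he

end Pool.Agent.MP_b525bf_ag_SG
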