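import Pool.Agent.Lib.MP_b525bf_ag_SG.GRP

/-!
# G11: geometric reductivity without coordinates

Proof. `m := Module.finBasis k M` (`n = finrank`), `σ g (m i) = ∑ j, a i j g • m j` with
`a i j ∈ Pol G` (`hσ` for the dual basis). The action on the dual space in the coordinates
`ξ ↦ (ξ (m i))_i`: `τ g` = the matrix with the entries `a i j g⁻¹` (`pol_inv`), a homomorphism to
`GL (Fin n) k` (`τ (g h) = τ g * τ h` from `σ (h⁻¹ g⁻¹) = σ h⁻¹ ∘ σ g⁻¹`; `MonoidHom.toHomUnits` or
`Units.mk` with the inverse `τ g⁻¹`), `τ g *ᵥ (ξ (m j))_j = (ξ (σ g⁻¹ (m i)))_i`. Apply `hG` with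
`v = (c (m i))_i`, not `0` as `c ≠ 0`, fixed by `hcinv`. Scale `F` so that its value at `v` is `1`. The
invariance for `g⁻¹` and `x = (ξ (m i))_i` is the last claim.
-/

set_option autoImplicit false

namespace Pool.Agent.MP_b525bf_ag_SG

open scoped MatrixGroups

theorem exists_form {k : Type} [Field k] {N : ℕ} (G : Subgroup (GL (Fin N) k))
    (hG : GeomReductive G) {M : Type} [AddCommGroup M] [Module k M] [Module.Finite k M]
    (σ : G →* (M ≃ₗ[k] M)) (hσ : ∀ (m : M) (ξ : M →ₗ[k] k), (fun g : G => ξ (σ g m)) ∈ Pol G)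
    (c : M →ₗ[k] k) (hc : c ≠ 0) (hcinv : ∀ g m, c (σ g m) = c m) :
    ∃ d : ℕ, 0 < d ∧ ∃ (n : ℕ) (m : Module.Basis (Fin n) k M) (F : MvPolynomial (Fin n) k),
      F.IsHomogeneous d ∧ MvPolynomial.eval (fun i => c (m i)) F = 1 ∧
      ∀ (g : G) (ξ : M →ₗ[k] k), MvPolynomial.eval (fun i => ξ (σ g (m i))) F =
        MvPolynomial.eval (fun i => ξ (m i)) F := by
  classical
  let m : Module.Basis (Fin (Module.finrank k M)) k M := Module.finBasis k M
  let T : G →* Matrix (Fin (Module.finrank k M)) (Fin (Module.finrank k M)) k :=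
    { toFun := fun g => (LinearMap.toMatrix m m ((σ g⁻¹ : M ≃ₗ[k] M) : M →ₗ[k] M)).transpose
      map_one' := by
        have h1 : (((σ (1 : G)⁻¹) : M ≃ₗ[k] M) : M →ₗ[k] M) = LinearMap.id := by
          ext x
          simp
        rw [h1, LinearMap.toMatrix_id, Matrix.transpose_one]
      map_mul' := by
        intro g h
        have h1 : ((σ (g * h)⁻¹ : M ≃ₗ[k] M) : M →ₗ[k] M) =
            ((σ h⁻¹ : M ≃ₗ[k] M) : M →ₗ[k] M) ∘ₗ ((σ g⁻¹ : M ≃ₗ[k] M) : M →ₗ[k] M) := by
          ext x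
          rw [mul_inv_rev, map_mul]
          rfl
        rw [h1, LinearMap.toMatrix_comp m m m, Matrix.transpose_mul] }
  have hTa : ∀ g i j, T g i j = m.coord j (σ g⁻¹ (m i)) := by
    intro g i j
    change LinearMap.toMatrix m m ((σ g⁻¹ : M ≃ₗ[k] M) : M →ₗ[k] M) j i = _
    rw [LinearMap.toMatrix_apply]
    rfl
  have hT : ∀ (g : G) (ξ : M →ₗ[k] k),
      (T g).mulVec (fun j => ξ (m j)) = fun i => ξ (σ g⁻¹ (m i)) := by
    intro g ξ
    funext i
    have h1 : σ g⁻¹ (m i) = ∑ j, T g i j • m j := by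
      conv_lhs => rw [← m.sum_repr (σ g⁻¹ (m i))]
      exact Finset.sum_congr rfl fun j _ => by rw [hTa]; rfl
    rw [h1, map_sum]
    simp only [Matrix.mulVec, dotProduct, map_smul, smul_eq_mul]
  have hpol : ∀ i j, ∃ P : MvPolynomial (Option (Fin N × Fin N)) k,
      ∀ g : G, ((T.toHomUnits g : GL (Fin (Module.finrank k M)) k) :
        Matrix (Fin (Module.finrank k M)) (Fin (Module.finrank k M)) k) i j =
        MvPolynomial.eval (coord g.1) P := by
    intro i j
    obtain ⟨P, hP⟩ := (mem_pol G _).1 (pol_inv G _ (hσ (m i) (m.coord j)))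
    refine ⟨P, fun g => ?_⟩
    rw [← hP g, MonoidHom.coe_toHomUnits, hTa]
  have hv0 : (fun i => c (m i)) ≠ 0 := by
    intro h0
    apply hc
    apply m.ext
    intro i
    exact congrFun h0 i
  obtain ⟨d, hd, F, hFh, hFinv, hFv⟩ := hG (Module.finrank k M) T.toHomUnits hpol
    (fun i => c (m i)) hv0 (by
      intro g
      rw [MonoidHom.coe_toHomUnits, hT]
      funext i
      exact hcinv _ _)
  refine ⟨d, hd, Module.finrank k M, m,
    MvPolynomial.C (MvPolynomial.eval (fun i => c (m i)) F)⁻¹ * F, ?_, ?_, ?_⟩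
  · have := (MvPolynomial.isHomogeneous_C (Fin (Module.finrank k M))
      (MvPolynomial.eval (fun i => c (m i)) F)⁻¹).mul hFh
    rwa [zero_add] at this
  · rw [map_mul, MvPolynomial.eval_C, inv_mul_cancel₀ hFv]
  · intro g ξ
    have h1 := hFinv g⁻¹ (fun j => ξ (m j))
    rw [MonoidHom.coe_toHomUnits, hT, inv_inv] at h1
    rw [map_mul, map_mul, h1, MvPolynomial.eval_C, MvPolynomial.eval_C]

private theorem grc_bind {k : Type} [Field k] {M : Type} [AddCommGroup M] [Module k M]
    {n : ℕ} (m : Module.Basis (Fin n) k M) (F : MvPolynomial (Fin n) k) (f : M →ₗ[k] M)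
    {A : Type} [CommRing A] [Algebra k A] (Ξ : M →ₗ[k] A) :
    MvPolynomial.aeval (fun i => Ξ (f (m i))) F = MvPolynomial.aeval (fun j => Ξ (m j))
      (MvPolynomial.bind₁
        (fun i => ∑ j, MvPolynomial.C (m.repr (f (m i)) j) * MvPolynomial.X j) F) := by
  rw [MvPolynomial.aeval_bind₁]
  congr 2
  funext i
  conv_lhs => rw [← m.sum_repr (f (m i))]
  rw [map_sum, map_sum]
  refine Finset.sum_congr rfl fun j _ => ?_
  rw [map_mul, MvPolynomial.aeval_X, MvPolynomial.aeval_C, map_smul, Algebra.smul_def]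

/-- The invariance of the form for linear maps to an algebra. -/
theorem form_aeval {k : Type} [Field k] [Infinite k] {M : Type} [AddCommGroup M] [Module k M]
    {n : ℕ} (m : Module.Basis (Fin n) k M) (F : MvPolynomial (Fin n) k) (f : M →ₗ[k] M)
    (hF : ∀ ξ : M →ₗ[k] k, MvPolynomial.eval (fun i => ξ (f (m i))) F =
        MvPolynomial.eval (fun i => ξ (m i)) F)
    {A : Type} [CommRing A] [Algebra k A] (Ξ : M →ₗ[k] A) :
    MvPolynomial.aeval (fun i => Ξ (f (m i))) F = MvPolynomial.aeval (fun i => Ξ (m i)) F := by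
  have hQ : MvPolynomial.bind₁
      (fun i => ∑ j, MvPolynomial.C (m.repr (f (m i)) j) * MvPolynomial.X j) F = F := by
    apply MvPolynomial.funext
    intro x
    have hx : (fun j => (m.constr k x : M →ₗ[k] k) (m j)) = x := by
      funext j
      rw [m.constr_basis]
    have h1 := hF (m.constr k x)
    have h2 := grc_bind m F f (m.constr k x)
    rw [hx] at h1 h2
    rw [MvPolynomial.aeval_eq_eval, MvPolynomial.aeval_eq_eval] at h2
    exact h2.symm.trans h1
  rw [grc_bind m F f Ξ, hQ]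

end Pool.Agent.MP_b525bf_ag_SG
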