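import Pool.Agent.Lib.MP_b525bf_ag_SG.GRC

/-!
# G12: the lifting property

Proof. `Q := W ⧸ E`, `τQ g : Q ≃ₗ[k] Q` induced by `τ g` (`Submodule.Quotient.equiv` or
`Submodule.mapQ`), `H := Q →ₗ[k] W`, `G` acts on `H` by `f ↦ τ g ∘ f ∘ (τQ g)⁻¹`
(`LinearEquiv.arrowCongr`). `M : Submodule k H` := the `f` such that `E.mkQ ∘ f = c • id` for some
`c : k` (unique as `Q ≠ 0`: `w ∉ E`); `c : M →ₗ[k] k` is linear, invariant, not `0` (a linear section
of `E.mkQ` exists, with `mkQ w ↦ w`, call it `s`: `c s = 1`). Matrix coefficients of `M`: those of `H`,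
`ξ (τ g ∘ f ∘ (τQ g)⁻¹)`, are combinations of products of coefficients of `W` and (at `g⁻¹`,
`pol_inv`) of `Q` (choose bases; the coefficients of `Q` are coefficients of `W` for functionals
that vanish on `E`); functionals of `M` extend to `H` (`LinearMap.exists_extend`). `exists_form`
gives `d, n, m, F`. `u i := (m i : H) (mkQ w)`. Second claim: `a i := c (m i)`, as `mkQ (m i (mkQ w)) =
c (m i) • mkQ w`. First claim: let `τ g w - c₀ • w ∈ E`, so `τQ g (mkQ w) = c₀ • mkQ w`, `c₀ ≠ 0`;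
`Ξ f := j (f (mkQ w))` is linear `M → A` and `Ξ (g • f) = j (τ g (f ((τQ g)⁻¹ (mkQ w)))) = c₀⁻¹ • j (τ g
(f (mkQ w)))`; so `aeval (j (τ g (u i))) F = aeval (c₀ • Ξ (g • m i)) F = c₀ ^ d • aeval (Ξ (g • m i)) F`
(`F` homogeneous) `= c₀ ^ d • aeval (Ξ (m i)) F` by `form_aeval`.
-/

set_option autoImplicit false

namespace Pool.Agent.MP_b525bf_ag_SG

open scoped MatrixGroups

/-- a linear action from maps which compose well -/
private def mkAct {k : Type} [Field k] {Γ : Type} [Group Γ] {M : Type} [AddCommGroup M] [Module k M]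
    (f : Γ → M →ₗ[k] M) (h1 : ∀ x, f 1 x = x) (hmul : ∀ g h x, f (g * h) x = f g (f h x)) :
    Γ →* (M ≃ₗ[k] M) where
  toFun g := LinearEquiv.ofLinearMap (f g) (f g⁻¹)
    (LinearMap.ext fun x => by
      rw [LinearMap.comp_apply, LinearMap.id_apply, ← hmul, mul_inv_cancel, h1])
    (LinearMap.ext fun x => by
      rw [LinearMap.comp_apply, LinearMap.id_apply, ← hmul, inv_mul_cancel, h1])
  map_one' := LinearEquiv.ext fun x => h1 x
  map_mul' g h := LinearEquiv.ext fun x => hmul g h x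

private theorem mkAct_apply {k : Type} [Field k] {Γ : Type} [Group Γ] {M : Type} [AddCommGroup M]
    [Module k M] (f : Γ → M →ₗ[k] M) (h1 : ∀ x, f 1 x = x)
    (hmul : ∀ g h x, f (g * h) x = f g (f h x)) (g : Γ) (x : M) : mkAct f h1 hmul g x = f g x := rfl

/-- the action on the quotient -/
private theorem exists_quot {k : Type} [Field k] {Γ : Type} [Group Γ] {W : Type} [AddCommGroup W]
    [Module k W] (τ : Γ →* (W ≃ₗ[k] W)) (E : Submodule k W) (hE : ∀ g, ∀ e ∈ E, τ g e ∈ E) :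
    ∃ τQ : Γ →* ((W ⧸ E) ≃ₗ[k] (W ⧸ E)), ∀ g x, τQ g (E.mkQ x) = E.mkQ (τ g x) := by
  have hle : ∀ g, E ≤ E.comap (τ g).toLinearMap := fun g e he => hE g e he
  refine ⟨mkAct (fun g => E.mapQ E (τ g).toLinearMap (hle g)) ?_ ?_, fun g x => rfl⟩
  · intro x
    obtain ⟨y, rfl⟩ := E.mkQ_surjective x
    show E.mkQ (τ 1 y) = E.mkQ y
    rw [map_one]
    rfl
  · intro g h x
    obtain ⟨y, rfl⟩ := E.mkQ_surjective x
    show E.mkQ (τ (g * h) y) = E.mkQ (τ g (τ h y))
    rw [map_mul]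
    rfl

/-- the action on the linear maps -/
private theorem exists_hom {k : Type} [Field k] {Γ : Type} [Group Γ] {W Q : Type} [AddCommGroup W]
    [Module k W] [AddCommGroup Q] [Module k Q] (τ : Γ →* (W ≃ₗ[k] W)) (τQ : Γ →* (Q ≃ₗ[k] Q)) :
    ∃ σ : Γ →* ((Q →ₗ[k] W) ≃ₗ[k] (Q →ₗ[k] W)), ∀ g f x, σ g f x = τ g (f (τQ g⁻¹ x)) := by
  refine ⟨mkAct (fun g =>
    { toFun := fun f => (τ g).toLinearMap ∘ₗ f ∘ₗ (τQ g⁻¹).toLinearMap
      map_add' := fun f f' => LinearMap.ext fun x => ?_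
      map_smul' := fun c f => LinearMap.ext fun x => ?_ }) ?_ ?_, fun g f x => rfl⟩
  · simp
  · simp
  · intro f
    refine LinearMap.ext fun x => ?_
    show τ 1 (f (τQ 1⁻¹ x)) = f x
    rw [inv_one, map_one, map_one]
    rfl
  · intro g h f
    refine LinearMap.ext fun x => ?_
    show τ (g * h) (f (τQ (g * h)⁻¹ x)) = τ g (τ h (f (τQ h⁻¹ (τQ g⁻¹ x))))
    rw [mul_inv_rev, map_mul, map_mul]
    rfl

/-- the action on a stable subspace -/
private theorem exists_sub {k : Type} [Field k] {Γ : Type} [Group Γ] {H : Type} [AddCommGroup H]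
    [Module k H] (σ : Γ →* (H ≃ₗ[k] H)) (M : Submodule k H) (hM : ∀ g, ∀ f ∈ M, σ g f ∈ M) :
    ∃ σM : Γ →* (M ≃ₗ[k] M), ∀ g (f : M), ((σM g f : M) : H) = σ g f := by
  refine ⟨mkAct (fun g => (σ g).toLinearMap.restrict (hM g)) ?_ ?_, fun g f => rfl⟩
  · intro f
    refine Subtype.ext ?_
    show σ 1 f = f
    rw [map_one]
    rfl
  · intro g h f
    refine Subtype.ext ?_
    show σ (g * h) f = σ g (σ h f)
    rw [map_mul]
    rfl

/-- the matrix coefficients of the linear maps -/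
private theorem hom_coeff {k : Type} [Field k] {N : ℕ} (G : Subgroup (GL (Fin N) k))
    {W : Type} [AddCommGroup W] [Module k W] [Module.Finite k W]
    (τ : G →* (W ≃ₗ[k] W)) (hτ : ∀ (m : W) (ξ : W →ₗ[k] k), (fun g : G => ξ (τ g m)) ∈ Pol G)
    (E : Submodule k W) (τQ : G →* ((W ⧸ E) ≃ₗ[k] (W ⧸ E)))
    (hQ : ∀ g x, τQ g (E.mkQ x) = E.mkQ (τ g x))
    (σ : G →* (((W ⧸ E) →ₗ[k] W) ≃ₗ[k] ((W ⧸ E) →ₗ[k] W)))
    (hσ : ∀ g f x, σ g f x = τ g (f (τQ g⁻¹ x))) (f : (W ⧸ E) →ₗ[k] W)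
    (ξ : ((W ⧸ E) →ₗ[k] W) →ₗ[k] k) : (fun g : G => ξ (σ g f)) ∈ Pol G := by
  classical
  obtain ⟨b⟩ : Nonempty (Module.Basis (Fin (Module.finrank k (W ⧸ E))) k (W ⧸ E)) :=
    ⟨Module.finBasis k (W ⧸ E)⟩
  have hx : ∀ i, ∃ x, E.mkQ x = b i := fun i => E.mkQ_surjective (b i)
  choose x hx using hx
  -- the functionals
  obtain ⟨η, hη⟩ : ∃ η : Fin (Module.finrank k (W ⧸ E)) → W →ₗ[k] k,
      ∀ i y, η i y = ξ ((b.coord i).smulRight y) := by
    refine ⟨fun i => ξ ∘ₗ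
      { toFun := fun y => (b.coord i).smulRight y
        map_add' := fun y y' => LinearMap.ext fun q => ?_
        map_smul' := fun c y => LinearMap.ext fun q => ?_ }, fun i y => rfl⟩
    · simp [smul_add]
    · rw [RingHom.id_apply, LinearMap.smul_apply, LinearMap.smulRight_apply,
        LinearMap.smulRight_apply, smul_comm]
  have hexp : ∀ h : (W ⧸ E) →ₗ[k] W, ξ h = ∑ i, η i (h (b i)) := by
    intro h
    have h1 : h = ∑ i, (b.coord i).smulRight (h (b i)) := by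
      refine b.ext fun l => ?_
      rw [LinearMap.sum_apply, Finset.sum_eq_single l]
      · simp
      · intro i _ hil
        simp [Finsupp.single_eq_of_ne hil]
      · intro hl
        exact absurd (Finset.mem_univ l) hl
    conv_lhs => rw [h1]
    rw [map_sum]
    exact Finset.sum_congr rfl fun i _ => (hη i _).symm
  have hform : (fun g : G => ξ (σ g f)) = fun g : G => ∑ i, ∑ l,
      (b.coord l ∘ₗ E.mkQ) (τ g⁻¹ (x i)) * η i (τ g (f (b l))) := by
    funext g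
    rw [hexp]
    refine Finset.sum_congr rfl fun i _ => ?_
    have h2 : τQ g⁻¹ (b i) = ∑ l, (b.coord l ∘ₗ E.mkQ) (τ g⁻¹ (x i)) • b l := by
      have h3 : τQ g⁻¹ (b i) = E.mkQ (τ g⁻¹ (x i)) := by rw [← hx i, hQ]
      rw [h3]
      exact (b.sum_repr _).symm
    rw [hσ, h2, map_sum, map_sum, map_sum]
    refine Finset.sum_congr rfl fun l _ => ?_
    rw [map_smul, map_smul, map_smul, smul_eq_mul]
  rw [hform]
  have hsum : (fun g : G => ∑ i, ∑ l,
      (b.coord l ∘ₗ E.mkQ) (τ g⁻¹ (x i)) * η i (τ g (f (b l))))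
      = ∑ i, ∑ l, (fun g : G => (b.coord l ∘ₗ E.mkQ) (τ g⁻¹ (x i))) *
        (fun g : G => η i (τ g (f (b l)))) := by
    funext g
    simp only [Finset.sum_apply, Pi.mul_apply]
  rw [hsum]
  refine Subalgebra.sum_mem _ fun i _ => Subalgebra.sum_mem _ fun l _ => ?_
  exact Subalgebra.mul_mem _
    (pol_inv G (fun g : G => (b.coord l ∘ₗ E.mkQ) (τ g (x i))) (hτ _ _)) (hτ _ _)

/-- a form at a multiple -/
private theorem aeval_smul_form {k : Type} [Field k] {n d : ℕ} (F : MvPolynomial (Fin n) k)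
    (hF : F.IsHomogeneous d) {A : Type} [CommRing A] [Algebra k A] (c : k) (y : Fin n → A) :
    MvPolynomial.aeval (fun i => c • y i) F = c ^ d • MvPolynomial.aeval y F := by
  rw [MvPolynomial.aeval_def, MvPolynomial.aeval_def, MvPolynomial.eval₂_eq, MvPolynomial.eval₂_eq,
    Finset.smul_sum]
  refine Finset.sum_congr rfl fun s hs => ?_
  have h1 : ∑ i ∈ s.support, s i = d := hF.degree_eq_sum_deg_support hs |>.symm
  rw [← h1, Finset.prod_congr rfl fun i _ => smul_pow c (y i) (s i), Finset.prod_smul,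
    Finset.prod_pow_eq_pow_sum, mul_smul_comm]

theorem exists_lift {k : Type} [Field k] [Infinite k] {N : ℕ} (G : Subgroup (GL (Fin N) k))
    (hG : GeomReductive G) {W : Type} [AddCommGroup W] [Module k W] [Module.Finite k W]
    (τ : G →* (W ≃ₗ[k] W)) (hτ : ∀ (m : W) (ξ : W →ₗ[k] k), (fun g : G => ξ (τ g m)) ∈ Pol G)
    (E : Submodule k W) (hE : ∀ g, ∀ e ∈ E, τ g e ∈ E) (w : W) (hw : w ∉ E) :
    ∃ d : ℕ, 0 < d ∧ ∃ (n : ℕ) (u : Fin n → W) (F : MvPolynomial (Fin n) k),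
      F.IsHomogeneous d ∧
      (∀ {A : Type} [CommRing A] [Algebra k A] (j : W →ₗ[k] A) (g : G) (c : k),
        τ g w - c • w ∈ E → MvPolynomial.aeval (fun i => j (τ g (u i))) F =
          c ^ d • MvPolynomial.aeval (fun i => j (u i)) F) ∧
      ∃ a : Fin n → k, (∀ i, u i - a i • w ∈ E) ∧ MvPolynomial.eval a F = 1 := by
  classical
  obtain ⟨τQ, hQ⟩ := exists_quot τ E hE
  obtain ⟨σ, hσ⟩ := exists_hom τ τQ
  have hq0 : E.mkQ w ≠ 0 := by
    intro h
    exact hw ((Submodule.Quotient.mk_eq_zero E).1 h)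
  obtain ⟨lam, hlam⟩ := Module.Projective.exists_dual_eq_one k hq0
  -- the subspace of the liftings
  let M : Submodule k ((W ⧸ E) →ₗ[k] W) :=
    { carrier := {f | ∃ c : k, ∀ q, E.mkQ (f q) = c • q}
      zero_mem' := ⟨0, fun q => by simp⟩
      add_mem' := by
        rintro f f' ⟨c, hc⟩ ⟨c', hc'⟩
        exact ⟨c + c', fun q => by rw [LinearMap.add_apply, map_add, hc, hc', add_smul]⟩
      smul_mem' := by
        rintro a f ⟨c, hc⟩
        exact ⟨a * c, fun q => by rw [LinearMap.smul_apply, map_smul, hc, mul_smul]⟩ }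
  obtain ⟨cc, hcc⟩ : ∃ cc : M →ₗ[k] k, ∀ f : M, cc f = lam (E.mkQ (f.1 (E.mkQ w))) :=
    ⟨{ toFun := fun f => lam (E.mkQ (f.1 (E.mkQ w)))
       map_add' := fun f f' => by
        show lam (E.mkQ ((f.1 + f'.1) (E.mkQ w))) = _
        rw [LinearMap.add_apply, map_add, map_add]
       map_smul' := fun a f => by
        show lam (E.mkQ ((a • f.1) (E.mkQ w))) = _
        rw [LinearMap.smul_apply, map_smul, map_smul]
        rfl }, fun f => rfl⟩
  have hcval : ∀ (f : M) (q : W ⧸ E), E.mkQ (f.1 q) = cc f • q := by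
    rintro ⟨f, c, hc⟩ q
    have h1 : cc ⟨f, c, hc⟩ = c := by
      rw [hcc]
      show lam (E.mkQ (f (E.mkQ w))) = c
      rw [hc, map_smul, hlam, smul_eq_mul, mul_one]
    rw [h1]
    exact hc q
  have hMst : ∀ g, ∀ f ∈ M, σ g f ∈ M := by
    rintro g f ⟨c, hc⟩
    refine ⟨c, fun q => ?_⟩
    rw [hσ, ← hQ, hc, map_smul]
    congr 1
    have h1 : τQ g (τQ g⁻¹ q) = (τQ g * τQ g⁻¹) q := rfl
    rw [h1, ← map_mul, mul_inv_cancel, map_one]
    rfl
  obtain ⟨σM, hσM⟩ := exists_sub σ M hMst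
  have hcinv : ∀ g m, cc (σM g m) = cc m := by
    intro g m
    have h1 := hcval (σM g m) (E.mkQ w)
    have h2 : E.mkQ ((σM g m).1 (E.mkQ w)) = cc m • E.mkQ w := by
      rw [hσM, hσ, ← hQ, hcval m, map_smul]
      congr 1
      have h1 : τQ g (τQ g⁻¹ (E.mkQ w)) = (τQ g * τQ g⁻¹) (E.mkQ w) := rfl
      rw [h1, ← map_mul, mul_inv_cancel, map_one]
      rfl
    rw [h2] at h1
    have h3 := congrArg lam h1
    rw [map_smul, map_smul, hlam, smul_eq_mul, smul_eq_mul, mul_one, mul_one] at h3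
    exact h3.symm
  have hcc0 : cc ≠ 0 := by
    obtain ⟨s, hs⟩ := E.mkQ.exists_rightInverse_of_surjective (Submodule.range_mkQ E)
    have hsq : ∀ q, E.mkQ (s q) = (1 : k) • q := by
      intro q
      rw [one_smul]
      exact LinearMap.congr_fun hs q
    intro h0
    have h1 := hcval ⟨s, 1, hsq⟩ (E.mkQ w)
    rw [h0, LinearMap.zero_apply, zero_smul] at h1
    have h2 : E.mkQ (s (E.mkQ w)) = E.mkQ w := by rw [hsq, one_smul]
    exact hq0 (h2.symm.trans h1)
  have hcoef : ∀ (m : M) (ξ : M →ₗ[k] k), (fun g : G => ξ (σM g m)) ∈ Pol G := by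
    intro m ξ
    obtain ⟨ξ', hξ'⟩ := ξ.exists_extend
    have h1 : (fun g : G => ξ (σM g m)) = fun g : G => ξ' (σ g m.1) := by
      funext g
      rw [← hξ', LinearMap.comp_apply, Submodule.subtype_apply, hσM]
    rw [h1]
    exact hom_coeff G τ hτ E τQ hQ σ hσ m.1 ξ'
  obtain ⟨d, hd, n, m, F, hF, hF1, hFinv⟩ := exists_form G hG σM hcoef cc hcc0 hcinv
  refine ⟨d, hd, n, fun i => (m i).1 (E.mkQ w), F, hF, ?_, fun i => cc (m i), ?_, hF1⟩
  · intro A _ _ j g c hgc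
    have h1 : τQ g (E.mkQ w) = c • E.mkQ w := by
      rw [hQ, ← map_smul, ← sub_eq_zero, ← map_sub]
      exact (Submodule.Quotient.mk_eq_zero E).2 hgc
    have hc0 : c ≠ 0 := by
      intro h0
      rw [h0, zero_smul] at h1
      exact hq0 ((τQ g).map_eq_zero_iff.1 h1)
    have h2 : τQ g⁻¹ (E.mkQ w) = c⁻¹ • E.mkQ w := by
      have h3 : τQ g⁻¹ (τQ g (E.mkQ w)) = E.mkQ w := by
        have h4 : τQ g⁻¹ (τQ g (E.mkQ w)) = (τQ g⁻¹ * τQ g) (E.mkQ w) := rfl
        rw [h4, ← map_mul, inv_mul_cancel, map_one]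
        rfl
      rw [h1, map_smul] at h3
      rw [← h3, smul_smul, inv_mul_cancel₀ hc0, one_smul]
      exact h3.symm ▸ rfl
    obtain ⟨Ξ, hΞ⟩ : ∃ Ξ : M →ₗ[k] A, ∀ f : M, Ξ f = j (f.1 (E.mkQ w)) :=
      ⟨{ toFun := fun f => j (f.1 (E.mkQ w))
         map_add' := fun f f' => by
          show j ((f.1 + f'.1) (E.mkQ w)) = _
          rw [LinearMap.add_apply, map_add]
         map_smul' := fun a f => by
          show j ((a • f.1) (E.mkQ w)) = _
          rw [LinearMap.smul_apply, map_smul]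
          rfl }, fun f => rfl⟩
    have h5 : ∀ i, j (τ g ((m i).1 (E.mkQ w))) = c • Ξ (σM g (m i)) := by
      intro i
      rw [hΞ, hσM, hσ, h2, map_smul, map_smul, map_smul, smul_smul, mul_inv_cancel₀ hc0, one_smul]
    have h6 : (fun i => j (τ g ((m i).1 (E.mkQ w)))) = fun i => c • Ξ (σM g (m i)) := funext h5
    rw [h6, aeval_smul_form F hF]
    congr 1
    have h7 := form_aeval m F (σM g).toLinearMap (fun ξ => hFinv g ξ) Ξ
    have h8 : (fun i => Ξ (σM g (m i))) = fun i => Ξ ((σM g).toLinearMap (m i)) := rfl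
    rw [h8, h7]
    exact congrArg (fun z => MvPolynomial.aeval z F) (funext fun i => hΞ (m i))
  · intro i
    have h1 := hcval (m i) (E.mkQ w)
    rw [← map_smul, ← sub_eq_zero, ← map_sub] at h1
    exact (Submodule.Quotient.mk_eq_zero E).1 h1

end Pool.Agent.MP_b525bf_ag_SG
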