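import Mathlib

/-!
# G13: a homogeneous polynomial at a small perturbation
-/

set_option autoImplicit false

namespace Pool.Agent.MP_b525bf_ag_SG

private theorem grh_mul {A Γ : Type} [CommRing A] [LinearOrderedCommGroupWithZero Γ]
    (v : Valuation A Γ) {c d : Γ} (hc : c ≠ 0) (hd : d ≠ 0) {x x' y y' : A}
    (h1 : v (x - x') < c) (h2 : v x' ≤ c) (h3 : v (y - y') < d) (h4 : v y' ≤ d) :
    v (x * y - x' * y') < c * d ∧ v (x' * y') ≤ c * d := by
  have hy : v y ≤ d := by
    have : y = (y - y') + y' := by ring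
    rw [this]
    exact (v.map_add _ _).trans (max_le h3.le h4)
  constructor
  · have e : x * y - x' * y' = (x - x') * y + x' * (y - y') := by ring
    rw [e]
    refine v.map_add_lt ?_ ?_
    · rw [v.map_mul]
      exact lt_of_le_of_lt (mul_le_mul_right hy _) ((mul_lt_mul_iff_left₀ (zero_lt_iff.2 hd)).2 h1)
    · rw [v.map_mul]
      exact lt_of_le_of_lt (mul_le_mul_left h2 _) ((mul_lt_mul_iff_right₀ (zero_lt_iff.2 hc)).2 h3)
  · rw [v.map_mul]
    exact mul_le_mul' h2 h4

private theorem grh_prod {A Γ : Type} [CommRing A] [LinearOrderedCommGroupWithZero Γ]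
    (v : Valuation A Γ) {n : ℕ} (w : A) (hw : v w ≠ 0) (u u' : Fin n → A)
    (h1 : ∀ i, v (u i - u' i) < v w) (h2 : ∀ i, v (u' i) ≤ v w) (m : Fin n → ℕ)
    (s : Finset (Fin n)) :
    v (∏ i ∈ s, u i ^ m i - ∏ i ∈ s, u' i ^ m i) < v w ^ (∑ i ∈ s, m i) ∧
      v (∏ i ∈ s, u' i ^ m i) ≤ v w ^ (∑ i ∈ s, m i) := by
  classical
  induction s using Finset.induction_on with
  | empty => simp
  | insert i s hi ih =>
    rw [Finset.prod_insert hi, Finset.prod_insert hi, Finset.sum_insert hi, pow_add]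
    have hp : ∀ e : ℕ, v (u i ^ e - u' i ^ e) < v w ^ e ∧ v (u' i ^ e) ≤ v w ^ e := by
      intro e
      induction e with
      | zero => simp
      | succ e ihe =>
        rw [pow_succ, pow_succ, pow_succ]
        exact grh_mul v (pow_ne_zero _ hw) hw ihe.1 ihe.2 (h1 i) (h2 i)
    exact grh_mul v (pow_ne_zero _ hw) (pow_ne_zero _ hw) (hp _).1 (hp _).2 ih.1 ih.2

private theorem grh_deg {k : Type} [Field k] {n d : ℕ} (F : MvPolynomial (Fin n) k)
    (hF : F.IsHomogeneous d) (m : Fin n →₀ ℕ) (hm : m ∈ F.support) :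
    ∑ i ∈ m.support, m i = d := by
  have h1 := hF (MvPolynomial.mem_support_iff.1 hm)
  rw [← h1, Finsupp.weight_apply, Finsupp.sum]
  refine Finset.sum_congr rfl (fun i _ => ?_)
  simp

theorem val_aeval {k A Γ : Type} [Field k] [CommRing A] [Algebra k A]
    [LinearOrderedCommGroupWithZero Γ] (v : Valuation A Γ)
    (hk : ∀ c : k, v (algebraMap k A c) ≤ 1) {n d : ℕ} (F : MvPolynomial (Fin n) k)
    (hF : F.IsHomogeneous d) (w : A) (hw : v w ≠ 0) (a : Fin n → k) (u : Fin n → A)
    (hu : ∀ i, v (u i - a i • w) < v w) :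
    v (MvPolynomial.aeval u F - MvPolynomial.eval a F • w ^ d) < v w ^ d := by
  have h2 : ∀ i, v (a i • w) ≤ v w := by
    intro i
    rw [Algebra.smul_def, v.map_mul]
    calc v (algebraMap k A (a i)) * v w ≤ 1 * v w := mul_le_mul_left (hk _) _
      _ = v w := one_mul _
  have e : MvPolynomial.aeval u F - MvPolynomial.eval a F • w ^ d
      = ∑ m ∈ F.support, (algebraMap k A (F.coeff m)) *
        (∏ i ∈ m.support, u i ^ m i - ∏ i ∈ m.support, (a i • w) ^ m i) := by
    rw [MvPolynomial.aeval_def, MvPolynomial.eval₂_eq, MvPolynomial.eval_eq, Finset.sum_smul,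
      ← Finset.sum_sub_distrib]
    refine Finset.sum_congr rfl (fun m hm => ?_)
    rw [mul_sub]
    congr 1
    have h3 : ∏ i ∈ m.support, (a i • w) ^ m i
        = (∏ i ∈ m.support, a i ^ m i) • w ^ d := by
      rw [← grh_deg F hF m hm, ← Finset.prod_pow_eq_pow_sum]
      simp only [Algebra.smul_def, mul_pow, Finset.prod_mul_distrib, map_prod, map_pow]
    rw [h3, mul_smul, Algebra.smul_def (MvPolynomial.coeff m F)]
  rw [e]
  refine v.map_sum_lt (pow_ne_zero _ hw) (fun m hm => ?_)
  rw [v.map_mul]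
  have h4 := (grh_prod v w hw u (fun i => a i • w) hu h2 (fun i => m i) m.support).1
  rw [grh_deg F hF m hm] at h4
  calc v (algebraMap k A (F.coeff m)) *
        v (∏ i ∈ m.support, u i ^ m i - ∏ i ∈ m.support, (a i • w) ^ m i)
      ≤ 1 * v (∏ i ∈ m.support, u i ^ m i - ∏ i ∈ m.support, (a i • w) ^ m i) :=
        mul_le_mul_left (hk _) _
    _ < v w ^ d := by rw [one_mul]; exact h4

/-- The value of a homogeneous polynomial is in the power of the space. -/
theorem aeval_mem_pow {k A : Type} [Field k] [CommRing A] [Algebra k A] {n d : ℕ}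
    (F : MvPolynomial (Fin n) k) (hF : F.IsHomogeneous d) (W : Submodule k A) (u : Fin n → A)
    (hu : ∀ i, u i ∈ W) : MvPolynomial.aeval u F ∈ W ^ d := by
  classical
  have hp : ∀ (m : Fin n → ℕ) (s : Finset (Fin n)),
      ∏ i ∈ s, u i ^ m i ∈ W ^ (∑ i ∈ s, m i) := by
    intro m s
    induction s using Finset.induction_on with
    | empty =>
      simp only [Finset.prod_empty, Finset.sum_empty, pow_zero]
      exact Submodule.one_le.1 le_rfl
    | insert i s hi ih =>
      rw [Finset.prod_insert hi, Finset.sum_insert hi, pow_add]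
      exact Submodule.mul_mem_mul (Submodule.pow_mem_pow W (hu i) _) ih
  rw [MvPolynomial.aeval_def, MvPolynomial.eval₂_eq]
  refine Submodule.sum_mem _ (fun m hm => ?_)
  rw [← Algebra.smul_def]
  refine Submodule.smul_mem _ _ ?_
  have := hp (fun i => m i) m.support
  rwa [grh_deg F hF m hm] at this

end Pool.Agent.MP_b525bf_ag_SG
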