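import Pool.Agent.Lib.MP_b525bf_ag_SG.GRF
import Pool.Agent.Lib.MP_b525bf_ag_SG.GRH
import Pool.Agent.Lib.MP_b525bf_ag_SG.FXG
import Pool.Agent.Lib.MP_b525bf_ag_SG.WTC

/-!
# G14: the property `EV` for geometrically reductive groups

Proof. As in MP_b525bf_ag_SA/DEV.lean: `O := span {ρ g a}`, finite-dimensional (`finite_span`),
stable; `E := {b ∈ O : v b < v a}`, stable, `a ∈ O`, `a ∉ E`, all elements of `O` have value `≤ v a`.
`exists_fx` (for the set of all positive roots, finite) and `exists_wt_not_mem` (see WTC.lean) give a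
weight vector `w ∈ O`, `w ∉ E` of weight `l'` with `ρ (D.x α s) w - w ∈ E` for all positive `α`; `v w =
v a`. Apply `exists_lift` to `W = O` (as a type), `τ g` = restriction of `ρ g` (coefficients by
`pol_of_rational`, extending functionals of `O` to `A`: `LinearMap.exists_extend`), the comap of `E`,
`w`; `j` = the inclusion. `l := aeval u F`: in `O ^ d` (`aeval_mem_pow`), `v (l - w ^ d) < v w ^ d`
(`val_aeval`), so `v l = v a ^ d`; `ρ g l = aeval (ρ g (u i)) F` (`ρ g` is an algebra homomorphism); `g = x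
α s`: `c = 1`; `g = T t`: `c = chi l' t`, `c ^ d = chi (d • l') t`. `N := d - 1`.
-/

set_option autoImplicit false

namespace Pool.Agent.MP_b525bf_ag_SG

open Pool.Agent.MP_b525bf_ag_R (up lo dg chi IsRat)
open scoped MatrixGroups

theorem ev_of_reductive {k : Type} [Field k] [Infinite k] {N : ℕ} (G : Subgroup (GL (Fin N) k))
    (hG : GeomReductive G) {ι R : Type} [Fintype ι] [Finite R] (D : RG k ι R G) {A : Type}
    [CommRing A] [Algebra k A] (ρ : G →* (A ≃ₐ[k] A)) (hρ : IsRational ρ) (hD : D.Rat ρ) :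
    D.EV ρ := by
  classical
  haveI : Fintype R := Fintype.ofFinite R
  intro Γ _ v hk hv a ha
  have hρmul : ∀ (g h : G) (x : A), ρ g (ρ h x) = ρ (g * h) x := by
    intro g h x
    rw [map_mul]
    rfl
  have hva : 0 < v a := zero_lt_iff.mpr ha
  have hvsmul : ∀ (c : k) (x : A), v (c • x) ≤ v x := by
    intro c x
    rw [Algebra.smul_def, map_mul]
    calc v (algebraMap k A c) * v x ≤ 1 * v x := by
          gcongr
          exact hk c
      _ = v x := one_mul _
  obtain ⟨O, hO⟩ : ∃ O : Submodule k A, O = Submodule.span k (Set.range fun g => ρ g a) := ⟨_, rfl⟩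
  have hfin : Module.Finite k O := by rw [hO]; exact finite_span G ρ hρ a
  -- the values on `O`
  let L : Submodule k A :=
    { carrier := {x | v x ≤ v a}
      add_mem' := by
        intro x y hx hy
        exact v.map_add_le hx hy
      zero_mem' := by
        simp only [Set.mem_ofPred_eq, map_zero]
        exact zero_le
      smul_mem' := by
        intro c x hx
        exact le_trans (hvsmul c x) hx }
  have hOL : ∀ x ∈ O, v x ≤ v a := by
    intro x hx
    have h1 : O ≤ L := by
      rw [hO, Submodule.span_le]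
      rintro _ ⟨g, rfl⟩
      exact (hv g a).le
    exact h1 hx
  let E : Submodule k A :=
    { carrier := {x | x ∈ O ∧ v x < v a}
      add_mem' := by
        intro x y hx hy
        exact ⟨Submodule.add_mem _ hx.1 hy.1, v.map_add_lt hx.2 hy.2⟩
      zero_mem' := by
        refine ⟨Submodule.zero_mem _, ?_⟩
        rw [map_zero]
        exact hva
      smul_mem' := by
        intro c x hx
        exact ⟨Submodule.smul_mem _ _ hx.1, lt_of_le_of_lt (hvsmul c x) hx.2⟩ }
  -- stability
  have hOst : ∀ (g : G), ∀ x ∈ O, ρ g x ∈ O := by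
    intro g x hx
    rw [hO] at hx ⊢
    induction hx using Submodule.span_induction with
    | mem b hb =>
      obtain ⟨h, rfl⟩ := hb
      refine Submodule.subset_span ⟨g * h, ?_⟩
      exact (hρmul g h a).symm
    | zero => rw [map_zero]; exact Submodule.zero_mem _
    | add x y _ _ hx hy => rw [map_add]; exact Submodule.add_mem _ hx hy
    | smul c x _ hx => rw [map_smul]; exact Submodule.smul_mem _ c hx
  have hEst : ∀ (g : G), ∀ x ∈ E, ρ g x ∈ E := by
    intro g x hx
    refine ⟨hOst g x hx.1, ?_⟩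
    rw [hv]
    exact hx.2
  have haO : a ∈ O := by
    rw [hO]
    exact Submodule.subset_span ⟨1, by simp⟩
  have haE : a ∉ E := fun h => lt_irrefl _ h.2
  -- the vector `w`
  let P : Finset R := Finset.univ.filter fun α => 0 < D.ht α
  have hP : ∀ α, α ∈ P ↔ 0 < D.ht α := fun α => by
    rw [Finset.mem_filter]
    exact ⟨fun h => h.2, fun h => ⟨Finset.mem_univ _, h⟩⟩
  obtain ⟨w1, hw1O, hw1E, hw1F⟩ := exists_fx D ρ hD O E P
    (fun γ hγ => (hP γ).1 hγ)
    (fun γ hγ δ hδ β hbtw => (hP β).2 (by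
      obtain ⟨i, j, hi, hj, hr⟩ := hbtw
      have h1 := (hP γ).1 hγ
      have h2 := (hP δ).1 hδ
      rw [D.ht_btw hr]
      have h3 : (0 : ℤ) < i := by exact_mod_cast hi
      have h4 : (0 : ℤ) < j := by exact_mod_cast hj
      exact add_pos (mul_pos h3 h1) (mul_pos h4 h2)))
    (fun γ _ s x hx => hOst _ x hx) (fun γ _ s x hx => hEst _ x hx) a haO haE
  obtain ⟨w, hwOF, hwE, e0, he0⟩ := exists_wt_not_mem D ρ hD
    (O ⊓ D.Fx ρ E (P : Set R)) E
    (fun t x hx => ⟨hOst _ x hx.1, fx_T D ρ E (P : Set R)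
      (fun t y hy => hEst _ y hy) t x hx.2⟩) w1 ⟨hw1O, hw1F⟩ hw1E
  have hwO : w ∈ O := hwOF.1
  have hvw : v w = v a := by
    rcases (hOL w hwO).lt_or_eq with h2 | h2
    · exact absurd ⟨hwO, h2⟩ hwE
    · exact h2
  -- the representation on `O`
  let τ : G →* (O ≃ₗ[k] O) :=
    { toFun := fun g =>
        { toFun := fun x => ⟨ρ g x, hOst g x x.2⟩
          map_add' := fun x y => Subtype.ext (map_add (ρ g) (x : A) (y : A))
          map_smul' := fun c x => Subtype.ext (map_smul (ρ g) c (x : A))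
          invFun := fun x => ⟨ρ g⁻¹ x, hOst g⁻¹ x x.2⟩
          left_inv := fun x => Subtype.ext (by
            show ρ g⁻¹ (ρ g (x : A)) = x
            rw [hρmul, inv_mul_cancel, map_one, AlgEquiv.one_apply])
          right_inv := fun x => Subtype.ext (by
            show ρ g (ρ g⁻¹ (x : A)) = x
            rw [hρmul, mul_inv_cancel, map_one, AlgEquiv.one_apply]) }
      map_one' := by
        refine LinearEquiv.ext fun x => Subtype.ext ?_
        show ρ 1 (x : A) = x
        rw [map_one, AlgEquiv.one_apply]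
      map_mul' := fun g h => by
        refine LinearEquiv.ext fun x => Subtype.ext ?_
        show ρ (g * h) (x : A) = ρ g (ρ h (x : A))
        rw [hρmul] }
  have hτv : ∀ g (x : O), ((τ g x : O) : A) = ρ g x := fun g x => rfl
  have hτ : ∀ (m : O) (ξ : O →ₗ[k] k), (fun g : G => ξ (τ g m)) ∈ Pol G := by
    intro m ξ
    obtain ⟨ξ', hξ'⟩ := LinearMap.exists_extend ξ
    have h1 : (fun g : G => ξ (τ g m)) = fun g : G => ξ' (ρ g (m : A)) := by
      funext g
      rw [← hξ']
      rfl
    rw [h1]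
    exact pol_of_rational G ρ hρ (m : A) ξ'
  obtain ⟨d, hd, n, u, F, hF, hinv, aa, hu, hval⟩ := exists_lift G hG τ hτ (E.comap O.subtype)
    (fun g e he => hEst g _ he) ⟨w, hwO⟩ (fun h => hwE h)
  obtain ⟨l, hl⟩ : ∃ l : A, l = MvPolynomial.aeval (fun i => ((u i : O) : A)) F := ⟨_, rfl⟩
  have hρl : ∀ g, ρ g l = MvPolynomial.aeval (fun i => ((τ g (u i) : O) : A)) F := by
    intro g
    rw [hl]
    exact MvPolynomial.comp_aeval_apply (fun i => ((u i : O) : A)) (ρ g : A →ₐ[k] A) F
  have hact : ∀ (g : G) (c : k), ρ g w - c • w ∈ E → ρ g l = c ^ d • l := by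
    intro g c hgc
    rw [hρl, hl]
    exact hinv O.subtype g c hgc
  have hvl : v (l - w ^ d) < v w ^ d := by
    have h1 := val_aeval v hk F hF w (by rw [hvw]; exact ha) aa (fun i => ((u i : O) : A)) (fun i => by
      rw [hvw]
      exact (hu i).2)
    rw [hval, one_smul, ← hl] at h1
    exact h1
  refine ⟨d - 1, l, ?_, ?_, ?_, ?_⟩
  · rw [Nat.sub_add_cancel hd, ← hO, hl]
    exact aeval_mem_pow F hF O _ fun i => (u i).2
  · rw [Nat.sub_add_cancel hd]
    have h1 : l = w ^ d + (l - w ^ d) := by ring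
    have h2 : v (w ^ d) = v a ^ d := by rw [map_pow, hvw]
    rw [hvw] at hvl
    rw [h1, v.map_add_eq_of_lt_left (by rw [h2]; exact hvl), h2]
  · intro α hα s
    have h1 := (D.mem_Fx ρ E (P : Set R) w).1 hwOF.2 α (Finset.mem_coe.2 ((hP α).2 hα)) s
    have h2 := hact (D.x α s) 1 (by rw [one_smul]; exact h1)
    rwa [one_pow, one_smul] at h2
  · refine ⟨d • e0, fun t => ?_⟩
    have h2 := hact (D.T t) (chi e0 t : k) (by
      rw [he0 t, sub_self]
      exact E.zero_mem)
    rw [h2]
    congr 1
    have h3 : (chi (d • e0) t : kˣ) = chi e0 t ^ d := by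
      simp only [chi, Pi.smul_apply, ← Finset.prod_pow]
      refine Finset.prod_congr rfl fun j _ => ?_
      rw [nsmul_eq_mul, mul_comm, zpow_mul, zpow_natCast]
    rw [h3]
    push_cast
    rfl

end Pool.Agent.MP_b525bf_ag_SG
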