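import Pool.Agent.Lib.MP_b525bf_ag_SG.FXS
import Pool.Agent.Lib.MP_b525bf_ag_SG.POS

/-!
# A06: the roots in `Pos` (first part)
-/

set_option autoImplicit false

namespace Pool.Agent.MP_b525bf_ag_SG

open Pool.Agent.MP_b525bf_ag_R (up lo dg chi IsRat)
open scoped MatrixGroups

variable {k ι R G : Type} [Field k] [Infinite k] [Fintype ι] [Group G] (D : RG k ι R G) {A : Type}
  [CommRing A] [Algebra k A] (ρ : G →* (A ≃ₐ[k] A))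

theorem pr_eq_zero (hρ : D.Rat ρ) (ψ : R) (hψ : 0 < D.ht ψ) (hψ' : ψ ∉ D.Pos ρ) (h : A)
    (hh : h ≠ 0) (hU : D.IsU ρ h) (l : ι → ℤ) (hl : D.IsWt ρ l h) : D.pr l ψ = 0 := by
  refine le_antisymm (not_lt.1 fun hlt => hψ' ⟨hψ, l, h, hh, hU, hl, hlt⟩) ?_
  exact dominant D ρ hρ h hh hU l hl ψ hψ

theorem pos_add (hρ : D.Rat ρ) (γ : R) (hγ : γ ∈ D.Pos ρ) (δ : R)
    (hδ : ∀ h l, h ≠ 0 → D.IsU ρ h → D.IsWt ρ l h → 0 ≤ D.pr l δ) (β : R)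
    (hbtw : D.Btw γ δ β) : β ∈ D.Pos ρ := by
  obtain ⟨hγ0, l, h, h0, hU, hl, hpos⟩ := hγ
  obtain ⟨a, b, c, ha, hb, hc, h1⟩ := D.pr_btw l hbtw
  have h2 := hδ h l h0 hU hl
  have h6 : 0 < D.pr l β := by
    have h7 : 0 < (c : ℤ) * D.pr l β := by
      rw [h1]
      have h8 : 0 < (a : ℤ) * D.pr l γ := mul_pos (by exact_mod_cast ha) hpos
      have h9 : 0 ≤ (b : ℤ) * D.pr l δ := mul_nonneg (by positivity) h2
      omega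
    exact (mul_pos_iff_of_pos_left (by exact_mod_cast hc)).1 h7
  refine ⟨?_, l, h, h0, hU, hl, h6⟩
  by_contra hcon
  have h3 := D.ht_ne β
  have h4 : 0 < D.ht (D.neg β) := by
    rw [D.ht_neg]
    omega
  have h5 := dominant D ρ hρ h h0 hU l hl _ h4
  rw [D.pr_neg] at h5
  omega

theorem inv_pos_x (hρ : D.Rat ρ) (δ : R) (hδ : 0 < D.ht δ ∨ (0 < D.ht (D.neg δ) ∧ D.neg δ ∉ D.Pos ρ))
    (t : k) (a : A) (ha : a ∈ D.Fx ρ ⊥ (D.Pos ρ)) : ρ (D.x δ t) a ∈ D.Fx ρ ⊥ (D.Pos ρ) := by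
  have hbot : ∀ (g : G), ∀ e ∈ (⊥ : Submodule k A), ρ g e ∈ (⊥ : Submodule k A) := by
    intro g e he
    rw [Submodule.mem_bot] at he ⊢
    rw [he, map_zero]
  refine fx_x D ρ ⊥ (D.Pos ρ) δ (fun γ _ s => hbot _) (fun s => hbot _) ?_ ?_ t a ha
  · intro γ hγ h
    rcases hδ with h1 | ⟨-, h1⟩
    · have h2 := hγ.1
      rw [h, D.ht_neg] at h2
      omega
    · exact h1 (h ▸ hγ)
  · intro γ hγ β hbtw
    refine pos_add D ρ hρ γ hγ δ ?_ β hbtw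
    intro h l h0 hU hl
    rcases hδ with h1 | ⟨h1, h2⟩
    · exact dominant D ρ hρ h h0 hU l hl δ h1
    · have h3 := pr_eq_zero D ρ hρ (D.neg δ) h1 h2 h h0 hU l hl
      rw [D.pr_neg] at h3
      omega

theorem compl_add (hρ : D.Rat ρ) (γ δ β : R) (hγ : 0 < D.ht γ ∧ γ ∉ D.Pos ρ)
    (hδ : 0 < D.ht δ ∧ δ ∉ D.Pos ρ) (hbtw : D.Btw γ δ β) : 0 < D.ht β ∧ β ∉ D.Pos ρ := by
  obtain ⟨i, j, hi, hj, hr⟩ := hbtw
  have h1 := D.ht_btw hr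
  refine ⟨?_, ?_⟩
  · rw [h1]
    have h2 : 0 < (i : ℤ) * D.ht γ := mul_pos (by exact_mod_cast hi) hγ.1
    have h3 : 0 < (j : ℤ) * D.ht δ := mul_pos (by exact_mod_cast hj) hδ.1
    omega
  · rintro ⟨-, l, h, h0, hU, hl, hpos⟩
    obtain ⟨a, b, c, ha, hb, hc, h1⟩ := D.pr_btw l (⟨i, j, hi, hj, hr⟩ : D.Btw γ δ β)
    rw [pr_eq_zero D ρ hρ γ hγ.1 hγ.2 h h0 hU l hl,
      pr_eq_zero D ρ hρ δ hδ.1 hδ.2 h h0 hU l hl, mul_zero, mul_zero, add_zero] at h1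
    rcases mul_eq_zero.1 h1 with h2 | h2
    · have : (c : ℤ) ≠ 0 := by exact_mod_cast hc.ne'
      exact this h2
    · omega

end Pool.Agent.MP_b525bf_ag_SG
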