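import Pool.Agent.Lib.MP_b525bf_ag_SG.LVA
import Pool.Agent.Lib.MP_b525bf_ag_SG.FXG
import Pool.Agent.Lib.MP_b525bf_ag_SG.WTC
import Pool.Agent.Lib.MP_b525bf_ag_SG.SL2

/-!
# A07: the roots in `Pos` (second part)
-/

set_option autoImplicit false

namespace Pool.Agent.MP_b525bf_ag_SG

open Pool.Agent.MP_b525bf_ag_R (up lo dg chi IsRat)
open scoped MatrixGroups

private lemma mem_fx_bot {k ι R G : Type} [Field k] [Fintype ι] [Group G]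
    (D : RG k ι R G) {A : Type} [CommRing A] [Algebra k A] (ρ : G →* (A ≃ₐ[k] A)) (Γ : Set R)
    (a : A) : a ∈ D.Fx ρ ⊥ Γ ↔ ∀ γ ∈ Γ, ∀ s, ρ (D.x γ s) a = a := by
  rw [RG.mem_Fx]
  simp only [Submodule.mem_bot, sub_eq_zero]

theorem isU_of_fixed {k ι R G : Type} [Field k] [Infinite k] [Fintype ι] [Finite R] [Group G]
    (D : RG k ι R G) {A : Type} [CommRing A] [Algebra k A] (ρ : G →* (A ≃ₐ[k] A))
    (hρ : D.Rat ρ) (a : A) (ha : ∀ α ∈ D.Pos ρ, ∀ s, ρ (D.x α s) a = a) : D.IsU ρ a := by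
  classical
  have _ft : Fintype R := Fintype.ofFinite R
  obtain ⟨Ψ, hΨ⟩ : ∃ Ψ : Finset R, ∀ ψ, ψ ∈ Ψ ↔ 0 < D.ht ψ ∧ ψ ∉ D.Pos ρ :=
    ⟨Finset.univ.filter (fun ψ => 0 < D.ht ψ ∧ ψ ∉ D.Pos ρ), fun ψ => by simp⟩
  obtain ⟨W, hW⟩ : ∃ W : Submodule k A, W = D.Fx ρ ⊥ (D.Pos ρ) := ⟨_, rfl⟩
  obtain ⟨E, hE⟩ : ∃ E : Submodule k A,
    E = D.Fx ρ ⊥ (D.Pos ρ ∪ ({γ | γ ∈ Ψ} ∪ {γ | D.neg γ ∈ Ψ})) := ⟨_, rfl⟩
  have hmW : ∀ b, b ∈ W ↔ ∀ γ ∈ D.Pos ρ, ∀ s, ρ (D.x γ s) b = b := fun b => by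
    rw [hW, mem_fx_bot]
  have hmE : ∀ b, b ∈ E ↔ (∀ γ ∈ D.Pos ρ, ∀ s, ρ (D.x γ s) b = b) ∧
      (∀ γ ∈ Ψ, ∀ s, ρ (D.x γ s) b = b) ∧ ∀ γ, D.neg γ ∈ Ψ → ∀ s, ρ (D.x γ s) b = b := by
    intro b
    rw [hE, mem_fx_bot]
    constructor
    · intro h
      exact ⟨fun γ hγ => h γ (Or.inl hγ), fun γ hγ => h γ (Or.inr (Or.inl hγ)),
        fun γ hγ => h γ (Or.inr (Or.inr hγ))⟩
    · rintro ⟨h1, h2, h3⟩ γ (hγ | hγ | hγ)
      · exact h1 γ hγ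
      · exact h2 γ hγ
      · exact h3 γ hγ
  have haW : a ∈ W := (hmW a).2 ha
  suffices hWE : a ∈ E by
    intro α hα s
    by_cases h1 : α ∈ D.Pos ρ
    · exact ha α h1 s
    · exact ((hmE a).1 hWE).2.1 α ((hΨ α).2 ⟨hα, h1⟩) s
  by_contra haE
  have hbotT : ∀ t, ∀ e ∈ (⊥ : Submodule k A), ρ (D.T t) e ∈ (⊥ : Submodule k A) := by
    intro t e he
    rw [Submodule.mem_bot] at he ⊢
    rw [he, map_zero]
  have hWT : ∀ t, ∀ b ∈ W, ρ (D.T t) b ∈ W := by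
    intro t b hb
    rw [hW] at hb ⊢
    exact fx_T D ρ ⊥ _ hbotT t b hb
  have hET : ∀ t, ∀ b ∈ E, ρ (D.T t) b ∈ E := by
    intro t b hb
    rw [hE] at hb ⊢
    exact fx_T D ρ ⊥ _ hbotT t b hb
  have hWx : ∀ γ ∈ Ψ, ∀ s, ∀ b ∈ W, ρ (D.x γ s) b ∈ W := by
    intro γ hγ s b hb
    rw [hW] at hb ⊢
    exact inv_pos_x D ρ hρ γ (Or.inl ((hΨ γ).1 hγ).1) s b hb
  have hEx : ∀ γ ∈ Ψ, ∀ s, ∀ b ∈ E, ρ (D.x γ s) b ∈ E := by
    intro γ hγ s b hb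
    rw [((hmE b).1 hb).2.1 γ hγ s]
    exact hb
  obtain ⟨w0, hw0W, hw0E, hw0Fx⟩ := exists_fx D ρ hρ W E Ψ (fun γ hγ => ((hΨ γ).1 hγ).1)
    (fun γ hγ δ hδ β hbtw => (hΨ β).2
      (compl_add D ρ hρ γ δ β ((hΨ γ).1 hγ) ((hΨ δ).1 hδ) hbtw)) hWx hEx a haW haE
  obtain ⟨w, hwWF, hwE, l, hl⟩ := exists_wt_not_mem D ρ hρ (W ⊓ D.Fx ρ E (Ψ : Set R)) E
    (fun t b hb => ⟨hWT t b hb.1, fx_T D ρ E _ hET t b hb.2⟩) w0 ⟨hw0W, hw0Fx⟩ hw0E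
  have hwW : w ∈ W := hwWF.1
  have hwF : ∀ ψ ∈ Ψ, ∀ s, ρ (D.x ψ s) w - w ∈ E := hwWF.2
  -- elements of E are fixed by SL_2
  have hfix : ∀ ψ ∈ Ψ, ∀ g, ∀ e ∈ E, ρ (D.φ ψ g) e = e := by
    intro ψ hψ
    let H : Subgroup SL(2, k) :=
      { carrier := {g | ∀ e ∈ E, ρ (D.φ ψ g) e = e}
        mul_mem' := by
          intro g g' hg hg' e he
          rw [map_mul, map_mul, AlgEquiv.mul_apply, hg' e he, hg e he]
        one_mem' := by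
          intro e _
          rw [map_one, map_one]
          rfl
        inv_mem' := by
          intro g hg e he
          have h1 : ρ (D.φ ψ g⁻¹) (ρ (D.φ ψ g) e) = e := by
            rw [← AlgEquiv.mul_apply, ← map_mul, ← map_mul, inv_mul_cancel, map_one, map_one]
            rfl
          rw [hg e he] at h1
          exact h1 }
    have hH : H = ⊤ := by
      refine eq_top_of_up_lo H ?_ ?_
      · intro s e he
        exact ((hmE e).1 he).2.1 ψ hψ s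
      · intro s e he
        change ρ (D.φ ψ (lo s)) e = e
        rw [D.lo_eq]
        exact ((hmE e).1 he).2.2 (D.neg ψ) (by rw [D.neg_neg]; exact hψ) s
    intro g
    have hg : g ∈ H := by rw [hH]; exact Subgroup.mem_top g
    exact hg
  have hpr : ∀ ψ ∈ Ψ, 0 ≤ D.pr l ψ ∧ (D.pr l ψ = 0 → ∀ g, ρ (D.φ ψ g) w - w ∈ E) := by
    intro ψ hψ
    refine pr_nonneg D ρ hρ ψ E (fun g e he => ?_) w hwE l hl (hwF ψ hψ)
    rw [hfix ψ hψ g e he]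
    exact he
  by_cases hall : ∀ ψ ∈ Ψ, D.pr l ψ = 0
  · -- the vector is fixed
    have hc : ∀ ψ ∈ Ψ, ∀ g, ρ (D.φ ψ g) w = w := by
      intro ψ hψ g
      have h1 := (hpr ψ hψ).2 (hall ψ hψ)
      have h2 := hom_add_eq_zero (fun g => ρ (D.φ ψ g) w - w) (by
        intro g g'
        have h3 := hfix ψ hψ g _ (h1 g')
        rw [map_sub] at h3
        have h4 : ρ (D.φ ψ (g * g')) w = ρ (D.φ ψ g) (ρ (D.φ ψ g') w) := by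
          rw [map_mul, map_mul, AlgEquiv.mul_apply]
        beta_reduce
        rw [h4, ← h3]
        ring) g
      exact sub_eq_zero.1 h2
    refine hwE ((hmE w).2 ⟨(hmW w).1 hwW, fun γ hγ s => hc γ hγ (up s), fun γ hγ s => ?_⟩)
    have h1 := hc (D.neg γ) hγ (lo s)
    rw [D.lo_eq, D.neg_neg] at h1
    exact h1
  · push Not at hall
    obtain ⟨ψ₀, hψ₀, hne⟩ := hall
    have hup : ∀ ψ ∈ Ψ, ∀ s, ρ (D.x ψ s) w = w := by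
      intro ψ hψ s
      exact up_fixed (ρ.comp (D.φ ψ)) (hρ.sl ψ) w (D.pr l ψ) (hpr ψ hψ).1
        (fun t => dg_wt D ρ ψ l w hl t) (fun s t => hfix ψ hψ (dg t) _ (hwF ψ hψ s)) s
    have hU : D.IsU ρ w := by
      intro α hα s
      by_cases h1 : α ∈ D.Pos ρ
      · exact (hmW w).1 hwW α h1 s
      · exact hup α ((hΨ α).2 ⟨hα, h1⟩) s
    have hw0 : w ≠ 0 := by
      rintro rfl
      exact hwE E.zero_mem
    refine ((hΨ ψ₀).1 hψ₀).2 ⟨((hΨ ψ₀).1 hψ₀).1, l, w, hw0, hU, hl, ?_⟩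
    exact lt_of_le_of_ne (hpr ψ₀ hψ₀).1 (Ne.symm hne)

end Pool.Agent.MP_b525bf_ag_SG
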