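import Mathlib

/-!
# G01: leading coefficients of polynomials over a valued field

Proof. `v : Valuation K Γ` on a field `K`, `D` an additive real function on exponents.
`Lead v D F c e`: all coefficients of `F` have value at most `c`, the coefficient of `X ^ e` has
value `c ≠ 0`, and all other exponents `m` whose coefficient has value `c` have `D m < D e`.
`lead_mul`: the coefficient of `X ^ m` in `F * F'` is the sum over `a + b = m` of products
(`MvPolynomial.coeff_mul`), of value at most `c * c'`. If the value is `c * c'`, some pair has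
`v (F.coeff a) = c`, `v (F'.coeff b) = c'` (otherwise all products are `< c * c'`, use
`Valuation.map_sum_lt`), so `D m = D a + D b ≤ D e + D e'` with equality only for `a = e`,
`b = e'`. For `m = e + e'` all pairs different from `(e, e')` give products of value `< c * c'`
(if both values were maximal, `D a + D b < D e + D e'`), so the value of the sum is that of the
term `(e, e')` (`Valuation.map_add_eq_of_lt_left`, ...). `lead_one`, `lead_pow`, `lead_prod`,
`lead_C`: immediate / induction (`D 0 = 0` by additivity).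
-/

set_option autoImplicit false

namespace Pool.Agent.MP_b525bf_ag_SG

section Lead

variable {K Γ J : Type} [Field K] [LinearOrderedCommGroupWithZero Γ]

/-- The coefficient of `X ^ e` is the leading one among those of greatest value `c`. -/
def Lead (v : Valuation K Γ) (D : (J →₀ ℕ) → ℝ) (F : MvPolynomial J K) (c : Γ) (e : J →₀ ℕ) :
    Prop :=
  c ≠ 0 ∧ (∀ m, v (F.coeff m) ≤ c) ∧ v (F.coeff e) = c ∧
    ∀ m, v (F.coeff m) = c → m ≠ e → D m < D e

variable {v : Valuation K Γ} {D : (J →₀ ℕ) → ℝ}

private theorem prod_lt {a b : K} {c c' : Γ} (hc : c ≠ 0) (hc' : c' ≠ 0) (ha : v a ≤ c)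
    (hb : v b ≤ c') (h : ¬ (v a = c ∧ v b = c')) : v (a * b) < c * c' := by
  have hc0 : 0 < c := zero_lt_iff.2 hc
  have hc0' : 0 < c' := zero_lt_iff.2 hc'
  rw [map_mul]
  rcases lt_or_eq_of_le ha with h1 | h1
  · exact lt_of_le_of_lt (mul_le_mul_right hb _) (mul_lt_mul_of_pos_right h1 hc0')
  · have h2 : v b < c' := lt_of_le_of_ne hb (fun h2 => h ⟨h1, h2⟩)
    exact lt_of_le_of_lt (mul_le_mul_left ha _) (mul_lt_mul_of_pos_left h2 hc0)

theorem lead_mul (hD : ∀ m m', D (m + m') = D m + D m') {F F' : MvPolynomial J K} {c c' : Γ}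
    {e e' : J →₀ ℕ} (h : Lead v D F c e) (h' : Lead v D F' c' e') :
    Lead v D (F * F') (c * c') (e + e') := by
  classical
  obtain ⟨hc, hle, he, hlt⟩ := h
  obtain ⟨hc', hle', he', hlt'⟩ := h'
  have hcc : c * c' ≠ 0 := mul_ne_zero hc hc'
  have hD1 : ∀ a, v (F.coeff a) = c → D a ≤ D e := by
    intro a ha
    by_cases h : a = e
    · rw [h]
    · exact (hlt a ha h).le
  have hD2 : ∀ a, v (F'.coeff a) = c' → D a ≤ D e' := by
    intro a ha
    by_cases h : a = e'
    · rw [h]
    · exact (hlt' a ha h).le
  refine ⟨hcc, ?_, ?_, ?_⟩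
  · intro m
    rw [MvPolynomial.coeff_mul]
    apply Valuation.map_sum_le
    intro x _
    rw [map_mul]
    exact mul_le_mul' (hle _) (hle' _)
  · rw [MvPolynomial.coeff_mul]
    have hmem : (e, e') ∈ Finset.HasAntidiagonal.antidiagonal (e + e') := by
      rw [Finset.HasAntidiagonal.mem_antidiagonal]
    rw [← Finset.add_sum_erase _ _ hmem]
    have h1 : v (F.coeff e * F'.coeff e') = c * c' := by rw [map_mul, he, he']
    have h2 : v (∑ x ∈ (Finset.HasAntidiagonal.antidiagonal (e + e')).erase (e, e'),
        F.coeff x.1 * F'.coeff x.2) < c * c' := by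
      apply Valuation.map_sum_lt v hcc
      intro x hx
      rw [Finset.mem_erase, Finset.HasAntidiagonal.mem_antidiagonal] at hx
      apply prod_lt hc hc' (hle _) (hle' _)
      rintro ⟨h3, h4⟩
      have h5 : D x.1 + D x.2 = D e + D e' := by rw [← hD, ← hD, hx.2]
      have h6 : x.1 = e := by
        by_contra h6
        have := hlt _ h3 h6
        have := hD2 _ h4
        linarith
      have h7 : x.2 = e' := by
        by_contra h7
        have := hlt' _ h4 h7
        have := hD1 _ h3
        linarith
      exact hx.1 (Prod.ext h6 h7)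
    rw [Valuation.map_add_eq_of_lt_left, h1]
    rw [h1]
    exact h2
  · intro m hm hne
    rw [MvPolynomial.coeff_mul] at hm
    have h1 : ∃ x ∈ Finset.HasAntidiagonal.antidiagonal m, v (F.coeff x.1) = c ∧ v (F'.coeff x.2) = c' := by
      by_contra hno
      push Not at hno
      have h2 : v (∑ x ∈ Finset.HasAntidiagonal.antidiagonal m, F.coeff x.1 * F'.coeff x.2) < c * c' := by
        apply Valuation.map_sum_lt v hcc
        intro x hx
        apply prod_lt hc hc' (hle _) (hle' _)
        rintro ⟨h3, h4⟩
        exact hno x hx h3 h4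
      exact absurd hm h2.ne
    obtain ⟨x, hx, h3, h4⟩ := h1
    rw [Finset.HasAntidiagonal.mem_antidiagonal] at hx
    rw [← hx, hD, hD]
    by_cases h5 : x.1 = e
    · have h6 : x.2 ≠ e' := by
        intro h6
        apply hne
        rw [← hx, h5, h6]
      have := hlt' _ h4 h6
      have := hD1 _ h3
      linarith
    · have := hlt _ h3 h5
      have := hD2 _ h4
      linarith

theorem lead_C (hD : ∀ m m', D (m + m') = D m + D m') {a : K} (ha : a ≠ 0) :
    Lead v D (MvPolynomial.C a) (v a) 0 := by
  classical
  have hva : v a ≠ 0 := (Valuation.ne_zero_iff v).2 ha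
  refine ⟨hva, ?_, ?_, ?_⟩
  · intro m
    rw [MvPolynomial.coeff_C]
    split_ifs
    · exact le_rfl
    · rw [map_zero]
      exact zero_le
  · rw [MvPolynomial.coeff_C, if_pos rfl]
  · intro m hm hne
    rw [MvPolynomial.coeff_C, if_neg (Ne.symm hne), map_zero] at hm
    exact absurd hm.symm hva

theorem lead_pow (hD : ∀ m m', D (m + m') = D m + D m') {F : MvPolynomial J K} {c : Γ}
    {e : J →₀ ℕ} (h : Lead v D F c e) (n : ℕ) : Lead v D (F ^ n) (c ^ n) (n • e) := by
  induction n with
  | zero =>
    have h1 := lead_C (v := v) hD (one_ne_zero : (1 : K) ≠ 0)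
    rw [map_one, map_one] at h1
    rw [pow_zero, pow_zero, zero_smul]
    exact h1
  | succ n ih =>
    rw [pow_succ, pow_succ, succ_nsmul]
    exact lead_mul hD ih h

theorem lead_prod (hD : ∀ m m', D (m + m') = D m + D m') {ι : Type} (s : Finset ι)
    (F : ι → MvPolynomial J K) (c : ι → Γ) (e : ι → J →₀ ℕ) (h : ∀ i ∈ s, Lead v D (F i) (c i) (e i)) :
    Lead v D (∏ i ∈ s, F i) (∏ i ∈ s, c i) (∑ i ∈ s, e i) := by
  classical
  induction s using Finset.induction_on with
  | empty =>
    have h1 := lead_C (v := v) hD (one_ne_zero : (1 : K) ≠ 0)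
    rw [map_one, map_one] at h1
    rw [Finset.prod_empty, Finset.prod_empty, Finset.sum_empty]
    exact h1
  | insert a s ha ih =>
    rw [Finset.prod_insert ha, Finset.prod_insert ha, Finset.sum_insert ha]
    exact lead_mul hD (h a (Finset.mem_insert_self _ _))
      (ih (fun i hi => h i (Finset.mem_insert_of_mem hi)))

end Lead

end Pool.Agent.MP_b525bf_ag_SG
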