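import Pool.Agent.Lib.MP_b525bf_ag_SG.MAN

/-!
# Equivariant resolution: the definitions and the theorems of the final statements
-/

set_option autoImplicit false

namespace Pool.Agent.MP_b525bf_ag_SG

open AlgebraicGeometry CategoryTheory
open Pool.Agent.LU2 Pool.Agent.MP_b525bf_ag Pool.Agent.MP_b525bf_ag_W Pool.Agent.MP_b525bf_ag_E
  Pool.Agent.MPb525bf Pool.Agent.MP_b525bf_ag_ES
open scoped MatrixGroups

/-- Equivariant resolution of singularities of the affine variety `X = Spec A` with an action `ρ` of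
the group `G`: `X` has a resolution of singularities; the blowing up of `X` in some `G`-stable ideal
`I ≠ 0` is smooth over `k`; and if `A` is graded and generated by its elements of degree one, and
the torus of the grading acts through `G`, then the projective variety `Proj A` has a resolution of
singularities. -/
def EquivariantResolution (k : Type) [Field k] {A : Type} [CommRing A] [IsDomain A] [Algebra k A]
    {G : Type} [Group G] (ρ : G →* (A ≃ₐ[k] A)) : Prop :=
  HasResolution (Spec.map (CommRingCat.ofHom (algebraMap k A))) ∧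
    (∃ I : Ideal A, I ≠ ⊥ ∧ (∀ g, ∀ a ∈ I, ρ g a ∈ I) ∧
      ∀ b ∈ I, b ≠ 0 → Algebra.Smooth k (chart I b)) ∧
    ∀ (𝒜 : ℕ → Submodule k A) [GradedAlgebra 𝒜], Algebra.adjoin k (𝒜 1 : Set A) = ⊤ →
      𝒜 1 ≠ ⊥ → (∀ t : kˣ, ∃ g, ∀ (d : ℕ), ∀ a ∈ 𝒜 d, ρ g a = (t : k) ^ d • a) →
      HasResolution (projTo 𝒜)

/-- Equivariant log resolution of the affine variety `X = Spec A` with an action `ρ` of the group
`G`: for all `G`-stable ideals `D ≠ 0`, `J ≠ 0` there is a `G`-stable ideal `I ≠ 0` such that the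
blowing up of `X` in `J * I` is a log desingularization of `(X, V(D))` along every valuation ring of
the field of fractions that contains `A`. -/
def EquivariantLogResolution (k : Type) [Field k] {A : Type} [CommRing A] [IsDomain A]
    [Algebra k A] {G : Type} [Group G] (ρ : G →* (A ≃ₐ[k] A)) : Prop :=
  ∀ D J : Ideal A, D ≠ ⊥ → (∀ g, ∀ a ∈ D, ρ g a ∈ D) → J ≠ ⊥ → (∀ g, ∀ a ∈ J, ρ g a ∈ J) →
    ∃ I : Ideal A, I ≠ ⊥ ∧ (∀ g, ∀ a ∈ I, ρ g a ∈ I) ∧
      ∀ V : ValuationSubring (FractionRing A), (∀ a : A, algebraMap A (FractionRing A) a ∈ V) →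
        MP_b525bf_ag_EL.IsLogDesing V D (J * I)

section Main

variable (p : ℕ) [Fact p.Prime] (k : Type) [Field k] [IsAlgClosed k] [CharP k p] (A : Type)
  [CommRing A] [IsDomain A] [Algebra k A] [Algebra.FiniteType k A]

include p in
theorem equivariantResolution_of_reductive {N n : ℕ} {R : Type} [Finite R]
    {P : RootDatum R (Fin n → ℤ) (Fin n → ℤ)} [P.IsReduced] {b : P.Base}
    (G : Subgroup (GL (Fin N) k)) (hG : GeomReductive G) (D : RootGroupData P b G)
    (ρ : G →* (A ≃ₐ[k] A)) (hρ : IsRational ρ)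
    (hc : Algebra.trdeg k (invField (D.borel.map ρ)) ≤ 1) : EquivariantResolution k ρ :=
  resolution_of_hyp p k A ρ (D.borel.map ρ) (hyp_of_reductive p k A G hG D ρ hρ hc)

include p in
theorem equivariantLogResolution_of_reductive {N n : ℕ} {R : Type} [Finite R]
    {P : RootDatum R (Fin n → ℤ) (Fin n → ℤ)} [P.IsReduced] {b : P.Base}
    (G : Subgroup (GL (Fin N) k)) (hG : GeomReductive G) (D : RootGroupData P b G)
    (ρ : G →* (A ≃ₐ[k] A)) (hρ : IsRational ρ)
    (hc : Algebra.trdeg k (invField (D.borel.map ρ)) ≤ 1) : EquivariantLogResolution k ρ :=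
  log_resolution_of_hyp p k A ρ (D.borel.map ρ) (hyp_of_reductive p k A G hG D ρ hρ hc)

include p in
theorem equivariantResolution_of_typeA {m : ℕ} (d : Fin m → ℕ) (r : ℕ)
    (ρ : MP_b525bf_ag_SA.SLA k d r →* (A ≃ₐ[k] A)) (hρ : MP_b525bf_ag_SA.IsRational ρ)
    (hc : Algebra.trdeg k (invField ((MP_b525bf_ag_SA.borel k d r).map ρ)) ≤ 1) :
    EquivariantResolution k ρ :=
  MP_b525bf_ag_SA.resolution_of_rational p k A d r ρ hρ hc

include p in
theorem equivariantLogResolution_of_typeA {m : ℕ} (d : Fin m → ℕ) (r : ℕ)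
    (ρ : MP_b525bf_ag_SA.SLA k d r →* (A ≃ₐ[k] A)) (hρ : MP_b525bf_ag_SA.IsRational ρ)
    (hc : Algebra.trdeg k (invField ((MP_b525bf_ag_SA.borel k d r).map ρ)) ≤ 1) :
    EquivariantLogResolution k ρ :=
  fun D J hD0 hDG hJ0 hJG =>
    MP_b525bf_ag_SA.log_resolution_of_rational p k A d r ρ hρ hc D J hD0 hDG hJ0 hJG

end Main

end Pool.Agent.MP_b525bf_ag_SG
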